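import Pool.Agent.Helper23S.Glob

/-!
# The length-area method
-/

set_option autoImplicit false
set_option linter.unusedSectionVars false

open MeasureTheory Set Filter Topology Metric

noncomputable section

namespace Pool.Agent.Helper23S

theorem polar_annulus {F : ℂ → ℝ} (hF : Continuous F) (z0 : ℂ) {r R : ℝ} (hr : 0 ≤ r) :
    ∫ z in {z : ℂ | r < dist z z0 ∧ dist z z0 < R}, F z =
      ∫ t in Ioo r R, t * ∫ θ in Ioo (-Real.pi) Real.pi,
        F (z0 + t * Complex.exp (θ * Complex.I)) := by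
  have hm : MeasurableSet {z : ℂ | r < dist z z0 ∧ dist z z0 < R} :=
    ((isOpen_lt continuous_const (continuous_id.dist continuous_const)).inter
      (isOpen_lt (continuous_id.dist continuous_const) continuous_const)).measurableSet
  rw [← integral_indicator hm]
  set H : ℂ → ℝ := {z : ℂ | r < dist z z0 ∧ dist z z0 < R}.indicator F with hH
  have h1 : ∫ z, H z = ∫ z, H (z0 + z) := (integral_add_left_eq_self H z0).symm
  rw [h1, ← Complex.integral_comp_polarCoord_symm]
  have hS : MeasurableSet (Ioo r R ×ˢ Ioo (-Real.pi) Real.pi) := measurableSet_Ioo.prod measurableSet_Ioo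
  have h2 : ∫ p in polarCoord.target, p.1 • H (z0 + Complex.polarCoord.symm p) =
      ∫ p in Ioo r R ×ˢ Ioo (-Real.pi) Real.pi,
        p.1 * F (z0 + p.1 * Complex.exp (p.2 * Complex.I)) := by
    rw [← integral_indicator hS, ← integral_indicator polarCoord.open_target.measurableSet]
    congr 1
    funext p
    have e1 : Complex.polarCoord.symm p = p.1 * Complex.exp (p.2 * Complex.I) := by
      rw [Complex.polarCoord_symm_apply, Complex.exp_mul_I]
      push_cast
      ring
    by_cases hp : p ∈ polarCoord.target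
    · rw [indicator_of_mem hp]
      rw [polarCoord_target] at hp
      have hp1 : 0 < p.1 := hp.1
      have e2 : dist (z0 + Complex.polarCoord.symm p) z0 = p.1 := by
        rw [dist_eq_norm, add_sub_cancel_left, e1, norm_mul, Complex.norm_exp_ofReal_mul_I,
          mul_one, Complex.norm_real, Real.norm_eq_abs, abs_of_pos hp1]
      by_cases hp2 : r < p.1 ∧ p.1 < R
      · have h3 : p ∈ Ioo r R ×ˢ Ioo (-Real.pi) Real.pi := ⟨hp2, hp.2⟩
        rw [indicator_of_mem h3, hH, indicator_of_mem, e1, smul_eq_mul]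
        show r < dist _ z0 ∧ dist _ z0 < R
        rw [e2]
        exact hp2
      · have h3 : p ∉ Ioo r R ×ˢ Ioo (-Real.pi) Real.pi := fun h => hp2 h.1
        rw [indicator_of_notMem h3, hH, indicator_of_notMem, smul_zero]
        rintro ⟨h4, h5⟩
        rw [e2] at h4 h5
        exact hp2 ⟨h4, h5⟩
    · rw [indicator_of_notMem hp, indicator_of_notMem]
      intro h3
      apply hp
      rw [polarCoord_target]
      exact ⟨lt_of_le_of_lt hr h3.1.1, h3.2⟩
  rw [h2]
  rw [Measure.volume_eq_prod, setIntegral_prod]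
  · refine setIntegral_congr_fun measurableSet_Ioo fun t _ => ?_
    exact integral_const_mul _ _
  · have h3 : Continuous fun p : ℝ × ℝ => p.1 * F (z0 + p.1 * Complex.exp (p.2 * Complex.I)) := by
      fun_prop
    have h4 : IntegrableOn (fun p : ℝ × ℝ => p.1 * F (z0 + p.1 * Complex.exp (p.2 * Complex.I)))
        (Icc r R ×ˢ Icc (-Real.pi) Real.pi) (volume.prod volume) :=
      h3.continuousOn.integrableOn_compact (isCompact_Icc.prod isCompact_Icc)
    exact h4.mono_set (prod_mono Ioo_subset_Icc_self Ioo_subset_Icc_self)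

/-- there is a circle with small energy -/
theorem circ {F : ℂ → ℝ} (hF : Continuous F) (hF0 : ∀ z, 0 ≤ F z) (z0 : ℂ) {E r : ℝ} (hr : 0 < r)
    (hr1 : r < 1) (hE : ∫ z in ball z0 1, F z ≤ E) :
    ∃ t, r < t ∧ t < 1 ∧ t ^ 2 * ∫ θ in Ioo (-Real.pi) Real.pi,
      F (z0 + t * Complex.exp (θ * Complex.I)) ≤ (E + 1) / Real.log (1 / r) := by
  by_contra hc
  push Not at hc
  have hlog : 0 < Real.log (1 / r) := Real.log_pos (by rw [one_div]; exact (one_lt_inv₀ hr).2 hr1)
  set g : ℝ → ℝ := fun t => ∫ θ in Ioo (-Real.pi) Real.pi,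
      F (z0 + t * Complex.exp (θ * Complex.I)) with hg
  have h1 := polar_annulus (R := 1) hF z0 hr.le
  have hgc : Continuous g := by
    have : g = fun t : ℝ => ∫ θ in (-Real.pi)..Real.pi, F (z0 + t * Complex.exp (θ * Complex.I)) := by
      funext t
      rw [intervalIntegral.integral_of_le (by have := Real.pi_pos; linarith),
        integral_Ioc_eq_integral_Ioo]
    rw [this]
    apply intervalIntegral.continuous_parametric_intervalIntegral_of_continuous'
    fun_prop
  have h2 : ∫ z in {z : ℂ | r < dist z z0 ∧ dist z z0 < 1}, F z ≤ E := by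
    refine le_trans (setIntegral_mono_set ?_ ?_ ?_) hE
    · exact (hF.continuousOn.integrableOn_compact (isCompact_closedBall z0 1)).mono_set
        ball_subset_closedBall
    · exact Eventually.of_forall fun z => hF0 z
    · exact (show {z : ℂ | r < dist z z0 ∧ dist z z0 < 1} ⊆ ball z0 1 from
        fun z hz => hz.2).eventuallyLE
  have h3 : ∫ t in Ioo r 1, (E + 1) / Real.log (1 / r) * t⁻¹ ≤ ∫ t in Ioo r 1, t * g t := by
    refine setIntegral_mono_on ?_ ?_ measurableSet_Ioo fun t ht => ?_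
    · have : ContinuousOn (fun t : ℝ => (E + 1) / Real.log (1 / r) * t⁻¹) (Icc r 1) :=
        continuousOn_const.mul (continuousOn_id.inv₀ fun t ht => (lt_of_lt_of_le hr ht.1).ne')
      exact (this.integrableOn_compact isCompact_Icc).mono_set Ioo_subset_Icc_self
    · exact ((continuous_id.mul hgc).continuousOn.integrableOn_compact isCompact_Icc).mono_set
        Ioo_subset_Icc_self
    · have h4 := hc t ht.1 ht.2
      have ht0 : 0 < t := lt_trans hr ht.1
      rw [← div_eq_mul_inv, div_le_iff₀ ht0]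
      have : t * g t * t = t ^ 2 * g t := by ring
      rw [this]
      exact h4.le
  have h4 : ∫ t in Ioo r 1, (E + 1) / Real.log (1 / r) * t⁻¹ = E + 1 := by
    rw [integral_const_mul, ← integral_Ioc_eq_integral_Ioo,
      ← intervalIntegral.integral_of_le hr1.le, integral_inv_of_pos hr one_pos]
    field_simp
  rw [h4] at h3
  rw [h1] at h2
  linarith

/-- a map which has small energy on a circle has small oscillation on the circle -/
theorem osc_circle {φ : ℂ → ℂ} (hφ : ContDiff ℝ 1 φ) (z0 : ℂ) {t c : ℝ} (ht : 0 < t) (hc : 0 < c)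
    (h : t ^ 2 * ∫ θ in Ioo (-Real.pi) Real.pi,
      ‖fderiv ℝ φ (z0 + t * Complex.exp (θ * Complex.I))‖ ^ 2 ≤ c) (z : ℂ) (hz : dist z z0 = t) :
    dist (φ z) (φ (z0 + t)) ≤ 4 * Real.sqrt c := by
  have hd : Differentiable ℝ φ := hφ.differentiable (by simp)
  set γ : ℝ → ℂ := fun θ => z0 + t * Complex.exp (θ * Complex.I) with hγ
  have hγd : ∀ θ : ℝ, HasDerivAt γ (t * (Complex.exp (θ * Complex.I) * Complex.I)) θ := by
    intro θ
    have h1 : HasDerivAt (fun θ : ℝ => (θ : ℂ) * Complex.I) Complex.I θ := by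
      simpa using ((Complex.ofRealCLM.hasDerivAt (x := θ)).mul_const Complex.I)
    exact (h1.cexp.const_mul (t : ℂ)).const_add z0
  have hγc : Continuous γ := by
    rw [hγ]
    fun_prop
  have hD : Continuous (fderiv ℝ φ) := hφ.continuous_fderiv (by simp)
  have h2 : ∀ θ : ℝ, HasDerivAt (fun θ => φ (γ θ)) (fderiv ℝ φ (γ θ)
      (t * (Complex.exp (θ * Complex.I) * Complex.I))) θ := fun θ =>
    (hd (γ θ)).hasFDerivAt.comp_hasDerivAt θ (hγd θ)
  have hcont : Continuous fun θ : ℝ => fderiv ℝ φ (γ θ)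
      (t * (Complex.exp (θ * Complex.I) * Complex.I)) :=
    (hD.comp hγc).clm_apply (by fun_prop)
  set s := Real.sqrt c with hs
  have hs0 : 0 < s := Real.sqrt_pos.2 hc
  have hs2 : s ^ 2 = c := Real.sq_sqrt hc.le
  -- the angle of `z`
  obtain ⟨θ, hθ, hzθ⟩ : ∃ θ ∈ Icc (-Real.pi) Real.pi, z = γ θ := by
    refine ⟨Complex.arg (z - z0), ⟨(Complex.neg_pi_lt_arg _).le, Complex.arg_le_pi _⟩, ?_⟩
    have h3 := Complex.norm_mul_exp_arg_mul_I (z - z0)
    rw [← dist_eq_norm, hz] at h3
    rw [hγ]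
    simp only
    rw [h3]
    ring
  have h0 : z0 + t = γ 0 := by simp [hγ]
  have hpt : ∀ θ' : ℝ, ‖fderiv ℝ φ (γ θ') (t * (Complex.exp (θ' * Complex.I) * Complex.I))‖ ≤
      s / 2 + (2 * s)⁻¹ * (t ^ 2 * ‖fderiv ℝ φ (γ θ')‖ ^ 2) := by
    intro θ'
    have h4 := (fderiv ℝ φ (γ θ')).le_opNorm (t * (Complex.exp (θ' * Complex.I) * Complex.I))
    rw [norm_mul, norm_mul, Complex.norm_exp_ofReal_mul_I, Complex.norm_I, Complex.norm_real,
      Real.norm_eq_abs, abs_of_pos ht, mul_one, mul_one] at h4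
    refine h4.trans ?_
    set x := ‖fderiv ℝ φ (γ θ')‖
    have h5 : x * t = s / 2 + (2 * s)⁻¹ * (t ^ 2 * x ^ 2) - (2 * s)⁻¹ * (s - t * x) ^ 2 := by
      field_simp
      ring
    have h6 : 0 ≤ (2 * s)⁻¹ * (s - t * x) ^ 2 := by positivity
    linarith
  have hint : ∫ θ' in Icc (-Real.pi) Real.pi,
      ‖fderiv ℝ φ (γ θ') (t * (Complex.exp (θ' * Complex.I) * Complex.I))‖ ≤ 4 * s := by
    have h5 : Continuous fun θ' => s / 2 + (2 * s)⁻¹ * (t ^ 2 * ‖fderiv ℝ φ (γ θ')‖ ^ 2) :=
      continuous_const.add (continuous_const.mul (continuous_const.mul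
        ((hD.comp hγc).norm.pow 2)))
    have h6 : ∫ θ' in Icc (-Real.pi) Real.pi,
        ‖fderiv ℝ φ (γ θ') (t * (Complex.exp (θ' * Complex.I) * Complex.I))‖ ≤
        ∫ θ' in Icc (-Real.pi) Real.pi, (s / 2 + (2 * s)⁻¹ * (t ^ 2 * ‖fderiv ℝ φ (γ θ')‖ ^ 2)) :=
      setIntegral_mono_on (hcont.norm.continuousOn.integrableOn_compact isCompact_Icc)
        (h5.continuousOn.integrableOn_compact isCompact_Icc) measurableSet_Icc fun θ' _ => hpt θ'
    refine h6.trans ?_
    have h7 : Continuous fun θ' => ‖fderiv ℝ φ (γ θ')‖ ^ 2 := (hD.comp hγc).norm.pow 2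
    have h8 : IntegrableOn (fun _ : ℝ => s / 2) (Icc (-Real.pi) Real.pi) :=
      continuousOn_const.integrableOn_compact isCompact_Icc
    have h8' : IntegrableOn (fun θ' => (2 * s)⁻¹ * (t ^ 2 * ‖fderiv ℝ φ (γ θ')‖ ^ 2))
        (Icc (-Real.pi) Real.pi) :=
      (continuous_const.mul (continuous_const.mul h7)).continuousOn.integrableOn_compact
        isCompact_Icc
    rw [integral_add h8 h8', integral_const_mul, integral_const_mul, setIntegral_const,
      integral_Icc_eq_integral_Ioo]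
    have h8 : (volume.real (Icc (-Real.pi) Real.pi)) = 2 * Real.pi := by
      rw [Real.volume_real_Icc_of_le (by have := Real.pi_pos; linarith)]
      ring
    rw [h8, smul_eq_mul]
    have h9 : (2 * s)⁻¹ * (t ^ 2 * ∫ θ in Ioo (-Real.pi) Real.pi, ‖fderiv ℝ φ (γ θ)‖ ^ 2) ≤
        (2 * s)⁻¹ * c := mul_le_mul_of_nonneg_left h (by positivity)
    have h10 : (2 * s)⁻¹ * c = s / 2 := by
      rw [← hs2]
      field_simp
    have h11 : Real.pi < 3.15 := Real.pi_lt_d2
    nlinarith
  have hnn : ∀ θ' : ℝ, 0 ≤ ‖fderiv ℝ φ (γ θ') (t * (Complex.exp (θ' * Complex.I) * Complex.I))‖ :=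
    fun _ => norm_nonneg _
  rw [hzθ, h0, dist_eq_norm]
  have hftc : φ (γ θ) - φ (γ 0) = ∫ θ' in (0 : ℝ)..θ, fderiv ℝ φ (γ θ')
      (t * (Complex.exp (θ' * Complex.I) * Complex.I)) :=
    (intervalIntegral.integral_eq_sub_of_hasDerivAt (fun θ' _ => h2 θ')
      (hcont.intervalIntegrable _ _)).symm
  rw [hftc]
  refine (intervalIntegral.norm_integral_le_integral_norm_uIoc).trans ?_
  refine le_trans (setIntegral_mono_set ?_ ?_ ?_) hint
  · exact hcont.norm.continuousOn.integrableOn_compact isCompact_Icc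
  · exact Eventually.of_forall fun θ' => hnn θ'
  · refine (show uIoc 0 θ ⊆ Icc (-Real.pi) Real.pi from fun y hy => ?_).eventuallyLE
    have h12 := uIoc_subset_uIcc hy
    have h13 : (0 : ℝ) ∈ Icc (-Real.pi) Real.pi := ⟨by have := Real.pi_pos; linarith, Real.pi_pos.le⟩
    exact uIcc_subset_Icc h13 hθ h12

/-- **equicontinuity** of homeomorphisms with bounded energy -/
theorem equi (e : ℂ ≃ₜ ℂ) (he : ContDiff ℝ 1 e) (z0 : ℂ) {E r : ℝ} (hr : 0 < r)
    (hr1 : r < 1) (hE : ∫ z in ball z0 1, ‖fderiv ℝ e z‖ ^ 2 ≤ E) (z : ℂ) (hz : dist z z0 ≤ r) :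
    dist (e z) (e z0) ≤ 8 * Real.sqrt ((E + 1) / Real.log (1 / r)) := by
  have hE0 : 0 ≤ E := le_trans (integral_nonneg fun _ => sq_nonneg _) hE
  have hlog : 0 < Real.log (1 / r) := Real.log_pos (by rw [one_div]; exact (one_lt_inv₀ hr).2 hr1)
  have hc : 0 < (E + 1) / Real.log (1 / r) := by positivity
  have hF : Continuous fun z => ‖fderiv ℝ e z‖ ^ 2 := (he.continuous_fderiv (by simp)).norm.pow 2
  obtain ⟨t, ht1, ht2, ht3⟩ := circ hF (fun _ => sq_nonneg _) z0 hr hr1 hE
  have ht0 : 0 < t := lt_trans hr ht1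
  have h1 := osc_circle he z0 ht0 hc ht3
  have h2 := topo e (w := e (z0 + t)) (om := 4 * Real.sqrt ((E + 1) / Real.log (1 / r)))
    (by positivity) h1
  have h3 := h2 z (by linarith)
  have h4 := h2 z0 (by rw [dist_self]; exact ht0.le)
  calc dist (e z) (e z0) ≤ dist (e z) (e (z0 + t)) + dist (e (z0 + t)) (e z0) := dist_triangle _ _ _
    _ ≤ _ := by rw [dist_comm (e (z0 + t))]; linarith

end Pool.Agent.Helper23S
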