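import Pool.Agent.Helper23S.Close

/-!
# Pointwise eventually constant coefficients have solutions which are Cauchy in energy
-/

set_option autoImplicit false
set_option linter.unusedSectionVars false

open MeasureTheory Set Filter Topology Metric

noncomputable section

namespace Pool.Agent.Helper23S

variable {ρ L : ℝ} {μ μ' : ℂ → ℂ}

theorem int_Qc {f : ℂ → ℝ} (hf : Continuous f) (L : ℝ) : IntegrableOn f (Qc L) :=
  hf.continuousOn.integrableOn_compact (Qc_compact L)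

theorem int3 {E A B C : ℂ → ℝ} (hE : Continuous E) (hA : Continuous A) (hB : Continuous B)
    (hC : Continuous C) (c1 c2 c3 L : ℝ) (h : ∀ z, E z ≤ c1 * A z + c2 * B z + c3 * C z) :
    ∫ z in Qc L, E z ≤ c1 * (∫ z in Qc L, A z) + c2 * (∫ z in Qc L, B z) +
      c3 * ∫ z in Qc L, C z := by
  have i1 : IntegrableOn (fun z => c1 * A z) (Qc L) := int_Qc (continuous_const.mul hA) L
  have i2 : IntegrableOn (fun z => c2 * B z) (Qc L) := int_Qc (continuous_const.mul hB) L
  have i3 : IntegrableOn (fun z => c3 * C z) (Qc L) := int_Qc (continuous_const.mul hC) L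
  have i12 : IntegrableOn (fun z => c1 * A z + c2 * B z) (Qc L) := i1.add i2
  have i123 : IntegrableOn (fun z => c1 * A z + c2 * B z + c3 * C z) (Qc L) := i12.add i3
  rw [← integral_const_mul, ← integral_const_mul, ← integral_const_mul,
    ← integral_add i1 i2, ← integral_add i12 i3]
  exact setIntegral_mono_on (int_Qc hE L) i123 (Qc_compact L).measurableSet
    fun z _ => h z

/-- the weighted square distance of the coefficients -/
def SS (L : ℝ) (μ μ' ν : ℂ → ℂ) : ℝ :=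
  ∫ z in Qc L, ‖mL L μ z - mL L μ' z‖ ^ 2 * ‖1 + aL L ν z‖ ^ 2

theorem en_rec (hρ : 0 < ρ) (hL : 4 * ρ ≤ L) {ν : ℂ → ℂ} (hμ : Adm ρ (1 / 40) μ)
    (hμ' : Adm ρ (1 / 40) μ') (hν : Adm ρ (1 / 40) ν) :
    en L μ μ' ≤ 5 * SS L μ μ' ν + 1 / 50 * en L μ' ν := by
  have hκ1 : (1 / 40 : ℝ) < 1 := by norm_num
  have hac := (aL_smooth hρ hL hμ hκ1).continuous
  have hac' := (aL_smooth hρ hL hμ' hκ1).continuous
  have hacn := (aL_smooth hρ hL hν hκ1).continuous
  have hmc := (mL_smooth hρ hL hμ hκ1).continuous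
  have hmc' := (mL_smooth hρ hL hμ' hκ1).continuous
  have h1 := energyL hρ hL hμ hμ' hκ1
  have h2 := energyL hρ hL hμ' hν hκ1
  set δ := ∫ z in Qc L, ‖aL L μ z - aL L μ' z‖ ^ 2 with hδ
  set δ' := ∫ z in Qc L, ‖aL L μ' z - aL L ν z‖ ^ 2 with hδ'
  have h3 : en L μ μ' ≤ 2 * (1 / 40) ^ 2 * δ + 4 * SS L μ μ' ν + 16 * (1 / 40) ^ 2 * δ' := by
    have k1 : Continuous fun z =>
        ‖mL L μ z * (1 + aL L μ z) - mL L μ' z * (1 + aL L μ' z)‖ ^ 2 :=
      ((hmc.mul (continuous_const.add hac)).sub (hmc'.mul (continuous_const.add hac'))).norm.pow 2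
    have k2 : Continuous fun z => ‖aL L μ z - aL L μ' z‖ ^ 2 := (hac.sub hac').norm.pow 2
    have k3 : Continuous fun z => ‖mL L μ z - mL L μ' z‖ ^ 2 * ‖1 + aL L ν z‖ ^ 2 :=
      ((hmc.sub hmc').norm.pow 2).mul ((continuous_const.add hacn).norm.pow 2)
    have k4 : Continuous fun z => ‖aL L μ' z - aL L ν z‖ ^ 2 := (hac'.sub hacn).norm.pow 2
    refine int3 k1 k2 k3 k4 _ _ _ L fun z => ?_
    have e : mL L μ z * (1 + aL L μ z) - mL L μ' z * (1 + aL L μ' z) =
        mL L μ z * (aL L μ z - aL L μ' z) + ((mL L μ z - mL L μ' z) * (1 + aL L ν z) +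
          (mL L μ z - mL L μ' z) * (aL L μ' z - aL L ν z)) := by ring
    have n1 := norm_mL hρ hL hμ hκ1 z
    have n2 := norm_mL hρ hL hμ' hκ1 z
    have n3 := norm_sub_le (mL L μ z) (mL L μ' z)
    set A := ‖aL L μ z - aL L μ' z‖
    set B := ‖mL L μ z - mL L μ' z‖
    set C := ‖1 + aL L ν z‖
    set F := ‖aL L μ' z - aL L ν z‖
    have h4 : ‖mL L μ z * (1 + aL L μ z) - mL L μ' z * (1 + aL L μ' z)‖ ≤
        1 / 40 * A + (B * C + 1 / 20 * F) := by
      rw [e]
      refine (norm_add_le _ _).trans (add_le_add ?_ ((norm_add_le _ _).trans (add_le_add ?_ ?_)))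
      · rw [norm_mul]
        exact mul_le_mul_of_nonneg_right n1 (norm_nonneg _)
      · rw [norm_mul]
      · rw [norm_mul]
        exact mul_le_mul_of_nonneg_right (by linarith) (norm_nonneg _)
    have hA : 0 ≤ A := norm_nonneg _
    have hB : 0 ≤ B := norm_nonneg _
    have hC : 0 ≤ C := norm_nonneg _
    have hF : 0 ≤ F := norm_nonneg _
    have h5 := pow_le_pow_left₀ (norm_nonneg _) h4 2
    refine h5.trans ?_
    nlinarith [sq_nonneg (1 / 40 * A - (B * C + 1 / 20 * F)), sq_nonneg (B * C - 1 / 20 * F)]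
  have h4 : δ ≤ en L μ μ' := h1
  have h5 : δ' ≤ en L μ' ν := h2
  have h6 : 0 ≤ SS L μ μ' ν := integral_nonneg fun _ => by positivity
  have h7 : 0 ≤ en L μ' ν := integral_nonneg fun _ => by positivity
  nlinarith

theorem en_tri (hρ : 0 < ρ) (hL : 4 * ρ ≤ L) (hμ : Adm ρ (1 / 40) μ)
    (hμ' : Adm ρ (1 / 40) μ') : en L μ μ' ≤ ρ ^ 2 := by
  have hκ1 : (1 / 40 : ℝ) < 1 := by norm_num
  have hac := (aL_smooth hρ hL hμ hκ1).continuous
  have hac' := (aL_smooth hρ hL hμ' hκ1).continuous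
  have hmc := (mL_smooth hρ hL hμ hκ1).continuous
  have hmc' := (mL_smooth hρ hL hμ' hκ1).continuous
  have h1 := (en_a hρ hL hμ hμ le_rfl).2
  have h2 := (en_a hρ hL hμ' hμ' le_rfl).2
  have h3 : en L μ μ' ≤ 2 * en L μ (fun _ => 0) + 2 * en L μ' (fun _ => 0) := by
    unfold en
    simp only [mL_zero, zero_mul, sub_zero]
    have i1 : IntegrableOn (fun z => 2 * ‖mL L μ z * (1 + aL L μ z)‖ ^ 2) (Qc L) :=
      int_Qc (by fun_prop) L
    have i2 : IntegrableOn (fun z => 2 * ‖mL L μ' z * (1 + aL L μ' z)‖ ^ 2) (Qc L) :=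
      int_Qc (by fun_prop) L
    rw [← integral_const_mul, ← integral_const_mul, ← integral_add i1 i2]
    refine setIntegral_mono_on (int_Qc (by fun_prop) L) (i1.add i2)
      (Qc_compact L).measurableSet fun z _ => ?_
    have h4 := norm_sub_le (mL L μ z * (1 + aL L μ z)) (mL L μ' z * (1 + aL L μ' z))
    have h5 := pow_le_pow_left₀ (norm_nonneg _) h4 2
    refine h5.trans ?_
    nlinarith [sq_nonneg (‖mL L μ z * (1 + aL L μ z)‖ - ‖mL L μ' z * (1 + aL L μ' z)‖)]
  nlinarith [sq_nonneg ρ]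

/-- dominated convergence for the coefficients -/
theorem SS_small (hρ : 0 < ρ) (hL : 4 * ρ ≤ L) {m : ℕ → ℂ → ℂ} (hm : ∀ K, Adm ρ (1 / 40) (m K))
    (hev : ∀ z, ∃ N, ∀ K, N ≤ K → m K z = m N z) {ν : ℂ → ℂ} (hν : Adm ρ (1 / 40) ν) {ε : ℝ}
    (hε : 0 < ε) : ∃ N, ∀ K K', N ≤ K → N ≤ K' → SS L (m K) (m K') ν ≤ ε := by
  have hκ1 : (1 / 40 : ℝ) < 1 := by norm_num
  have hacn := (aL_smooth hρ hL hν hκ1).continuous
  choose N hN using hev
  set F : ℂ → ℂ := fun z => mL L (m (N (Ti L (fun i => Int.fract (T L z i))))) z with hF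
  have hFev : ∀ z, ∃ N0, ∀ K, N0 ≤ K → mL L (m K) z = F z := by
    intro z
    refine ⟨N (Ti L (fun i => Int.fract (T L z i))), fun K hK => ?_⟩
    exact hN (Ti L (fun i => Int.fract (T L z i))) K hK
  have hmc : ∀ K, Continuous (mL L (m K)) := fun K => (mL_smooth hρ hL (hm K) hκ1).continuous
  have hFt : ∀ z, Tendsto (fun K => mL L (m K) z) atTop (𝓝 (F z)) := by
    intro z
    obtain ⟨N0, hN0⟩ := hFev z
    exact tendsto_const_nhds.congr' (by
      filter_upwards [eventually_ge_atTop N0] with K hK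
      exact (hN0 K hK).symm)
  have hFm : Measurable F := measurable_of_tendsto_metrizable (fun K => (hmc K).measurable)
    (tendsto_pi_nhds.2 hFt)
  have hFb : ∀ z, ‖F z‖ ≤ 1 / 40 := fun z => norm_mL hρ hL (hm _) hκ1 z
  set b : ℂ → ℝ := fun z => ‖1 + aL L ν z‖ ^ 2 with hb
  have hbc : Continuous b := (continuous_const.add hacn).norm.pow 2
  have hb0 : ∀ z, 0 ≤ b z := fun z => sq_nonneg _
  have hlim : Tendsto (fun K => ∫ z in Qc L, ‖mL L (m K) z - F z‖ ^ 2 * b z) atTop (𝓝 0) := by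
    have h0 : ∫ z in Qc L, (0 : ℝ) = 0 := by simp
    rw [← h0]
    refine tendsto_integral_of_dominated_convergence b ?_ (int_Qc hbc L) ?_ ?_
    · intro K
      exact ((((hmc K).measurable.sub hFm).norm.pow_const 2).mul hbc.measurable).aestronglyMeasurable
    · intro K
      refine Eventually.of_forall fun z => ?_
      rw [norm_mul, norm_pow, norm_norm, Real.norm_of_nonneg (hb0 z)]
      refine mul_le_of_le_one_left (hb0 z) (pow_le_one₀ (norm_nonneg _) ?_)
      have h1 := norm_sub_le (mL L (m K) z) (F z)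
      have h2 := norm_mL hρ hL (hm K) hκ1 (L := L) z
      have h3 := hFb z
      linarith
    · refine Eventually.of_forall fun z => ?_
      obtain ⟨N0, hN0⟩ := hFev z
      refine tendsto_const_nhds.congr' ?_
      filter_upwards [eventually_ge_atTop N0] with K hK
      rw [hN0 K hK, sub_self, norm_zero]
      ring
  obtain ⟨N1, hN1⟩ := eventually_atTop.1 (hlim.eventually (gt_mem_nhds (show (0 : ℝ) < ε / 4 by linarith)))
  refine ⟨N1, fun K K' hK hK' => ?_⟩
  have h1 := hN1 K hK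
  have h2 := hN1 K' hK'
  have hint : ∀ K, IntegrableOn (fun z => ‖mL L (m K) z - F z‖ ^ 2 * b z) (Qc L) := by
    intro K
    refine (int_Qc hbc L).mono' ?_ ?_
    · exact ((((hmc K).measurable.sub hFm).norm.pow_const 2).mul hbc.measurable).aestronglyMeasurable
    · refine Eventually.of_forall fun z => ?_
      rw [norm_mul, norm_pow, norm_norm, Real.norm_of_nonneg (hb0 z)]
      refine mul_le_of_le_one_left (hb0 z) (pow_le_one₀ (norm_nonneg _) ?_)
      have h1 := norm_sub_le (mL L (m K) z) (F z)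
      have h2 := norm_mL hρ hL (hm K) hκ1 (L := L) z
      have h3 := hFb z
      linarith
  have i1 : IntegrableOn (fun z => 2 * (‖mL L (m K) z - F z‖ ^ 2 * b z)) (Qc L) := (hint K).const_mul 2
  have i2 : IntegrableOn (fun z => 2 * (‖mL L (m K') z - F z‖ ^ 2 * b z)) (Qc L) := (hint K').const_mul 2
  have h3 : SS L (m K) (m K') ν ≤ 2 * (∫ z in Qc L, ‖mL L (m K) z - F z‖ ^ 2 * b z) +
      2 * ∫ z in Qc L, ‖mL L (m K') z - F z‖ ^ 2 * b z := by
    rw [← integral_const_mul, ← integral_const_mul, ← integral_add i1 i2]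
    unfold SS
    have hc1 := hmc K
    have hc2 := hmc K'
    refine setIntegral_mono_on (int_Qc (by fun_prop) L) (i1.add i2)
      (Qc_compact L).measurableSet fun z _ => ?_
    have h4 : ‖mL L (m K) z - mL L (m K') z‖ ≤ ‖mL L (m K) z - F z‖ + ‖mL L (m K') z - F z‖ := by
      have := norm_sub_le (mL L (m K) z - F z) (mL L (m K') z - F z)
      rwa [sub_sub_sub_cancel_right] at this
    have h5 := pow_le_pow_left₀ (norm_nonneg _) h4 2
    have h6 : ‖mL L (m K) z - mL L (m K') z‖ ^ 2 ≤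
        2 * ‖mL L (m K) z - F z‖ ^ 2 + 2 * ‖mL L (m K') z - F z‖ ^ 2 := by
      nlinarith [sq_nonneg (‖mL L (m K) z - F z‖ - ‖mL L (m K') z - F z‖)]
    have h7 := mul_le_mul_of_nonneg_right h6 (hb0 z)
    show ‖mL L (m K) z - mL L (m K') z‖ ^ 2 * b z ≤ _
    linarith
  linarith

/-- the Cauchy property -/
theorem en_cauchy (hρ : 0 < ρ) (hL : 4 * ρ ≤ L) {m : ℕ → ℂ → ℂ} (hm : ∀ K, Adm ρ (1 / 40) (m K))
    (hev : ∀ z, ∃ N, ∀ K, N ≤ K → m K z = m N z) {ε : ℝ} (hε : 0 < ε) :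
    ∃ N, ∀ K K', N ≤ K → N ≤ K' → en L (m K) (m K') ≤ ε := by
  have key : ∀ n : ℕ, ∃ N, ∀ K K', N ≤ K → N ≤ K' → en L (m K) (m K') ≤ ρ ^ 2 / 2 ^ n := by
    intro n
    induction n with
    | zero => exact ⟨0, fun K K' _ _ => by
        rw [pow_zero, div_one]
        exact en_tri hρ hL (hm K) (hm K')⟩
    | succ n ih =>
      obtain ⟨N, hN⟩ := ih
      have hp : 0 < ρ ^ 2 / 2 ^ n := by positivity
      obtain ⟨N', hN'⟩ := SS_small hρ hL hm hev (hm N) (ε := ρ ^ 2 / 2 ^ n / 20) (by positivity)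
      refine ⟨max N N', fun K K' hK hK' => ?_⟩
      have h1 := en_rec hρ hL (hm K) (hm K') (hm N)
      have h2 := hN' K K' (le_trans (le_max_right _ _) hK) (le_trans (le_max_right _ _) hK')
      have h3 := hN K' N (le_trans (le_max_left _ _) hK') le_rfl
      have h4 : ρ ^ 2 / 2 ^ (n + 1) = ρ ^ 2 / 2 ^ n / 2 := by
        rw [pow_succ 2 n, div_div]
      rw [h4]
      linarith
  have h1 : Tendsto (fun n : ℕ => ρ ^ 2 / 2 ^ n) atTop (𝓝 0) := by
    have h2 := (tendsto_pow_atTop_nhds_zero_of_lt_one (r := (1 / 2 : ℝ)) (by norm_num)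
      (by norm_num)).const_mul (ρ ^ 2)
    rw [mul_zero] at h2
    refine h2.congr fun n => ?_
    rw [one_div, inv_pow, div_eq_mul_inv]
  obtain ⟨n, hn⟩ := (h1.eventually (gt_mem_nhds hε)).exists
  obtain ⟨N, hN⟩ := key n
  exact ⟨N, fun K K' hK hK' => (hN K K' hK hK').trans hn.le⟩

end Pool.Agent.Helper23S
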