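import Pool.Agent.Helper23S.Est2

/-!
# Solutions which are close in energy are uniformly close
-/

set_option autoImplicit false
set_option linter.unusedSectionVars false

open MeasureTheory Set Filter Topology Metric

noncomputable section

namespace Pool.Agent.Helper23S

open Pool.Agent.Split938 (dbar)

/-- Fubini on a rectangle -/
theorem rect_le {L : ℝ} {F : ℂ → ℝ} (hF : Continuous F) (hF0 : ∀ z, 0 ≤ F z) {a b c d : ℝ}
    (h : ∀ x y : ℝ, x ∈ Ioc a b → y ∈ Ioc c d → (⟨x, y⟩ : ℂ) ∈ Qc L) :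
    ∫ y in Ioc c d, ∫ x in Ioc a b, F ⟨x, y⟩ ≤ ∫ z in Qc L, F z := by
  set S : Set ℂ := {z : ℂ | z.re ∈ Ioc a b ∧ z.im ∈ Ioc c d} with hS
  have hSm : MeasurableSet S :=
    (Complex.measurable_re measurableSet_Ioc).inter (Complex.measurable_im measurableSet_Ioc)
  have hsub : S ⊆ Qc L := fun z hz => h z.re z.im hz.1 hz.2
  have h1 : ∫ z in S, F z ≤ ∫ z in Qc L, F z := by
    refine setIntegral_mono_set ?_ ?_ hsub.eventuallyLE
    · exact hF.continuousOn.integrableOn_compact (Qc_compact L)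
    · exact Eventually.of_forall fun z => hF0 z
  refine le_trans (le_of_eq ?_) h1
  have h2 : ∫ z in S, F z = ∫ p in Ioc a b ×ˢ Ioc c d, F ⟨p.1, p.2⟩ := by
    have h3 := (Complex.volume_preserving_equiv_real_prod.symm).setIntegral_preimage_emb
      Complex.measurableEquivRealProd.symm.measurableEmbedding F S
    rw [← h3]
    rfl
  rw [h2]
  have hcont : Continuous fun p : ℝ × ℝ => F ⟨p.1, p.2⟩ :=
    hF.comp (Complex.equivRealProdCLM.symm.continuous)
  have hint : IntegrableOn (fun p : ℝ × ℝ => F ⟨p.1, p.2⟩) (Ioc a b ×ˢ Ioc c d)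
      (volume.prod volume) := by
    have h4 : IntegrableOn (fun p : ℝ × ℝ => F ⟨p.1, p.2⟩) (Icc a b ×ˢ Icc c d)
        (volume.prod volume) :=
      hcont.continuousOn.integrableOn_compact (isCompact_Icc.prod isCompact_Icc)
    exact h4.mono_set (prod_mono Ioc_subset_Icc_self Ioc_subset_Icc_self)
  rw [Measure.volume_eq_prod, ← setIntegral_prod_swap, setIntegral_prod]
  · rfl
  · exact hint.swap

variable {ρ κ L : ℝ} {μ μ' : ℂ → ℂ}

/-- the main estimate -/
theorem close_est (hρ : 1 ≤ ρ) (hL : 20 * ρ ≤ L) (hμ : Adm ρ (1 / 40) μ) (hμ' : Adm ρ (1 / 40) μ')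
    {N r : ℝ} (hN : 0 < N) (hen : en L μ μ' ≤ N ^ 2) (hr : 0 < r) (hr1 : r < 1) {z0 : ℂ}
    (hz0 : ‖z0‖ ≤ 2 * ρ) :
    ‖ph ρ L μ z0 - ph ρ L μ' z0‖ ≤ 16 * Real.sqrt ((7 + ρ ^ 2 + 1) / Real.log (1 / r)) +
      (12 + 3 * ρ + 2 / r) * N := by
  have hρ0 : 0 < ρ := by linarith
  have hL4 : 4 * ρ ≤ L := by linarith
  have hL8 : 8 * ρ ≤ L := by linarith
  have hκ : (1 / 40 : ℝ) ≤ 1 / 40 := le_rfl
  have hκ1 : (1 / 40 : ℝ) < 1 := by norm_num
  set D : ℂ → ℂ := fun z => ph ρ L μ z - ph ρ L μ' z with hD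
  have hDs : ContDiff ℝ (⊤ : ℕ∞) D := (ph_smooth hρ0 hL4 hμ hκ1).sub (ph_smooth hρ0 hL4 hμ' hκ1)
  have hDd : Differentiable ℝ D := hDs.differentiable (by simp)
  have hDc : Continuous (fderiv ℝ D) := hDs.continuous_fderiv (by simp)
  set om : ℝ := 8 * Real.sqrt ((7 + ρ ^ 2 + 1) / Real.log (1 / r)) with hom
  -- the modulus of continuity
  have hosc : ∀ {ν : ℂ → ℂ}, Adm ρ (1 / 40) ν → ∀ z, dist z z0 ≤ r →
      dist (ph ρ L ν z) (ph ρ L ν z0) ≤ om := by
    intro ν hν z hz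
    obtain ⟨e, he, -⟩ := exists_homeo hρ0 hL8 hν hκ
    have hes : ContDiff ℝ 1 e := by
      rw [he]
      exact (ph_smooth hρ0 hL4 hν hκ1).of_le (by exact_mod_cast le_top)
    have h1 := equi e hes z0 hr hr1 (E := 7 + ρ ^ 2) (by
      rw [he]
      exact ph_energy hρ0 hL8 hν hκ (by linarith)) z hz
    rwa [he] at h1
  have hoscD : ∀ z, dist z z0 ≤ r → ‖D z0‖ ≤ ‖D z‖ + 2 * om := by
    intro z hz
    have h1 := hosc hμ z hz
    have h2 := hosc hμ' z hz
    rw [dist_eq_norm] at h1 h2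
    have h3 : D z0 = D z - (ph ρ L μ z - ph ρ L μ z0) + (ph ρ L μ' z - ph ρ L μ' z0) := by
      rw [hD]
      ring
    rw [h3]
    refine (norm_add_le _ _).trans ?_
    have := norm_sub_le (D z) (ph ρ L μ z - ph ρ L μ z0)
    linarith
  -- the energy of the difference
  have hη := energyL hρ0 hL4 hμ hμ' hκ1
  have hη' : ∫ z in Qc L, ‖aL L μ z - aL L μ' z‖ ^ 2 ≤ N ^ 2 := hη.trans hen
  have hline : ∀ w : ℂ, 2 * ρ ≤ ‖w‖ → ‖w‖ ≤ 5 * ρ → ‖D w‖ ≤ 10 * N := by
    intro w hw hw'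
    have h1 := ph_bound hρ0 hL4 hμ hμ' hN.le hη' hw (by linarith)
    refine h1.trans ?_
    have h2 : 2 * N / ρ * ‖w‖ ≤ 2 * N / ρ * (5 * ρ) := by gcongr
    refine h2.trans (le_of_eq ?_)
    field_simp
    ring
  have hac := (aL_smooth hρ0 hL4 hμ hκ1).continuous
  have hac' := (aL_smooth hρ0 hL4 hμ' hκ1).continuous
  have hmc := (mL_smooth hρ0 hL4 hμ hκ1).continuous
  have hmc' := (mL_smooth hρ0 hL4 hμ' hκ1).continuous
  set G : ℂ → ℝ := fun z => ‖aL L μ z - aL L μ' z‖ ^ 2 with hG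
  set W : ℂ → ℝ := fun z =>
    ‖mL L μ z * (1 + aL L μ z) - mL L μ' z * (1 + aL L μ' z)‖ ^ 2 with hW
  have hGc : Continuous G := (hac.sub hac').norm.pow 2
  have hWc : Continuous W := ((hmc.mul (continuous_const.add hac)).sub
    (hmc'.mul (continuous_const.add hac'))).norm.pow 2
  -- the derivative in the direction `1`
  have hder : ∀ z, ‖fderiv ℝ D z 1‖ ≤ N / 2 + N⁻¹ * (G z + W z) := by
    intro z
    have e : fderiv ℝ D z = fderiv ℝ (ph ρ L μ) z - fderiv ℝ (ph ρ L μ') z :=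
      fderiv_sub ((ph_smooth hρ0 hL4 hμ hκ1).differentiable (by simp) z)
        ((ph_smooth hρ0 hL4 hμ' hκ1).differentiable (by simp) z)
    have e2 : fderiv ℝ D z 1 = (aL L μ z - aL L μ' z) +
        (mL L μ z * (1 + aL L μ z) - mL L μ' z * (1 + aL L μ' z)) := by
      rw [e, _root_.sub_apply, ph_apply hρ0 hL4 hμ hκ1, ph_apply hρ0 hL4 hμ' hκ1]
      simp only [map_one, mul_one]
      ring
    rw [e2]
    refine (norm_add_le _ _).trans ?_
    set x := ‖aL L μ z - aL L μ' z‖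
    set y := ‖mL L μ z * (1 + aL L μ z) - mL L μ' z * (1 + aL L μ' z)‖
    have h1 : x + y = N / 2 + N⁻¹ * (x ^ 2 + y ^ 2) - N⁻¹ * ((N / 2 - x) ^ 2 + (N / 2 - y) ^ 2) := by
      field_simp
      ring
    have h2 : 0 ≤ N⁻¹ * ((N / 2 - x) ^ 2 + (N / 2 - y) ^ 2) := by positivity
    show x + y ≤ N / 2 + N⁻¹ * (x ^ 2 + y ^ 2)
    linarith
  have hre := (abs_le.1 (Complex.abs_re_le_norm z0))
  have him := (abs_le.1 (Complex.abs_im_le_norm z0))
  -- estimate on horizontal lines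
  have hhor : ∀ y ∈ Ioc (z0.im - r) (z0.im + r), ‖D z0‖ ≤ (2 * om + 10 * N + 5 * ρ * (N / 2)) +
      N⁻¹ * ∫ x in Ioc (-(3 * ρ)) z0.re, (G ⟨x, y⟩ + W ⟨x, y⟩) := by
    intro y hy
    have h1 := hoscD ⟨z0.re, y⟩ (by
      rw [Complex.dist_of_re_eq (by rfl), Real.dist_eq, abs_le]
      constructor <;> [linarith [hy.1]; linarith [hy.2]])
    have h2 : ‖D ⟨z0.re, y⟩‖ ≤ ‖D ⟨-(3 * ρ), y⟩‖ + ‖D ⟨z0.re, y⟩ - D ⟨-(3 * ρ), y⟩‖ := by
      have := norm_add_le (D ⟨-(3 * ρ), y⟩) (D ⟨z0.re, y⟩ - D ⟨-(3 * ρ), y⟩)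
      rwa [add_sub_cancel] at this
    have hy2 : |y| ≤ 3 * ρ := by
      rw [abs_le]
      constructor <;> [linarith [hy.1, him.1]; linarith [hy.2, him.2]]
    have h3 := hline ⟨-(3 * ρ), y⟩ (by
      refine le_trans ?_ (Complex.abs_re_le_norm _)
      show 2 * ρ ≤ |-(3 * ρ)|
      rw [abs_neg, abs_of_pos (by linarith)]
      linarith) (by
      rw [Complex.norm_def, Complex.normSq_mk, Real.sqrt_le_left (by linarith)]
      nlinarith [sq_abs y, abs_nonneg y])
    have hγ : ∀ x : ℝ, HasDerivAt (fun x : ℝ => D ⟨x, y⟩) (fderiv ℝ D ⟨x, y⟩ 1) x := by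
      intro x
      have h4 : HasDerivAt (fun x : ℝ => (⟨x, y⟩ : ℂ)) 1 x := by
        have h5 : (fun x : ℝ => (⟨x, y⟩ : ℂ)) = fun x : ℝ => (x : ℂ) + (y : ℂ) * Complex.I := by
          funext x
          apply Complex.ext <;> simp
        rw [h5]
        exact (Complex.ofRealCLM.hasDerivAt (x := x)).add_const _
      exact (hDd _).hasFDerivAt.comp_hasDerivAt x h4
    have hγc : Continuous fun x : ℝ => (⟨x, y⟩ : ℂ) := by
      have h5 : (fun x : ℝ => (⟨x, y⟩ : ℂ)) = fun x : ℝ => (x : ℂ) + (y : ℂ) * Complex.I := by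
        funext x
        apply Complex.ext <;> simp
      rw [h5]
      fun_prop
    have hcont : Continuous fun x : ℝ => fderiv ℝ D ⟨x, y⟩ 1 :=
      (hDc.comp hγc).clm_apply continuous_const
    have hab : -(3 * ρ) ≤ z0.re := by linarith [hre.1]
    have h4 : D ⟨z0.re, y⟩ - D ⟨-(3 * ρ), y⟩ = ∫ x in (-(3 * ρ))..z0.re, fderiv ℝ D ⟨x, y⟩ 1 :=
      (intervalIntegral.integral_eq_sub_of_hasDerivAt (fun x _ => hγ x)
        (hcont.intervalIntegrable _ _)).symm
    have h5 : ‖D ⟨z0.re, y⟩ - D ⟨-(3 * ρ), y⟩‖ ≤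
        ∫ x in Ioc (-(3 * ρ)) z0.re, (N / 2 + N⁻¹ * (G ⟨x, y⟩ + W ⟨x, y⟩)) := by
      rw [h4, intervalIntegral.integral_of_le hab]
      refine (norm_integral_le_integral_norm _).trans ?_
      refine setIntegral_mono_on ?_ ?_ measurableSet_Ioc fun x _ => hder _
      · exact (hcont.norm.continuousOn.integrableOn_compact isCompact_Icc).mono_set
          Ioc_subset_Icc_self
      · have : Continuous fun x : ℝ => N / 2 + N⁻¹ * (G ⟨x, y⟩ + W ⟨x, y⟩) :=
          continuous_const.add (continuous_const.mul ((hGc.comp hγc).add (hWc.comp hγc)))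
        exact (this.continuousOn.integrableOn_compact isCompact_Icc).mono_set
          Ioc_subset_Icc_self
    have h6 : ∫ x in Ioc (-(3 * ρ)) z0.re, (N / 2 + N⁻¹ * (G ⟨x, y⟩ + W ⟨x, y⟩)) =
        (z0.re + 3 * ρ) * (N / 2) + N⁻¹ * ∫ x in Ioc (-(3 * ρ)) z0.re, (G ⟨x, y⟩ + W ⟨x, y⟩) := by
      have i1 : IntegrableOn (fun _ : ℝ => N / 2) (Ioc (-(3 * ρ)) z0.re) :=
        (continuousOn_const.integrableOn_compact isCompact_Icc).mono_set Ioc_subset_Icc_self
      have i2 : IntegrableOn (fun x : ℝ => N⁻¹ * (G ⟨x, y⟩ + W ⟨x, y⟩)) (Ioc (-(3 * ρ)) z0.re) := by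
        have : Continuous fun x : ℝ => N⁻¹ * (G ⟨x, y⟩ + W ⟨x, y⟩) :=
          continuous_const.mul ((hGc.comp hγc).add (hWc.comp hγc))
        exact (this.continuousOn.integrableOn_compact isCompact_Icc).mono_set
          Ioc_subset_Icc_self
      rw [integral_add i1 i2, integral_const_mul, setIntegral_const, Real.volume_real_Ioc_of_le hab,
        smul_eq_mul]
      ring
    rw [h6] at h5
    have h7 : (z0.re + 3 * ρ) * (N / 2) ≤ 5 * ρ * (N / 2) := by
      refine mul_le_mul_of_nonneg_right ?_ (by linarith)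
      linarith [hre.2]
    linarith
  -- integrate
  have hG0 : ∀ z, 0 ≤ G z + W z := fun z => add_nonneg (sq_nonneg _) (sq_nonneg _)
  have hfub := rect_le (L := L) (F := fun z => G z + W z) (hGc.add hWc) hG0
    (a := -(3 * ρ)) (b := z0.re) (c := z0.im - r) (d := z0.im + r) (fun x y hx hy => by
      refine ⟨?_, ?_⟩
      · show |x| ≤ L / 2
        rw [abs_le]
        constructor <;> [linarith [hx.1]; linarith [hx.2, hre.2]]
      · show |y| ≤ L / 2
        rw [abs_le]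
        constructor <;> [linarith [hy.1, him.1]; linarith [hy.2, him.2]])
  have hGW : ∫ z in Qc L, (G z + W z) ≤ 2 * N ^ 2 := by
    have i1 : IntegrableOn G (Qc L) := hGc.continuousOn.integrableOn_compact (Qc_compact L)
    have i2 : IntegrableOn W (Qc L) := hWc.continuousOn.integrableOn_compact (Qc_compact L)
    rw [integral_add i1 i2]
    have : ∫ z in Qc L, W z ≤ N ^ 2 := hen
    linarith
  have hcy : Continuous fun y : ℝ => ∫ x in Ioc (-(3 * ρ)) z0.re, (G ⟨x, y⟩ + W ⟨x, y⟩) := by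
    have : (fun y : ℝ => ∫ x in Ioc (-(3 * ρ)) z0.re, (G ⟨x, y⟩ + W ⟨x, y⟩)) =
        fun y : ℝ => ∫ x in (-(3 * ρ))..z0.re, (G ⟨x, y⟩ + W ⟨x, y⟩) := by
      funext y
      rw [intervalIntegral.integral_of_le (by linarith [hre.1])]
    rw [this]
    apply intervalIntegral.continuous_parametric_intervalIntegral_of_continuous'
    exact (hGc.add hWc).comp (Complex.equivRealProdCLM.symm.continuous.comp continuous_swap)
  set C1 : ℝ := 2 * om + 10 * N + 5 * ρ * (N / 2) with hC1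
  have hint : 2 * r * ‖D z0‖ ≤ 2 * r * C1 + N⁻¹ * (2 * N ^ 2) := by
    have h1 : ∫ y in Ioc (z0.im - r) (z0.im + r), ‖D z0‖ ≤
        ∫ y in Ioc (z0.im - r) (z0.im + r),
          (C1 + N⁻¹ * ∫ x in Ioc (-(3 * ρ)) z0.re, (G ⟨x, y⟩ + W ⟨x, y⟩)) := by
      refine setIntegral_mono_on ?_ ?_ measurableSet_Ioc hhor
      · exact (continuousOn_const.integrableOn_compact isCompact_Icc).mono_set Ioc_subset_Icc_self
      · exact ((continuous_const.add (continuous_const.mul hcy)).continuousOn.integrableOn_compact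
          isCompact_Icc).mono_set Ioc_subset_Icc_self
    have i1 : IntegrableOn (fun _ : ℝ => C1) (Ioc (z0.im - r) (z0.im + r)) :=
      (continuousOn_const.integrableOn_compact isCompact_Icc).mono_set Ioc_subset_Icc_self
    have i2 : IntegrableOn (fun y : ℝ => N⁻¹ * ∫ x in Ioc (-(3 * ρ)) z0.re, (G ⟨x, y⟩ + W ⟨x, y⟩))
        (Ioc (z0.im - r) (z0.im + r)) :=
      ((continuous_const.mul hcy).continuousOn.integrableOn_compact
          isCompact_Icc).mono_set Ioc_subset_Icc_self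
    rw [integral_add i1 i2, integral_const_mul, setIntegral_const, setIntegral_const,
      Real.volume_real_Ioc_of_le (by linarith), smul_eq_mul, smul_eq_mul] at h1
    have e : z0.im + r - (z0.im - r) = 2 * r := by ring
    rw [e] at h1
    refine h1.trans ?_
    have h2 : N⁻¹ * ∫ y in Ioc (z0.im - r) (z0.im + r),
        ∫ x in Ioc (-(3 * ρ)) z0.re, (G ⟨x, y⟩ + W ⟨x, y⟩) ≤ N⁻¹ * (2 * N ^ 2) :=
      mul_le_mul_of_nonneg_left (hfub.trans hGW) (by positivity)
    linarith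
  have h1 : N⁻¹ * (2 * N ^ 2) = 2 * N := by field_simp
  rw [h1] at hint
  have h2 : ‖D z0‖ ≤ C1 + N / r := by
    have h3 : 2 * r * ‖D z0‖ ≤ 2 * r * (C1 + N / r) := by
      have : 2 * r * (C1 + N / r) = 2 * r * C1 + 2 * N := by field_simp
      rw [this]
      exact hint
    exact le_of_mul_le_mul_left h3 (by linarith)
  have h3 : (12 + 3 * ρ + 2 / r) * N = 12 * N + 3 * ρ * N + 2 * (N / r) := by
    field_simp
  rw [h3]
  have h4 : 0 ≤ N / r := by positivity
  have h5 : 0 ≤ ρ * N := by positivity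
  have h6 : 16 * Real.sqrt ((7 + ρ ^ 2 + 1) / Real.log (1 / r)) = 2 * om := by rw [hom]; ring
  rw [h6]
  have h7 : ‖D z0‖ = ‖ph ρ L μ z0 - ph ρ L μ' z0‖ := rfl
  rw [← h7]
  linarith

/-- solutions which are close in energy are close on compact sets, uniformly in the period -/
theorem close (hρ : 1 ≤ ρ) {ε M : ℝ} (hε : 0 < ε) (hM : 2 * ρ ≤ M) :
    ∃ N : ℝ, 0 < N ∧ ∀ L, 20 * ρ ≤ L → 4 * M ≤ L → ∀ μ μ', Adm ρ (1 / 40) μ → Adm ρ (1 / 40) μ' →
      en L μ μ' ≤ N ^ 2 → ∀ z, ‖z‖ ≤ M → ‖ph ρ L μ z - ph ρ L μ' z‖ ≤ ε := by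
  obtain ⟨r, hr, hr1, h1⟩ := om_small (7 + ρ ^ 2) (by positivity) (ε := ε / 4) (by linarith)
  set C : ℝ := 12 + 3 * ρ + 2 / r + 2 * M / ρ with hC
  have hρ0 : 0 < ρ := by linarith
  have hM0 : 0 < M := by linarith
  have hC0 : 0 < C := by positivity
  refine ⟨ε / (2 * C), by positivity, fun L hL hLM μ μ' hμ hμ' hen z hz => ?_⟩
  set N := ε / (2 * C) with hN
  have hN0 : 0 < N := by positivity
  have hCN : C * N = ε / 2 := by rw [hN]; field_simp
  have hκ1 : (1 / 40 : ℝ) < 1 := by norm_num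
  rcases le_total ‖z‖ (2 * ρ) with h | h
  · refine (close_est hρ hL hμ hμ' hN0 hen hr hr1 h).trans ?_
    have h2 : (12 + 3 * ρ + 2 / r) * N ≤ C * N := by
      refine mul_le_mul_of_nonneg_right ?_ hN0.le
      rw [hC]
      have : 0 ≤ 2 * M / ρ := by positivity
      linarith
    linarith
  · have hL4 : 4 * ρ ≤ L := by linarith
    have hη := energyL hρ0 hL4 hμ hμ' hκ1
    have h2 := ph_bound hρ0 hL4 hμ hμ' hN0.le (hη.trans hen) h (by linarith)
    refine h2.trans ?_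
    have h3 : 2 * N / ρ * ‖z‖ ≤ 2 * N / ρ * M := by gcongr
    have h4 : 2 * N / ρ * M = (2 * M / ρ) * N := by ring
    have h5 : (2 * M / ρ) * N ≤ C * N := by
      refine mul_le_mul_of_nonneg_right ?_ hN0.le
      rw [hC]
      have : 0 ≤ 2 / r := by positivity
      linarith
    linarith

end Pool.Agent.Helper23S
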