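import Pool.Agent.Helper23S.Pull
import Pool.Agent.H353R2.An2

/-!
# Interpolation between a holomorphic function near the filled Julia set and a polynomial
-/

set_option autoImplicit false
set_option linter.unusedSectionVars false

open MeasureTheory Set Filter Topology Metric

noncomputable section

namespace Pool.Agent.Helper23S

open Pool.Agent.Split938 (dbar)

/-- the derivative of the smooth transition function is bounded -/
theorem trans_bound : ∃ C : ℝ, 0 < C ∧ ∀ x, |deriv Real.smoothTransition x| ≤ C := by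
  have hc : Continuous (deriv Real.smoothTransition) :=
    (Real.smoothTransition.contDiff (n := 1)).continuous_deriv le_rfl
  obtain ⟨C, hC⟩ := (isCompact_Icc (a := (-1 : ℝ)) (b := 2)).exists_bound_of_continuousOn
    hc.continuousOn
  have hC0 : 0 ≤ C := (norm_nonneg _).trans (hC 0 ⟨by norm_num, by norm_num⟩)
  refine ⟨C + 1, by linarith, fun x => ?_⟩
  by_cases hx : x ∈ Icc (-1 : ℝ) 2
  · have := hC x hx
    rw [Real.norm_eq_abs] at this
    linarith
  · have h0 : deriv Real.smoothTransition x = 0 := by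
      rw [mem_Icc, not_and_or, not_le, not_le] at hx
      rcases hx with hx | hx
      · have h1 : Real.smoothTransition =ᶠ[𝓝 x] fun _ => 0 := by
          filter_upwards [gt_mem_nhds (show x < 0 by linarith)] with y hy
          exact Real.smoothTransition.zero_of_nonpos (le_of_lt hy)
        rw [h1.deriv_eq, deriv_const]
      · have h1 : Real.smoothTransition =ᶠ[𝓝 x] fun _ => 1 := by
          filter_upwards [lt_mem_nhds (show 1 < x by linarith)] with y hy
          exact Real.smoothTransition.one_of_one_le (le_of_lt hy)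
        rw [h1.deriv_eq, deriv_const]
    rw [h0, abs_zero]
    linarith

/-- the cutoff function -/
def cu (s t : ℝ) (z : ℂ) : ℝ := Real.smoothTransition ((t ^ 2 - ‖z‖ ^ 2) / (t ^ 2 - s ^ 2))

theorem cu_smooth (s t : ℝ) : ContDiff ℝ (⊤ : ℕ∞) (cu s t) := by
  refine Real.smoothTransition.contDiff.comp ?_
  exact (contDiff_const.sub (contDiff_norm_sq ℝ)).div_const _

theorem cu_one {s t : ℝ} (hs : 0 < s) (hst : s < t) {z : ℂ} (hz : ‖z‖ ≤ s) : cu s t z = 1 := by
  apply Real.smoothTransition.one_of_one_le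
  have h1 : 0 < t ^ 2 - s ^ 2 := by nlinarith
  rw [le_div_iff₀ h1]
  nlinarith [norm_nonneg z]

theorem cu_zero {s t : ℝ} (hs : 0 < s) (hst : s < t) {z : ℂ} (hz : t ≤ ‖z‖) : cu s t z = 0 := by
  apply Real.smoothTransition.zero_of_nonpos
  have h1 : 0 < t ^ 2 - s ^ 2 := by nlinarith
  apply div_nonpos_of_nonpos_of_nonneg
  · nlinarith [norm_nonneg z]
  · exact h1.le

theorem cu_mem {s t : ℝ} (z : ℂ) : 0 ≤ cu s t z ∧ cu s t z ≤ 1 :=
  ⟨Real.smoothTransition.nonneg _, Real.smoothTransition.le_one _⟩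

theorem cu_fderiv {s t C : ℝ} (hC : ∀ x, |deriv Real.smoothTransition x| ≤ C) (hs : 0 < s)
    (hst : s < t) (z v : ℂ) : |fderiv ℝ (cu s t) z v| ≤ C * (2 * ‖z‖ / (t ^ 2 - s ^ 2)) * ‖v‖ := by
  have h1 : 0 < t ^ 2 - s ^ 2 := by nlinarith
  have h2 : HasFDerivAt (fun z : ℂ => (t ^ 2 - ‖z‖ ^ 2) / (t ^ 2 - s ^ 2))
      ((t ^ 2 - s ^ 2)⁻¹ • (-(2 • (innerSL ℝ z))) : ℂ →L[ℝ] ℝ) z := by
    have h3 : HasFDerivAt (fun z : ℂ => ‖z‖ ^ 2) (2 • (innerSL ℝ z)) z :=
      (hasStrictFDerivAt_norm_sq z).hasFDerivAt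
    have h4 := (h3.const_sub (t ^ 2)).const_mul (t ^ 2 - s ^ 2)⁻¹
    refine h4.congr_of_eventuallyEq (Eventually.of_forall fun w => ?_)
    simp only
    rw [div_eq_inv_mul]
  have h3 : HasDerivAt Real.smoothTransition (deriv Real.smoothTransition
      ((t ^ 2 - ‖z‖ ^ 2) / (t ^ 2 - s ^ 2))) ((t ^ 2 - ‖z‖ ^ 2) / (t ^ 2 - s ^ 2)) :=
    ((Real.smoothTransition.contDiff (n := 1)).differentiable (by simp) _).hasDerivAt
  have h4 := h3.comp_hasFDerivAt z h2
  have h5 : fderiv ℝ (cu s t) z = _ := h4.fderiv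
  rw [h5]
  have h6 := hC ((t ^ 2 - ‖z‖ ^ 2) / (t ^ 2 - s ^ 2))
  have h7 : |inner ℝ z v| ≤ ‖z‖ * ‖v‖ := abs_real_inner_le_norm z v
  have h8 : (deriv Real.smoothTransition ((t ^ 2 - ‖z‖ ^ 2) / (t ^ 2 - s ^ 2)) •
      ((t ^ 2 - s ^ 2)⁻¹ • (-(2 • (innerSL ℝ z))) : ℂ →L[ℝ] ℝ)) v =
      deriv Real.smoothTransition ((t ^ 2 - ‖z‖ ^ 2) / (t ^ 2 - s ^ 2)) *
        ((t ^ 2 - s ^ 2)⁻¹ * (-(2 * inner ℝ z v))) := by
    simp
    left; left; ring
  rw [h8, abs_mul, abs_mul, abs_neg, abs_mul, abs_two, abs_of_pos (inv_pos.2 h1)]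
  have hC0 : 0 ≤ C := (abs_nonneg _).trans h6
  calc |deriv Real.smoothTransition ((t ^ 2 - ‖z‖ ^ 2) / (t ^ 2 - s ^ 2))| *
        ((t ^ 2 - s ^ 2)⁻¹ * (2 * |inner ℝ z v|))
      ≤ C * ((t ^ 2 - s ^ 2)⁻¹ * (2 * (‖z‖ * ‖v‖))) := by
        refine mul_le_mul h6 ?_ (by positivity) hC0
        exact mul_le_mul_of_nonneg_left (by linarith) (inv_pos.2 h1).le
    _ = _ := by field_simp

/-! ### Holomorphic functions -/

theorem hol_fderiv {F : ℂ → ℂ} {F' z : ℂ} (h : HasDerivAt F F' z) (v : ℂ) :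
    fderiv ℝ F z v = F' * v := by
  have h1 := h.hasFDerivAt.restrictScalars ℝ
  rw [h1.fderiv]
  simp [mul_comm]

theorem hol_dd {F : ℂ → ℂ} {F' z : ℂ} (h : HasDerivAt F F' z) : dd F z = F' := by
  unfold dd Pool.Agent.Split938.dz
  rw [hol_fderiv h, hol_fderiv h]
  linear_combination (-F' / 2) * Complex.I_sq

theorem hol_dbar {F : ℂ → ℂ} {F' z : ℂ} (h : HasDerivAt F F' z) : dbar F z = 0 := by
  unfold dbar
  rw [hol_fderiv h, hol_fderiv h]
  linear_combination (F' / 2) * Complex.I_sq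

theorem dd_congr {F H : ℂ → ℂ} {z : ℂ} (h : F =ᶠ[𝓝 z] H) : dd F z = dd H z := by
  unfold dd Pool.Agent.Split938.dz
  rw [h.fderiv_eq]

theorem dbar_congr {F H : ℂ → ℂ} {z : ℂ} (h : F =ᶠ[𝓝 z] H) : dbar F z = dbar H z := by
  unfold dbar
  rw [h.fderiv_eq]

/-- the model: expanding outside the disc of radius `R` -/
structure PolyLike (R : ℝ) (f : ℂ → ℂ) : Prop where
  hol : Differentiable ℂ f
  R1 : 1 ≤ R
  big : ∀ z, R ≤ ‖z‖ → 3 * ‖z‖ ≤ ‖f z‖
  der : ∀ z, R ≤ ‖z‖ → 1 ≤ ‖deriv f z‖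

section

variable {R : ℝ} {f : ℂ → ℂ}

theorem deriv_close (hf : PolyLike R f) {g : ℂ → ℂ} (hg : DifferentiableOn ℂ g (ball 0 (3 * R)))
    {δ : ℝ} (h : ∀ z ∈ ball (0 : ℂ) (3 * R), ‖g z - f z‖ ≤ δ) {z : ℂ} (hz : ‖z‖ ≤ 2 * R) :
    ‖deriv g z - deriv f z‖ ≤ 2 * δ := by
  have hR := hf.R1
  have hsub : closedBall z (R / 2) ⊆ ball 0 (3 * R) := by
    intro w hw
    rw [mem_closedBall, dist_eq_norm] at hw
    rw [mem_ball_zero_iff]
    have := norm_sub_norm_le w z
    linarith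
  have hd : DifferentiableOn ℂ (fun w => g w - f w) (ball 0 (3 * R)) :=
    hg.sub hf.hol.differentiableOn
  have h1 := Complex.norm_deriv_le_of_forall_mem_sphere_norm_le (c := z) (R := R / 2) (C := δ)
    (f := fun w => g w - f w) (by linarith) ((hd.mono hsub).diffContOnCl_ball subset_rfl)
    (fun w hw => h w (hsub (sphere_subset_closedBall hw)))
  have hzm : z ∈ ball (0 : ℂ) (3 * R) := hsub (mem_closedBall_self (by linarith))
  have h2 : deriv (fun w => g w - f w) z = deriv g z - deriv f z :=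
    deriv_sub (hg.differentiableAt (isOpen_ball.mem_nhds hzm)) (hf.hol z)
  rw [h2] at h1
  have hδ : 0 ≤ δ := (norm_nonneg _).trans (h z hzm)
  refine h1.trans ?_
  rw [div_le_iff₀ (by linarith)]
  nlinarith

/-- a uniform bound for the number of critical points -/
theorem count (hf : PolyLike R f) : ∃ N0 : ℕ, ∃ δ0 > 0, ∀ g : ℂ → ℂ,
    DifferentiableOn ℂ g (ball 0 (3 * R)) → (∀ z ∈ ball (0 : ℂ) (3 * R), ‖g z - f z‖ ≤ δ0) →
      ∀ S : Finset ℂ, (∀ c ∈ S, ‖c‖ < R ∧ deriv g c = 0) → S.card ≤ N0 := by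
  have hR := hf.R1
  have hfd : Differentiable ℂ (deriv f) := fun z =>
    ((hf.hol.differentiableOn (s := univ)).deriv isOpen_univ z (mem_univ z)).differentiableAt
      univ_mem
  obtain ⟨c0, hc0, hne⟩ : ∃ c0, ‖c0‖ < R / 10 ∧ deriv f c0 ≠ 0 := by
    by_contra hc
    push Not at hc
    have h1 : deriv f =ᶠ[𝓝 0] fun _ => 0 := by
      filter_upwards [isOpen_ball.mem_nhds (mem_ball_self (show 0 < R / 10 by linarith))] with c hc'
      exact hc c (mem_ball_zero_iff.1 hc')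
    have h0 : AnalyticOnNhd ℂ (deriv f) univ := fun z _ => hfd.analyticAt z
    have h0' : AnalyticOnNhd ℂ (fun _ : ℂ => (0 : ℂ)) univ := fun _ _ => analyticAt_const
    have h2 := h0.eqOn_of_preconnected_of_eventuallyEq h0' isPreconnected_univ (mem_univ 0) h1
    have h3 := h2 (mem_univ (R : ℂ))
    have h4 := hf.der (R : ℂ) (by rw [Complex.norm_real, Real.norm_eq_abs, abs_of_pos (by linarith)])
    simp only [h3, norm_zero] at h4
    linarith
  obtain ⟨M1, hM1⟩ := (isCompact_closedBall (0 : ℂ) (2 * R)).exists_bound_of_continuousOn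
    hfd.continuous.continuousOn
  set b := ‖deriv f c0‖ / 2 with hb
  have hb0 : 0 < b := by have := norm_pos_iff.2 hne; positivity
  obtain ⟨N0, hN0⟩ := pow_unbounded_of_one_lt ((M1 + 1) / b) (show (1 : ℝ) < 3 / 2 by norm_num)
  refine ⟨N0, min (1 / 2) (b / 2), lt_min (by norm_num) (by positivity), fun g hg hgf S hS => ?_⟩
  by_contra hcard
  push Not at hcard
  have hg' : DifferentiableOn ℂ (deriv g) (ball 0 (3 * R)) := hg.deriv isOpen_ball
  have hcb := H353.count_bound (ball 0 (3 * R)) isOpen_ball (deriv g) hg' c0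
    (11 / 10 * R) (19 / 10 * R) (M1 + 1) (by linarith) (by linarith)
    (by
      intro w hw
      rw [mem_closedBall, dist_eq_norm] at hw
      rw [mem_ball_zero_iff]
      have := norm_sub_norm_le w c0
      linarith)
    (by
      intro v hv
      rw [mem_sphere, dist_eq_norm] at hv
      have h1 := norm_sub_norm_le v c0
      have hv2 : ‖v‖ ≤ 2 * R := by linarith
      have h2 := deriv_close hf hg hgf hv2
      have h3 := hM1 v (mem_closedBall_zero_iff.2 hv2)
      have h4 := norm_sub_norm_le (deriv g v) (deriv f v)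
      have h5 : min (1 / 2) (b / 2) ≤ 1 / 2 := min_le_left _ _
      linarith)
    S (fun _ => 1)
    (by
      intro c hc
      rw [mem_closedBall, dist_eq_norm]
      have := norm_sub_le c c0
      linarith [(hS c hc).1])
    (by
      intro c hc
      have hcm : c ∈ ball (0 : ℂ) (3 * R) := mem_ball_zero_iff.2 (by linarith [(hS c hc).1])
      have han : AnalyticAt ℂ (deriv g) c := hg'.analyticAt (isOpen_ball.mem_nhds hcm)
      have h1 : analyticOrderAt (deriv g) c ≠ 0 := han.analyticOrderAt_ne_zero.2 (hS c hc).2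
      exact_mod_cast Order.one_le_iff_ne_zero.2 h1)
  have h1 : b ≤ ‖deriv g c0‖ := by
    have h2 := deriv_close hf hg hgf (z := c0) (by linarith)
    have h3 := norm_sub_norm_le (deriv f c0) (deriv g c0)
    rw [norm_sub_rev] at h3
    have h4 : min (1 / 2) (b / 2) ≤ b / 2 := min_le_right _ _
    have h5 : ‖deriv f c0‖ = 2 * b := by rw [hb]; ring
    linarith
  have h2 : (19 / 10 * R) / (11 / 10 * R) = 19 / 11 := by
    have : R ≠ 0 := by linarith
    field_simp
  rw [h2, Finset.sum_const, smul_eq_mul, mul_one] at hcb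
  have h3 : (3 / 2 : ℝ) ^ N0 ≤ (19 / 11) ^ S.card :=
    calc (3 / 2 : ℝ) ^ N0 ≤ (3 / 2) ^ S.card := pow_le_pow_right₀ (by norm_num) hcard.le
      _ ≤ _ := pow_le_pow_left₀ (by norm_num) (by norm_num) _
  rw [div_lt_iff₀ hb0] at hN0
  have h4 : b * (3 / 2 : ℝ) ^ N0 ≤ ‖deriv g c0‖ * (19 / 11) ^ S.card :=
    mul_le_mul h1 h3 (by positivity) (norm_nonneg _)
  linarith

end

end Pool.Agent.Helper23S
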