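import Pool.Agent.Helper23S.Cut

/-!
# Interpolation between a holomorphic function near the filled Julia set and a polynomial, part two
-/

set_option autoImplicit false
set_option linter.unusedSectionVars false

open MeasureTheory Set Filter Topology Metric

noncomputable section

namespace Pool.Agent.Helper23S

open Pool.Agent.Split938 (dbar)

/-- the modulus of the first point of the orbit outside the disc of radius `R` -/
def ent (R : ℝ) (g : ℂ → ℂ) (c : ℂ) : ℝ :=
  open Classical in if h : ∃ j : ℕ, R ≤ ‖g^[j] c‖ then ‖g^[Nat.find h] c‖ else 0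

/-- the interpolation -/
def itp (s t : ℝ) (f g : ℂ → ℂ) (z : ℂ) : ℂ := f z + (cu s t z : ℂ) * (g z - f z)

section

variable {R s t : ℝ} {f g : ℂ → ℂ}

theorem itp_in (hs : 0 < s) (hst : s < t) {z : ℂ} (hz : ‖z‖ ≤ s) : itp s t f g z = g z := by
  unfold itp
  rw [cu_one hs hst hz]
  push_cast
  ring

theorem itp_out (hs : 0 < s) (hst : s < t) {z : ℂ} (hz : t ≤ ‖z‖) : itp s t f g z = f z := by
  unfold itp
  rw [cu_zero hs hst hz]
  push_cast
  ring

theorem itp_near_in (hs : 0 < s) (hst : s < t) {z : ℂ} (hz : ‖z‖ < s) : itp s t f g =ᶠ[𝓝 z] g := by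
  filter_upwards [continuous_norm.continuousAt.eventually (gt_mem_nhds hz)] with w hw
  exact itp_in hs hst (le_of_lt hw)

theorem itp_near_out (hs : 0 < s) (hst : s < t) {z : ℂ} (hz : t < ‖z‖) : itp s t f g =ᶠ[𝓝 z] f := by
  filter_upwards [continuous_norm.continuousAt.eventually (lt_mem_nhds hz)] with w hw
  exact itp_out hs hst (le_of_lt hw)

theorem itp_close {δ : ℝ} (hδ : 0 ≤ δ)
    (h : ∀ z ∈ ball (0 : ℂ) (3 * R), ‖g z - f z‖ ≤ δ) (hs : 0 < s) (hst : s < t) (ht : t < 3 * R)
    (z : ℂ) : ‖itp s t f g z - f z‖ ≤ δ := by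
  rcases lt_or_ge ‖z‖ t with hz | hz
  · have e : itp s t f g z - f z = (cu s t z : ℂ) * (g z - f z) := by
      unfold itp
      ring
    rw [e, norm_mul, Complex.norm_real, Real.norm_eq_abs, abs_of_nonneg (cu_mem z).1]
    have h1 := h z (mem_ball_zero_iff.2 (by linarith))
    exact (mul_le_of_le_one_left (norm_nonneg _) (cu_mem z).2).trans h1
  · rw [itp_out hs hst hz, sub_self, norm_zero]
    exact hδ

theorem itp_smooth (hf : PolyLike R f) (hg : DifferentiableOn ℂ g (ball 0 (3 * R))) (hs : 0 < s)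
    (hst : s < t) (ht : t < 3 * R) : ContDiff ℝ (⊤ : ℕ∞) (itp s t f g) := by
  have hfs : ContDiff ℝ (⊤ : ℕ∞) f := (hf.hol.contDiff (n := (⊤ : ℕ∞))).restrict_scalars ℝ
  rw [contDiff_iff_contDiffAt]
  intro z
  by_cases hz : ‖z‖ < 3 * R
  · have h1 : ContDiffAt ℂ (⊤ : ℕ∞) g z :=
      (hg.analyticAt (isOpen_ball.mem_nhds (mem_ball_zero_iff.2 hz))).contDiffAt
    have h2 : ContDiffAt ℝ (⊤ : ℕ∞) g z := h1.restrict_scalars ℝ
    have h3 : ContDiffAt ℝ (⊤ : ℕ∞) (fun z => (cu s t z : ℂ)) z :=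
      (Complex.ofRealCLM.contDiff.comp (cu_smooth s t)).contDiffAt
    exact hfs.contDiffAt.add (h3.mul (h2.sub hfs.contDiffAt))
  · exact hfs.contDiffAt.congr_of_eventuallyEq (itp_near_out hs hst (by linarith))

/-- the derivatives of the interpolation -/
theorem itp_der (hf : PolyLike R f) (hg : DifferentiableOn ℂ g (ball 0 (3 * R))) {z : ℂ}
    (hz : ‖z‖ < 3 * R) :
    dd (itp s t f g) z = deriv f z + cu s t z * (deriv g z - deriv f z) +
      dd (fun z => (cu s t z : ℂ)) z * (g z - f z) ∧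
    dbar (itp s t f g) z = dbar (fun z => (cu s t z : ℂ)) z * (g z - f z) := by
  have hzm : z ∈ ball (0 : ℂ) (3 * R) := mem_ball_zero_iff.2 hz
  have hgd := (hg.differentiableAt (isOpen_ball.mem_nhds hzm)).hasDerivAt
  have hfd := (hf.hol z).hasDerivAt
  have h1 : HasFDerivAt (fun z => (cu s t z : ℂ)) (fderiv ℝ (fun z => (cu s t z : ℂ)) z) z :=
    ((Complex.ofRealCLM.contDiff.comp (cu_smooth s t)).differentiable (by simp) z).hasFDerivAt
  have h2 : HasFDerivAt (fun z => g z - f z) (fderiv ℝ (fun z => g z - f z) z) z :=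
    ((hgd.sub hfd).differentiableAt.restrictScalars ℝ).hasFDerivAt
  have h3 : HasFDerivAt f (fderiv ℝ f z) z := (hfd.differentiableAt.restrictScalars ℝ).hasFDerivAt
  have h4 := h3.add (h1.mul h2)
  have h5 : ∀ v, fderiv ℝ (itp s t f g) z v = deriv f z * v +
      ((cu s t z : ℂ) * ((deriv g z - deriv f z) * v) +
        (g z - f z) * fderiv ℝ (fun z => (cu s t z : ℂ)) z v) := by
    intro v
    have h6 : fderiv ℝ (itp s t f g) z = _ := h4.fderiv
    rw [h6]
    have h7 : fderiv ℝ (fun z => g z - f z) z v = (deriv g z - deriv f z) * v :=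
      hol_fderiv (hgd.sub hfd) v
    rw [← h7, ← hol_fderiv hfd v]
    rfl
  constructor
  · unfold dd Pool.Agent.Split938.dz
    rw [h5, h5]
    linear_combination (-(deriv f z) / 2 - (cu s t z : ℂ) * (deriv g z - deriv f z) / 2) * Complex.I_sq
  · unfold dbar
    rw [h5, h5]
    linear_combination ((deriv f z) / 2 + (cu s t z : ℂ) * (deriv g z - deriv f z) / 2) * Complex.I_sq

theorem cu_dd {C : ℝ} (hC : ∀ x, |deriv Real.smoothTransition x| ≤ C) (hs : 0 < s)
    (hst : s < t) (z : ℂ) : ‖dd (fun z => (cu s t z : ℂ)) z‖ ≤ C * (2 * ‖z‖ / (t ^ 2 - s ^ 2)) ∧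
      ‖dbar (fun z => (cu s t z : ℂ)) z‖ ≤ C * (2 * ‖z‖ / (t ^ 2 - s ^ 2)) := by
  have h1 : ∀ v, fderiv ℝ (fun z => (cu s t z : ℂ)) z v = (fderiv ℝ (cu s t) z v : ℂ) := by
    intro v
    have h2 := Complex.ofRealCLM.hasFDerivAt.comp z
      (((cu_smooth s t).differentiable (by simp) z).hasFDerivAt)
    have h3 : fderiv ℝ (fun z => (cu s t z : ℂ)) z = _ := h2.fderiv
    rw [h3]
    rfl
  have h2 : ∀ v, ‖v‖ = 1 → ‖fderiv ℝ (fun z => (cu s t z : ℂ)) z v‖ ≤ C * (2 * ‖z‖ / (t ^ 2 - s ^ 2)) := by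
    intro v hv
    rw [h1, Complex.norm_real, Real.norm_eq_abs]
    have := cu_fderiv hC hs hst z v
    rwa [hv, mul_one] at this
  have h3 := h2 1 norm_one
  have h4 := h2 Complex.I Complex.norm_I
  constructor
  · unfold dd Pool.Agent.Split938.dz
    rw [norm_div, Complex.norm_ofNat]
    have h5 := norm_sub_le (fderiv ℝ (fun z => (cu s t z : ℂ)) z 1)
      (Complex.I * fderiv ℝ (fun z => (cu s t z : ℂ)) z Complex.I)
    rw [norm_mul, Complex.norm_I, one_mul] at h5
    linarith
  · unfold dbar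
    rw [norm_div, Complex.norm_ofNat]
    have h5 := norm_add_le (fderiv ℝ (fun z => (cu s t z : ℂ)) z 1)
      (Complex.I * fderiv ℝ (fun z => (cu s t z : ℂ)) z Complex.I)
    rw [norm_mul, Complex.norm_I, one_mul] at h5
    linarith

/-- **Interpolation.** -/
theorem cutC (N0 : ℕ) : ∃ B : ℝ, 0 < B ∧ ∀ {R : ℝ} {f : ℂ → ℂ}, PolyLike R f → ∀ δ1 : ℝ,
    (∀ g : ℂ → ℂ, DifferentiableOn ℂ g (ball 0 (3 * R)) →
      (∀ z ∈ ball (0 : ℂ) (3 * R), ‖g z - f z‖ ≤ δ1) →
      ∀ S : Finset ℂ, (∀ c ∈ S, ‖c‖ < R ∧ deriv g c = 0) → S.card ≤ N0) →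
    ∀ κ, 0 < κ → κ ≤ 1 / 40 → ∀ δ, 0 ≤ δ → δ ≤ δ1 → δ * (B + 4) ≤ κ / 2 →
      ∀ g, DifferentiableOn ℂ g (ball 0 (3 * R)) →
      (∀ z ∈ ball (0 : ℂ) (3 * R), ‖g z - f z‖ ≤ δ) →
        ∃ s1 s2 G, QR R s1 s2 κ G ∧ (∀ z, ‖z‖ ≤ s1 → G z = g z) ∧ (∀ z, ‖G z - f z‖ ≤ δ) ∧
          ∀ z, R ≤ ‖z‖ → dd G z ≠ 0 := by
  obtain ⟨C, hC0, hC⟩ := trans_bound
  set M : ℝ := (N0 : ℝ) + 1 with hM
  have hM1 : 1 ≤ M := by have : (0 : ℝ) ≤ N0 := Nat.cast_nonneg _; linarith
  set B : ℝ := 4 * C * M with hB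
  have hB0 : 0 < B := by positivity
  refine ⟨B, hB0, fun {R f} hf δ1 hcount κ hκ0 hκ δ hδ0 hδ1' hδB g hg hgf => ?_⟩
  have hR := hf.R1
  have hBδ : 0 ≤ δ * B := by positivity
  -- the critical points
  have hfin : Set.Finite {c : ℂ | ‖c‖ < R ∧ deriv g c = 0} := by
    by_contra hinf
    obtain ⟨T, hT, hTc⟩ := Set.Infinite.exists_subset_card_eq hinf (N0 + 1)
    have := hcount g hg (fun z hz => (hgf z hz).trans hδ1') T fun c hc => hT hc
    omega
  set Cr := hfin.toFinset with hCr
  have hCrm : ∀ c, c ∈ Cr ↔ ‖c‖ < R ∧ deriv g c = 0 := by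
    intro c
    rw [hCr, Set.Finite.mem_toFinset]
    rfl
  have hCrc : Cr.card ≤ N0 :=
    hcount g hg (fun z hz => (hgf z hz).trans hδ1') Cr fun c hc => (hCrm c).1 hc
  -- the choice of the annulus
  obtain ⟨i, hiM, hi⟩ : ∃ i < N0 + 1, ∀ c ∈ Cr, i ≠ ⌊(ent R g c / R - 1) * M⌋₊ := by
    by_contra hc
    push Not at hc
    have h1 : Finset.range (N0 + 1) ⊆ Cr.image fun c => ⌊(ent R g c / R - 1) * M⌋₊ := by
      intro i hi
      obtain ⟨c, hc1, hc2⟩ := hc i (Finset.mem_range.1 hi)
      exact Finset.mem_image.2 ⟨c, hc1, hc2.symm⟩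
    have h2 := (Finset.card_le_card h1).trans Finset.card_image_le
    rw [Finset.card_range] at h2
    omega
  have hiR : (i : ℝ) + 1 ≤ M := by
    have : i + 1 ≤ N0 + 1 := hiM
    have h2 : ((i + 1 : ℕ) : ℝ) ≤ ((N0 + 1 : ℕ) : ℝ) := by exact_mod_cast this
    push_cast at h2
    exact h2
  have hi0 : (0 : ℝ) ≤ i := Nat.cast_nonneg _
  have hM0 : 0 < M := by linarith
  set s : ℝ := R * (1 + i / M) with hs
  set t : ℝ := R * (1 + (i + 1 / 2) / M) with ht
  have hR0 : 0 < R := by linarith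
  have hRs : R ≤ s := by
    rw [hs]
    have : 0 ≤ (i : ℝ) / M := by positivity
    nlinarith
  have hs0 : 0 < s := by linarith
  have hts : t - s = R / (2 * M) := by
    rw [hs, ht]
    field_simp
    ring
  have hst : s < t := by
    have : 0 < R / (2 * M) := by positivity
    linarith
  have ht2 : t < 2 * R := by
    have h1 : ((i : ℝ) + 1 / 2) / M < 1 := by
      rw [div_lt_one hM0]
      linarith
    rw [ht]
    nlinarith
  have ht3 : t < 3 * R := by linarith
  have hts2 : R ^ 2 / M ≤ t ^ 2 - s ^ 2 := by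
    have h1 : t ^ 2 - s ^ 2 = (t - s) * (t + s) := by ring
    rw [h1, hts]
    have h2 : 2 * R ≤ t + s := by linarith
    calc R ^ 2 / M = R / (2 * M) * (2 * R) := by field_simp
      _ ≤ _ := mul_le_mul_of_nonneg_left h2 (by positivity)
  have hcd : ∀ z : ℂ, ‖z‖ ≤ 2 * R → C * (2 * ‖z‖ / (t ^ 2 - s ^ 2)) ≤ B := by
    intro z hz
    have h1 : 0 < R ^ 2 / M := by positivity
    have h2 : 2 * ‖z‖ / (t ^ 2 - s ^ 2) ≤ 4 * R / (R ^ 2 / M) := by
      apply div_le_div₀ (by positivity) (by linarith) h1 hts2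
    have h3 : 4 * R / (R ^ 2 / M) = 4 * M / R := by field_simp
    have h4 : 4 * M / R ≤ 4 * M := div_le_self (by positivity) hR
    calc C * (2 * ‖z‖ / (t ^ 2 - s ^ 2)) ≤ C * (4 * M) :=
          mul_le_mul_of_nonneg_left (by linarith) hC0.le
      _ = B := by rw [hB]; ring
  -- estimates of the derivatives
  have hdb : ∀ z : ℂ, ‖z‖ ≤ 2 * R → ‖dbar (itp s t f g) z‖ ≤ κ / 2 := by
    intro z hz
    rw [(itp_der hf hg (by linarith)).2, norm_mul]
    have h1 := (cu_dd hC hs0 hst z).2.trans (hcd z hz)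
    have h2 := hgf z (mem_ball_zero_iff.2 (by linarith))
    have h3 := mul_le_mul h1 h2 (norm_nonneg _) hB0.le
    nlinarith
  have hddb : ∀ z : ℂ, R ≤ ‖z‖ → ‖z‖ ≤ 2 * R → 1 / 2 ≤ ‖dd (itp s t f g) z‖ := by
    intro z hz1 hz
    rw [(itp_der hf hg (by linarith)).1]
    have h1 := (cu_dd hC hs0 hst z).1.trans (hcd z hz)
    have h2 := hgf z (mem_ball_zero_iff.2 (by linarith))
    have h3 : ‖dd (fun z => (cu s t z : ℂ)) z * (g z - f z)‖ ≤ B * δ := by
      rw [norm_mul]
      exact mul_le_mul h1 h2 (norm_nonneg _) hB0.le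
    have h4 : ‖(cu s t z : ℂ) * (deriv g z - deriv f z)‖ ≤ 2 * δ := by
      rw [norm_mul, Complex.norm_real, Real.norm_eq_abs, abs_of_nonneg (cu_mem z).1]
      exact (mul_le_of_le_one_left (norm_nonneg _) (cu_mem z).2).trans (deriv_close hf hg hgf hz)
    have h5 := hf.der z hz1
    have h6 : ‖deriv f z‖ ≤ ‖deriv f z + cu s t z * (deriv g z - deriv f z) +
      dd (fun z => (cu s t z : ℂ)) z * (g z - f z)‖ + ‖(cu s t z : ℂ) * (deriv g z - deriv f z)‖ +
        ‖dd (fun z => (cu s t z : ℂ)) z * (g z - f z)‖ := by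
      have e : deriv f z = (deriv f z + cu s t z * (deriv g z - deriv f z) +
        dd (fun z => (cu s t z : ℂ)) z * (g z - f z)) - cu s t z * (deriv g z - deriv f z) -
        dd (fun z => (cu s t z : ℂ)) z * (g z - f z) := by ring
      conv_lhs => rw [e]
      exact (norm_sub_le _ _).trans (add_le_add (norm_sub_le _ _) le_rfl)
    nlinarith
  have hpos : ∀ c, R ≤ ‖c‖ → dd (itp s t f g) c ≠ 0 := by
    intro c h hc
    rcases le_or_gt ‖c‖ t with h1 | h1
    · have := hddb c h (by linarith)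
      rw [hc, norm_zero] at this
      linarith
    · have h2 : dd (itp s t f g) c = deriv f c := by
        rw [dd_congr (itp_near_out hs0 hst h1)]
        exact hol_dd (hf.hol c).hasDerivAt
      have h3 := hf.der c h
      rw [← h2, hc, norm_zero] at h3
      linarith
  refine ⟨s, t, itp s t f g, ⟨itp_smooth hf hg hs0 hst ht3, ?_, ?_, ?_, ?_, hR0, hRs, ht2, hκ⟩, ?_,
    itp_close hδ0 hgf hs0 hst ht3, hpos⟩
  · -- holomorphic off the annulus
    intro z hz
    rw [not_and_or, not_le, not_le] at hz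
    rcases hz with hz | hz
    · rw [dbar_congr (itp_near_in hs0 hst hz)]
      exact hol_dbar (hg.differentiableAt (isOpen_ball.mem_nhds
        (mem_ball_zero_iff.2 (by linarith)))).hasDerivAt
    · rw [dbar_congr (itp_near_out hs0 hst hz)]
      exact hol_dbar (hf.hol z).hasDerivAt
  · -- the dilatation
    intro z
    by_cases hz : s ≤ ‖z‖ ∧ ‖z‖ ≤ t
    · have h1 := hdb z (by linarith [hz.2])
      have h2 := hddb z (by linarith [hz.1]) (by linarith [hz.2])
      nlinarith
    · have h0 : dbar (itp s t f g) z = 0 := by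
        rw [not_and_or, not_le, not_le] at hz
        rcases hz with hz | hz
        · rw [dbar_congr (itp_near_in hs0 hst hz)]
          exact hol_dbar (hg.differentiableAt (isOpen_ball.mem_nhds
            (mem_ball_zero_iff.2 (by linarith)))).hasDerivAt
        · rw [dbar_congr (itp_near_out hs0 hst hz)]
          exact hol_dbar (hf.hol z).hasDerivAt
      rw [h0, norm_zero]
      positivity
  · -- expansion
    intro z hz
    have h1 := itp_close hδ0 hgf hs0 hst ht3 z
    have h2 := hf.big z hz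
    have h3 := norm_sub_norm_le (f z) (itp s t f g z)
    rw [norm_sub_rev] at h3
    nlinarith
  · -- the critical orbits
    intro c hc j hj
    have hcR : ‖c‖ < R := by
      by_contra h
      push Not at h
      exact hpos c h hc
    have hcC : c ∈ Cr := by
      rw [hCrm]
      refine ⟨hcR, ?_⟩
      have h2 : dd (itp s t f g) c = deriv g c := by
        rw [dd_congr (itp_near_in hs0 hst (by linarith))]
        exact hol_dd (hg.differentiableAt (isOpen_ball.mem_nhds
          (mem_ball_zero_iff.2 (by linarith)))).hasDerivAt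
      rw [← h2, hc]
    -- the orbit agrees with the orbit of `g` until the first exit
    have hag : ∀ k : ℕ, (∀ l < k, ‖g^[l] c‖ < R) → (itp s t f g)^[k] c = g^[k] c := by
      intro k
      induction k with
      | zero => intro _; rfl
      | succ k ih =>
        intro hk
        rw [Function.iterate_succ_apply', Function.iterate_succ_apply', ih fun l hl => hk l (by omega)]
        exact itp_in hs0 hst (by linarith [hk k (by omega)])
    by_cases hex : ∃ k : ℕ, R ≤ ‖g^[k] c‖
    · classical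
      have hent : ent R g c = ‖g^[Nat.find hex] c‖ := by
        unfold ent
        rw [dif_pos hex]
      have hmin : ∀ l < Nat.find hex, ‖g^[l] c‖ < R := fun l hl =>
        not_le.1 (Nat.find_min hex hl)
      have hfe := Nat.find_spec hex
      rcases lt_trichotomy j (Nat.find hex) with h1 | h1 | h1
      · rw [hag j fun l hl => hmin l (by omega)] at hj
        have := hmin j h1
        linarith [hj.1]
      · rw [h1, hag _ hmin, ← hent] at hj
        -- the annulus was chosen to avoid this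
        apply hi c hcC
        symm
        rw [Nat.floor_eq_iff (by
          have : 1 ≤ ent R g c / R := by rw [le_div_iff₀ hR0]; linarith [hj.1]
          have h2 : 0 ≤ ent R g c / R - 1 := by linarith
          positivity)]
        have e1 : s / R = 1 + i / M := by rw [hs]; field_simp
        have e2 : t / R = 1 + (i + 1 / 2) / M := by rw [ht]; field_simp
        have h2 : s / R ≤ ent R g c / R := div_le_div_of_nonneg_right hj.1 hR0.le
        have h3 : ent R g c / R ≤ t / R := div_le_div_of_nonneg_right hj.2 hR0.le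
        rw [e1] at h2
        rw [e2] at h3
        constructor
        · have h4 : (i : ℝ) / M ≤ ent R g c / R - 1 := by linarith
          rwa [div_le_iff₀ hM0] at h4
        · have h4 : ent R g c / R - 1 ≤ ((i : ℝ) + 1 / 2) / M := by linarith
          rw [le_div_iff₀ hM0] at h4
          linarith
      · -- after the exit
        have h2 : ∀ k, 2 * R ≤ ‖(itp s t f g)^[Nat.find hex + 1 + k] c‖ := by
          intro k
          induction k with
          | zero =>
            rw [Nat.add_zero, Function.iterate_succ_apply', hag _ hmin]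
            have h3 := itp_close hδ0 hgf hs0 hst ht3 (g^[Nat.find hex] c)
            have h4 := hf.big _ hfe
            have h5 := norm_sub_norm_le (f (g^[Nat.find hex] c)) (itp s t f g (g^[Nat.find hex] c))
            rw [norm_sub_rev] at h5
            nlinarith
          | succ k ih =>
            rw [show Nat.find hex + 1 + (k + 1) = (Nat.find hex + 1 + k) + 1 by ring,
              Function.iterate_succ_apply']
            set y := (itp s t f g)^[Nat.find hex + 1 + k] c
            have h3 := itp_close hδ0 hgf hs0 hst ht3 y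
            have h4 := hf.big y (by linarith)
            have h5 := norm_sub_norm_le (f y) (itp s t f g y)
            rw [norm_sub_rev] at h5
            nlinarith
        obtain ⟨k, rfl⟩ : ∃ k, j = Nat.find hex + 1 + k := ⟨j - (Nat.find hex + 1), by omega⟩
        have := h2 k
        linarith [hj.2]
    · push Not at hex
      rw [hag j fun l _ => hex l] at hj
      linarith [hex j, hj.1]
  · intro z hz
    exact itp_in hs0 hst hz

/-- interpolation, qualitative form -/
theorem cut (hf : PolyLike R f) {κ : ℝ} (hκ0 : 0 < κ) (hκ : κ ≤ 1 / 40) :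
    ∃ δ0 > 0, ∀ δ, 0 ≤ δ → δ ≤ δ0 → ∀ g, DifferentiableOn ℂ g (ball 0 (3 * R)) →
      (∀ z ∈ ball (0 : ℂ) (3 * R), ‖g z - f z‖ ≤ δ) →
        ∃ s1 s2 G, QR R s1 s2 κ G ∧ (∀ z, ‖z‖ ≤ s1 → G z = g z) ∧ (∀ z, ‖G z - f z‖ ≤ δ) ∧
          ∀ z, R ≤ ‖z‖ → dd G z ≠ 0 := by
  obtain ⟨N0, δ1, hδ1, hcount⟩ := count hf
  obtain ⟨B, hB, H⟩ := cutC N0
  refine ⟨min δ1 (κ / (2 * (B + 4))), lt_min hδ1 (by positivity), fun δ hδ0 hδ g hg hgf => ?_⟩
  refine H hf δ1 hcount κ hκ0 hκ δ hδ0 (hδ.trans (min_le_left _ _)) ?_ g hg hgf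
  have := hδ.trans (min_le_right _ _)
  rw [le_div_iff₀ (by positivity)] at this
  linarith

end

end Pool.Agent.Helper23S
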