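import Pool.Agent.Helper23S.Lim
import Pool.Agent.Helper23S.Cut2
import Pool.Agent.Helper202.Univ

/-!
# Dynamics of the conjugated map
-/

set_option autoImplicit false
set_option linter.unusedSectionVars false

open MeasureTheory Set Filter Topology Metric

noncomputable section

namespace Pool.Agent.Helper23S

open Pool.Agent.Split938 (dbar)

/-- a holomorphic map of a bounded open set into a compact part of it has only attracting fixed
points -/
theorem eh {F : ℂ → ℂ} (hF : Differentiable ℂ F) {V K : Set ℂ} (hV : IsOpen V)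
    (hVb : Bornology.IsBounded V) (hK : IsCompact K) (hKV : K ⊆ V) (h : MapsTo F V K) {p : ℂ}
    (hp : p ∈ V) (hfix : F p = p) : ‖deriv F p‖ < 1 := by
  obtain ⟨ρ, hρ, hρV⟩ := hK.exists_thickening_subset_open hV hKV
  obtain ⟨B, hB⟩ := hVb.subset_closedBall (0 : ℂ)
  have hBn : ∀ z ∈ V, ‖z‖ ≤ B := fun z hz => by
    have := hB hz
    rwa [mem_closedBall_zero_iff] at this
  have hB0 : 0 ≤ B := (norm_nonneg _).trans (hBn p hp)
  set ε : ℝ := ρ / (2 * (2 * B + 1)) with hε
  have hε0 : 0 < ε := by positivity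
  set H : ℂ → ℂ := fun z => F z + (ε : ℂ) * (F z - p) with hH
  have hHd : Differentiable ℂ H := hF.add ((hF.sub_const p).const_mul _)
  have hHp : H p = p := by
    rw [hH]
    simp only [hfix]
    ring
  have hHV : MapsTo H V V := by
    intro z hz
    apply hρV
    rw [mem_thickening_iff]
    refine ⟨F z, h hz, ?_⟩
    rw [dist_eq_norm, hH]
    simp only [add_sub_cancel_left]
    rw [norm_mul, Complex.norm_real, Real.norm_eq_abs, abs_of_pos hε0]
    have h1 := norm_sub_le (F z) p
    have h2 := hBn (F z) (hKV (h hz))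
    have h3 := hBn p hp
    calc ε * ‖F z - p‖ ≤ ε * (2 * B + 1) := mul_le_mul_of_nonneg_left (by linarith) hε0.le
      _ = ρ / 2 := by rw [hε]; field_simp
      _ < ρ := by linarith
  have hHder : HasDerivAt H ((1 + ε) * deriv F p) p := by
    have h1 := (hF p).hasDerivAt
    have h2 := h1.add ((h1.sub_const p).const_mul (ε : ℂ))
    refine h2.congr_deriv ?_
    ring
  obtain ⟨r, hr, hrV⟩ := Metric.isOpen_iff.1 hV p hp
  have hr2 : closedBall p (r / 2) ⊆ V := (closedBall_subset_ball (by linarith)).trans hrV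
  have hbd : ∀ k : ℕ, ((1 + ε) * ‖deriv F p‖) ^ k ≤ B / (r / 2) := by
    intro k
    have hk : Differentiable ℂ H^[k] := hHd.iterate k
    have h1 := Complex.norm_deriv_le_of_forall_mem_sphere_norm_le (c := p) (R := r / 2) (C := B)
      (f := H^[k]) (by linarith) hk.diffContOnCl (fun z hz =>
        hBn _ (hHV.iterate k (hr2 (sphere_subset_closedBall hz))))
    have h2 := (HasDerivAt.iterate p hHder hHp k).deriv
    rw [h2, norm_pow, norm_mul] at h1
    have h3 : ‖(1 + ε : ℂ)‖ = 1 + ε := by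
      have : (1 + ε : ℂ) = ((1 + ε : ℝ) : ℂ) := by push_cast; ring
      rw [this, Complex.norm_real, Real.norm_eq_abs, abs_of_pos (by linarith)]
    rwa [h3] at h1
  have h1 : (1 + ε) * ‖deriv F p‖ ≤ 1 := by
    by_contra hc
    push Not at hc
    obtain ⟨k, hk⟩ := pow_unbounded_of_one_lt (B / (r / 2)) hc
    have := hbd k
    linarith
  by_contra hc
  push Not at hc
  nlinarith

theorem conj_it {G : ℂ → ℂ} (Φ : ℂ ≃ₜ ℂ) (n : ℕ) (z : ℂ) :
    (fun w => Φ (G (Φ.symm w)))^[n] (Φ z) = Φ (G^[n] z) := by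
  induction n generalizing z with
  | zero => rfl
  | succ n ih =>
    rw [Function.iterate_succ_apply, Function.iterate_succ_apply, Φ.symm_apply_apply, ih]

/-- attracting cycles are preserved by topological conjugacy of holomorphic maps -/
theorem att_transfer {G : ℂ → ℂ} (Φ : ℂ ≃ₜ ℂ)
    (hh : Differentiable ℂ (fun w => Φ (G (Φ.symm w)))) {g : ℂ → ℂ} {z : ℂ} {n : ℕ}
    (heq : G^[n] =ᶠ[𝓝 z] g) (hfix : G^[n] z = z) (hd : ‖deriv g z‖ < 1)
    (hgd : DifferentiableAt ℂ g z) :
    ‖deriv ((fun w => Φ (G (Φ.symm w)))^[n]) (Φ z)‖ < 1 := by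
  have hgz : g z = z := by rw [← heq.self_of_nhds]; exact hfix
  -- contraction
  obtain ⟨l, hl1, hl2⟩ := exists_between hd
  have hl0 : 0 ≤ l := (norm_nonneg _).trans hl1.le
  have h1 : ∀ᶠ y in 𝓝 z, ‖G^[n] y - z‖ ≤ l * ‖y - z‖ := by
    have h2 := hgd.hasDerivAt.isLittleO.def (show 0 < l - ‖deriv g z‖ by linarith)
    filter_upwards [h2, heq] with y hy1 hy2
    rw [hy2]
    have h3 : g y - z = (g y - g z - (y - z) • deriv g z) + (y - z) • deriv g z := by
      rw [hgz]
      ring
    rw [h3]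
    refine (norm_add_le _ _).trans ?_
    rw [norm_smul]
    nlinarith [norm_nonneg (y - z)]
  obtain ⟨r, hr, hrb⟩ := Metric.eventually_nhds_iff_ball.1 h1
  set r' := r / 2 with hr'
  have hr'0 : 0 < r' := by linarith
  refine eh (hh.iterate n) (V := Φ '' ball z r') (K := Φ '' closedBall z (l * r')) ?_ ?_ ?_ ?_ ?_
    (p := Φ z) ⟨z, mem_ball_self hr'0, rfl⟩ ?_
  · exact Φ.isOpenMap _ isOpen_ball
  · have hc : IsCompact (Φ '' closedBall z r') := (isCompact_closedBall z r').image Φ.continuous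
    exact hc.isBounded.subset (image_mono ball_subset_closedBall)
  · exact (isCompact_closedBall z (l * r')).image Φ.continuous
  · exact image_mono (closedBall_subset_ball (by nlinarith))
  · rintro _ ⟨y, hy, rfl⟩
    rw [conj_it]
    refine ⟨G^[n] y, ?_, rfl⟩
    rw [mem_ball, dist_eq_norm] at hy
    have h2 := hrb y (mem_ball_iff_norm.2 (by linarith))
    rw [mem_closedBall, dist_eq_norm]
    nlinarith
  · rw [conj_it, hfix]

/-- the notion of hyperbolicity for holomorphic functions in a disc -/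
def LocHyp (R : ℝ) (g : ℂ → ℂ) : Prop :=
  ∀ c, ‖c‖ < R → deriv g c = 0 → (∃ j : ℕ, R ≤ ‖g^[j] c‖) ∨
    ∃ (z : ℂ) (n : ℕ), 0 < n ∧ (∀ i : ℕ, ‖g^[i] z‖ < R) ∧ g^[n] z = z ∧ ‖deriv g^[n] z‖ < 1 ∧
      Tendsto (fun k : ℕ => g^[n * k] c) atTop (𝓝 z)

/-- the notion of hyperbolicity for entire functions -/
def HypEnt (h : ℂ → ℂ) : Prop :=
  ∀ c, deriv h c = 0 → Tendsto (fun k : ℕ => ‖h^[k] c‖) atTop atTop ∨
    ∃ (z : ℂ) (n : ℕ), 0 < n ∧ h^[n] z = z ∧ ‖deriv h^[n] z‖ < 1 ∧
      Tendsto (fun k : ℕ => h^[n * k] c) atTop (𝓝 z)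

/-- almost holomorphic maps are injective near the points where the derivative does not vanish -/
theorem QR.inj {R s1 s2 κ : ℝ} {G : ℂ → ℂ} (h : QR R s1 s2 κ G) {z : ℂ} (hz : dd G z ≠ 0) :
    ∃ U, IsOpen U ∧ z ∈ U ∧ InjOn G U := by
  have hinj : Function.Injective ((fderiv ℝ G z : ℂ →L[ℝ] ℂ) : ℂ →ₗ[ℝ] ℂ) := by
    rw [injective_iff_map_eq_zero]
    intro v hv
    have h2 : fderiv ℝ G z v = 0 := hv
    rw [fderiv_eq] at h2
    have h3 : ‖dd G z * v‖ = ‖dbar G z * (starRingEnd ℂ) v‖ := by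
      rw [eq_neg_of_add_eq_zero_left h2, norm_neg]
    rw [norm_mul, norm_mul, RCLike.norm_conj] at h3
    have h4 := h.dil z
    have h5 := norm_pos_iff.2 hz
    have h6 := h.hκ
    by_contra hc
    have h7 := norm_pos_iff.2 hc
    have h8 : ‖dd G z‖ ≤ ‖dbar G z‖ := (mul_le_mul_iff_left₀ h7).1 h3.le
    nlinarith
  let F : ℂ ≃L[ℝ] ℂ := (LinearEquiv.ofInjectiveEndo _ hinj).toContinuousLinearEquiv
  have hF : (F : ℂ →L[ℝ] ℂ) = fderiv ℝ G z := by
    apply ContinuousLinearMap.ext
    intro v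
    rfl
  have hst : HasStrictFDerivAt G (F : ℂ →L[ℝ] ℂ) z := by
    rw [hF]
    exact h.smooth.contDiffAt.hasStrictFDerivAt (by simp)
  let ψ := hst.toOpenPartialHomeomorph G
  refine ⟨ψ.source, ψ.open_source, hst.mem_toOpenPartialHomeomorph_source, ?_⟩
  have := ψ.injOn
  simpa [ψ] using this

/-- the dynamics of the conjugate -/
theorem hyp_of_local {R s1 s2 κ : ℝ} {G g : ℂ → ℂ} (h : QR R s1 s2 κ G)
    (hGg : ∀ z, ‖z‖ ≤ s1 → G z = g z) (hg : DifferentiableOn ℂ g (ball 0 (3 * R)))
    (hpos : ∀ z, R ≤ ‖z‖ → dd G z ≠ 0) (hloc : LocHyp R g) (Φ : ℂ ≃ₜ ℂ)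
    (hh : Differentiable ℂ (fun w => Φ (G (Φ.symm w)))) {C : ℝ}
    (hinv : ∀ w, ‖Φ.symm w‖ ≤ 4 / 3 * ‖w‖ + C) : HypEnt (fun w => Φ (G (Φ.symm w))) := by
  have hR := h.Rpos
  have hs1 := h.h1
  intro c hc
  obtain ⟨z, rfl⟩ := Φ.surjective c
  -- `z` is a critical point of `G`
  have hcrit : dd G z = 0 := by
    by_contra hne
    obtain ⟨U, hU, hzU, hinj⟩ := h.inj hne
    have hV : IsOpen (Φ '' U) := Φ.isOpenMap _ hU
    refine Helper202.Univ.deriv_ne_zero hV hh.differentiableOn ?_ (mem_image_of_mem Φ hzU) hc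
    rintro _ ⟨a, ha, rfl⟩ _ ⟨b, hb, rfl⟩ hab
    simp only [Homeomorph.symm_apply_apply] at hab
    rw [hinj ha hb (Φ.injective hab)]
  have hzR : ‖z‖ < R := by
    by_contra hc
    exact hpos z (not_lt.1 hc) hcrit
  have hGgn : ∀ y, ‖y‖ < R → G =ᶠ[𝓝 y] g := by
    intro y hy
    filter_upwards [continuous_norm.continuousAt.eventually (gt_mem_nhds hy)] with w hw
    exact hGg w (by linarith [show ‖w‖ < R from hw])
  have hgz : deriv g z = 0 := by
    rw [← hcrit, dd_congr (hGgn z hzR)]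
    exact (hol_dd (hg.differentiableAt (isOpen_ball.mem_nhds
      (mem_ball_zero_iff.2 (by linarith)))).hasDerivAt).symm
  have hag : ∀ k : ℕ, (∀ l < k, ‖g^[l] z‖ < R) → G^[k] z = g^[k] z := by
    intro k
    induction k with
    | zero => intro _; rfl
    | succ k ih =>
      intro hk
      rw [Function.iterate_succ_apply', Function.iterate_succ_apply', ih fun l hl => hk l (by omega)]
      exact hGg _ (by linarith [hk k (by omega)])
  by_cases hex : ∃ j : ℕ, R ≤ ‖g^[j] z‖
  · -- escape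
    left
    classical
    set j := Nat.find hex with hj
    have hmin : ∀ l < j, ‖g^[l] z‖ < R := fun l hl => not_le.1 (Nat.find_min hex hl)
    have hfe := Nat.find_spec hex
    have hexp : ∀ k : ℕ, 2 ^ k * R ≤ ‖G^[k + j] z‖ := by
      intro k
      induction k with
      | zero => rw [Nat.zero_add, hag j hmin, pow_zero, one_mul]; exact hfe
      | succ k ih =>
        rw [show k + 1 + j = (k + j) + 1 by ring, Function.iterate_succ_apply']
        have h1 : R ≤ ‖G^[k + j] z‖ := by
          refine le_trans ?_ ih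
          have : (1 : ℝ) ≤ 2 ^ k := one_le_pow₀ (by norm_num)
          nlinarith
        have h2 := h.expand _ h1
        rw [pow_succ]
        linarith
    have h1 : Tendsto (fun k : ℕ => ‖G^[k + j] z‖) atTop atTop := by
      refine tendsto_atTop_mono hexp ?_
      exact (tendsto_pow_atTop_atTop_of_one_lt (show (1 : ℝ) < 2 by norm_num)).atTop_mul_const hR
    have h2 : Tendsto (fun k : ℕ => ‖G^[k] z‖) atTop atTop := (tendsto_add_atTop_iff_nat j).1 h1
    have h3 : ∀ k : ℕ, 3 / 4 * (‖G^[k] z‖ - C) ≤ ‖(fun w => Φ (G (Φ.symm w)))^[k] (Φ z)‖ := by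
      intro k
      rw [conj_it]
      have := hinv (Φ (G^[k] z))
      rw [Φ.symm_apply_apply] at this
      linarith
    refine tendsto_atTop_mono h3 ?_
    exact (tendsto_atTop_add_const_right _ (-C) h2).const_mul_atTop (by norm_num)
  · -- attraction
    right
    have hall : ∀ l, ‖g^[l] z‖ < R := by
      push Not at hex
      exact hex
    rcases hloc z hzR hgz with hl | ⟨p, n, hn, hp, hfix, hder, hlim⟩
    · exact absurd hl hex
    have hallG : ∀ k, G^[k] z = g^[k] z := fun k => hag k fun l _ => hall l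
    have hnear : ∀ i : ℕ, G^[i] =ᶠ[𝓝 p] g^[i] := by
      intro i
      induction i with
      | zero => exact EventuallyEq.rfl
      | succ i ih =>
        have h1 : ∀ᶠ y in 𝓝 p, ‖G^[i] y‖ < R := by
          have h2 : ContinuousAt (fun y => ‖G^[i] y‖) p :=
            ((h.smooth.continuous.iterate i).norm).continuousAt
          refine h2.eventually (gt_mem_nhds ?_)
          show ‖G^[i] p‖ < R
          rw [ih.self_of_nhds]
          exact hp i
        filter_upwards [ih, h1] with y hy1 hy2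
        rw [Function.iterate_succ_apply', Function.iterate_succ_apply', ← hy1]
        exact hGg _ (by linarith)
    have hdiff : ∀ i : ℕ, DifferentiableAt ℂ g^[i] p := by
      intro i
      induction i with
      | zero => exact differentiableAt_id
      | succ i ih =>
        rw [Function.iterate_succ']
        refine DifferentiableAt.comp p ?_ ih
        exact hg.differentiableAt (isOpen_ball.mem_nhds
          (mem_ball_zero_iff.2 (by linarith [hp i])))
    refine ⟨Φ p, n, hn, ?_, ?_, ?_⟩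
    · rw [conj_it, (hnear n).self_of_nhds, hfix]
    · exact att_transfer Φ hh (hnear n)
        (by rw [(hnear n).self_of_nhds, hfix]) hder (hdiff n)
    · have h1 : (fun k : ℕ => (fun w => Φ (G (Φ.symm w)))^[n * k] (Φ z)) =
          fun k : ℕ => Φ (g^[n * k] z) := by
        funext k
        rw [conj_it, hallG]
      rw [h1]
      exact (Φ.continuous.tendsto p).comp hlim

end Pool.Agent.Helper23S
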