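import Pool.Agent.Helper23S.CL

/-!
# Estimates for the solutions, far away from the support
-/

set_option autoImplicit false
set_option linter.unusedSectionVars false

open MeasureTheory Set Filter Topology Metric

noncomputable section

namespace Pool.Agent.Helper23S

open Pool.Agent.Split938 (dbar)

/-- mean value inequality -/
theorem mean_sq {A : ℂ → ℂ} (hA : Continuous A) {z0 : ℂ} {R : ℝ} (hR : 0 < R)
    (hd : DifferentiableOn ℂ A (ball z0 R)) :
    ‖A z0‖ ^ 2 * (Real.pi * R ^ 2) ≤ ∫ z in ball z0 R, ‖A z‖ ^ 2 := by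
  have hF : Continuous fun z => ‖A z‖ ^ 2 := hA.norm.pow 2
  have hpi := Real.pi_pos
  have h1 := polar_annulus (R := R) hF z0 le_rfl
  have h2 : ∫ z in {z : ℂ | 0 < dist z z0 ∧ dist z z0 < R}, ‖A z‖ ^ 2 ≤
      ∫ z in ball z0 R, ‖A z‖ ^ 2 := by
    refine setIntegral_mono_set ?_ ?_ ?_
    · exact (hF.continuousOn.integrableOn_compact (isCompact_closedBall z0 R)).mono_set
        ball_subset_closedBall
    · exact Eventually.of_forall fun z => sq_nonneg _
    · exact (show {z : ℂ | 0 < dist z z0 ∧ dist z z0 < R} ⊆ ball z0 R from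
        fun z hz => hz.2).eventuallyLE
  refine le_trans ?_ h2
  rw [h1]
  -- the integrals over circles
  have h3 : ∀ t ∈ Ioo 0 R, 2 * Real.pi * ‖A z0‖ ^ 2 ≤ ∫ θ in Ioo (-Real.pi) Real.pi,
      ‖A (z0 + t * Complex.exp (θ * Complex.I))‖ ^ 2 := by
    intro t ht
    have h4 : DiffContOnCl ℂ (fun z => A z ^ 2) (ball z0 |t|) := by
      rw [abs_of_pos ht.1]
      have hsub : closedBall z0 t ⊆ ball z0 R := closedBall_subset_ball ht.2
      refine ((hd.pow 2).mono (?_ : closedBall z0 t ⊆ ball z0 R)).diffContOnCl_ball subset_rfl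
      exact hsub
    have h5 := h4.circleAverage
    rw [Real.circleAverage_eq_integral_add (-Real.pi),
      intervalIntegral.integral_comp_add_right (fun θ ↦ A (circleMap z0 t θ) ^ 2)] at h5
    have h6 : ‖A z0‖ ^ 2 ≤ (2 * Real.pi)⁻¹ * ∫ θ in (-Real.pi)..Real.pi, ‖A (circleMap z0 t θ)‖ ^ 2 := by
      have h7 : ‖A z0 ^ 2‖ = ‖A z0‖ ^ 2 := norm_pow _ _
      rw [← h7, ← h5, norm_smul]
      have e1 : (0 : ℝ) + -Real.pi = -Real.pi := by ring
      have e2 : 2 * Real.pi + -Real.pi = Real.pi := by ring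
      rw [e1, e2]
      have e3 : ‖(2 * Real.pi)⁻¹‖ = (2 * Real.pi)⁻¹ := by
        rw [Real.norm_eq_abs, abs_of_pos (by positivity)]
      rw [e3]
      refine mul_le_mul_of_nonneg_left ?_ (by positivity)
      have h8 := intervalIntegral.norm_integral_le_integral_norm (μ := volume)
        (f := fun θ => A (circleMap z0 t θ) ^ 2) (a := -Real.pi) (b := Real.pi) (by linarith)
      simp only [norm_pow] at h8
      exact h8
    rw [intervalIntegral.integral_of_le (by linarith), integral_Ioc_eq_integral_Ioo] at h6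
    have h9 : 2 * Real.pi * ‖A z0‖ ^ 2 ≤ ∫ θ in Ioo (-Real.pi) Real.pi, ‖A (circleMap z0 t θ)‖ ^ 2 := by
      have h10 := mul_le_mul_of_nonneg_left h6 (show 0 ≤ 2 * Real.pi by positivity)
      rwa [← mul_assoc, mul_inv_cancel₀ (by positivity), one_mul] at h10
    exact h9
  have hgc : Continuous fun t : ℝ => ∫ θ in Ioo (-Real.pi) Real.pi,
      ‖A (z0 + t * Complex.exp (θ * Complex.I))‖ ^ 2 := by
    have : (fun t : ℝ => ∫ θ in Ioo (-Real.pi) Real.pi,
      ‖A (z0 + t * Complex.exp (θ * Complex.I))‖ ^ 2) = fun t : ℝ =>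
        ∫ θ in (-Real.pi)..Real.pi, ‖A (z0 + t * Complex.exp (θ * Complex.I))‖ ^ 2 := by
      funext t
      rw [intervalIntegral.integral_of_le (by linarith), integral_Ioc_eq_integral_Ioo]
    rw [this]
    apply intervalIntegral.continuous_parametric_intervalIntegral_of_continuous'
    fun_prop
  have h4 : ∫ t in Ioo 0 R, 2 * Real.pi * ‖A z0‖ ^ 2 * t ≤
      ∫ t in Ioo 0 R, t * ∫ θ in Ioo (-Real.pi) Real.pi,
        ‖A (z0 + t * Complex.exp (θ * Complex.I))‖ ^ 2 := by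
    refine setIntegral_mono_on ?_ ?_ measurableSet_Ioo fun t ht => ?_
    · have h5 : Continuous fun t : ℝ => 2 * Real.pi * ‖A z0‖ ^ 2 * t := by fun_prop
      exact (h5.continuousOn.integrableOn_compact isCompact_Icc).mono_set Ioo_subset_Icc_self
    · exact ((continuous_id.mul hgc).continuousOn.integrableOn_compact isCompact_Icc).mono_set
        Ioo_subset_Icc_self
    · rw [mul_comm (2 * Real.pi * ‖A z0‖ ^ 2) t]
      exact mul_le_mul_of_nonneg_left (h3 t ht) ht.1.le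
  refine le_trans (le_of_eq ?_) h4
  rw [integral_const_mul, ← integral_Ioc_eq_integral_Ioo, ← intervalIntegral.integral_of_le hR.le,
    integral_id]
  ring

/-- integration of a bound `b / |z|` -/
theorem path {D : ℂ → ℂ} (hD : Differentiable ℝ D) {a0 R0 b : ℝ} (ha : 0 < a0) (hb : 0 ≤ b)
    (h : ∀ w, a0 ≤ ‖w‖ → ‖w‖ ≤ R0 → ‖fderiv ℝ D w‖ ≤ b / ‖w‖) (h0 : D a0 = 0) {z : ℂ}
    (hz : a0 ≤ ‖z‖) (hz' : ‖z‖ ≤ R0) : ‖D z‖ ≤ b * (Real.log (‖z‖ / a0) + Real.pi) := by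
  set g : ℂ → ℂ := fun ζ => D (Complex.exp ζ) with hg
  set S : Set ℂ := {ζ : ℂ | Real.log a0 ≤ ζ.re ∧ ζ.re ≤ Real.log R0} with hS
  have hR0 : 0 < R0 := lt_of_lt_of_le ha (hz.trans hz')
  have hSc : Convex ℝ S := (convex_halfSpace_re_ge _).inter (convex_halfSpace_re_le _)
  have hz0 : 0 < ‖z‖ := lt_of_lt_of_le ha hz
  have hzne : z ≠ 0 := norm_pos_iff.1 hz0
  have hgd : ∀ ζ, HasFDerivAt g ((fderiv ℝ D (Complex.exp ζ)).comp
      ((Complex.exp ζ • (1 : ℂ →L[ℂ] ℂ)).restrictScalars ℝ)) ζ := by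
    intro ζ
    have h1 : HasFDerivAt Complex.exp (Complex.exp ζ • (1 : ℂ →L[ℂ] ℂ)) ζ := by
      have := (Complex.hasDerivAt_exp ζ).hasFDerivAt
      refine this.congr_fderiv ?_
      ext
      simp
    exact (hD _).hasFDerivAt.comp ζ (h1.restrictScalars ℝ)
  have hbd : ∀ ζ ∈ S, ‖(fderiv ℝ D (Complex.exp ζ)).comp
      ((Complex.exp ζ • (1 : ℂ →L[ℂ] ℂ)).restrictScalars ℝ)‖ ≤ b := by
    intro ζ hζ
    have h1 : a0 ≤ ‖Complex.exp ζ‖ := by
      rw [Complex.norm_exp]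
      have := Real.exp_le_exp.2 hζ.1
      rwa [Real.exp_log ha] at this
    have h2 : ‖Complex.exp ζ‖ ≤ R0 := by
      rw [Complex.norm_exp]
      have := Real.exp_le_exp.2 hζ.2
      rwa [Real.exp_log hR0] at this
    have h3 := h _ h1 h2
    have h4 : 0 < ‖Complex.exp ζ‖ := lt_of_lt_of_le ha h1
    refine ContinuousLinearMap.opNorm_le_bound _ hb fun v => ?_
    have h5 : ((fderiv ℝ D (Complex.exp ζ)).comp
      ((Complex.exp ζ • (1 : ℂ →L[ℂ] ℂ)).restrictScalars ℝ)) v =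
        fderiv ℝ D (Complex.exp ζ) (Complex.exp ζ * v) := by simp
    rw [h5]
    refine ((fderiv ℝ D (Complex.exp ζ)).le_opNorm _).trans ?_
    rw [norm_mul, ← mul_assoc]
    refine mul_le_mul_of_nonneg_right ?_ (norm_nonneg _)
    rwa [le_div_iff₀ h4] at h3
  have key := hSc.norm_image_sub_le_of_norm_hasFDerivWithin_le (f := g) (C := b)
    (fun ζ _ => (hgd ζ).hasFDerivWithinAt) hbd (x := (Real.log a0 : ℂ)) (y := Complex.log z)
    ⟨by simp, by simp; exact Real.log_le_log ha (hz.trans hz')⟩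
    ⟨by rw [Complex.log_re]; exact Real.log_le_log ha hz,
      by rw [Complex.log_re]; exact Real.log_le_log hz0 hz'⟩
  have e1 : g (Complex.log z) = D z := by
    rw [hg]
    simp only
    rw [Complex.exp_log hzne]
  have e2 : g (Real.log a0 : ℂ) = 0 := by
    rw [hg]
    simp only
    rw [← Complex.ofReal_exp, Real.exp_log ha, h0]
  rw [e1, e2, sub_zero] at key
  refine key.trans (mul_le_mul_of_nonneg_left ?_ hb)
  have h6 : Complex.log z - Real.log a0 = (Real.log (‖z‖ / a0) : ℝ) + (Complex.arg z : ℝ) * Complex.I := by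
    rw [Real.log_div hz0.ne' ha.ne']
    apply Complex.ext
    · simp [Complex.log_re]
    · simp [Complex.log_im]
  rw [h6]
  refine (norm_add_le _ _).trans ?_
  rw [norm_mul, Complex.norm_I, mul_one, Complex.norm_real, Complex.norm_real, Real.norm_eq_abs,
    Real.norm_eq_abs, abs_of_nonneg (Real.log_nonneg (by rw [le_div_iff₀ ha]; linarith))]
  have := Complex.abs_arg_le_pi z
  linarith

variable {ρ κ L : ℝ} {μ μ' : ℂ → ℂ}

/-- the region where the solutions are conformal -/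
def Uo (ρ L : ℝ) : Set ℂ := {w | ρ < ‖w‖ ∧ ‖w‖ < L / 2}

theorem Uo_open (ρ L : ℝ) : IsOpen (Uo ρ L) :=
  (isOpen_lt continuous_const continuous_norm).inter (isOpen_lt continuous_norm continuous_const)

section

variable (hρ : 0 < ρ) (hL : 4 * ρ ≤ L) (hμ : Adm ρ κ μ) (hκ1 : κ < 1)

include hρ hL hμ hκ1

theorem mL_eq_zero {w : ℂ} (hw : w ∈ Uo ρ L) : mL L μ w = 0 := by
  have h1 : w ∈ Qo L := ball_Qo L (mem_ball_zero_iff.2 hw.2)
  unfold mL
  rw [mt_T (by linarith) μ h1]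
  exact hμ.supp w hw.1.le

theorem hasDerivAt_ph {w : ℂ} (hw : w ∈ Uo ρ L) : HasDerivAt (ph ρ L μ) (1 + aL L μ w) w := by
  have h1 : HasFDerivAt (ph ρ L μ) (fderiv ℝ (ph ρ L μ) w) w :=
    ((ph_smooth hρ hL hμ hκ1).differentiable (by simp) w).hasFDerivAt
  rw [hasDerivAt_iff_hasFDerivAt]
  refine hasFDerivAt_of_restrictScalars ℝ h1 ?_
  ext v
  rw [ph_apply hρ hL hμ hκ1, mL_eq_zero hρ hL hμ hκ1 hw]
  simp [mul_comm]

theorem aL_holo : DifferentiableOn ℂ (aL L μ) (Uo ρ L) := by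
  have h1 : DifferentiableOn ℂ (ph ρ L μ) (Uo ρ L) := fun w hw =>
    (hasDerivAt_ph hρ hL hμ hκ1 hw).differentiableAt.differentiableWithinAt
  have h2 := (h1.deriv (Uo_open ρ L)).sub_const 1
  refine h2.congr fun w hw => ?_
  rw [(hasDerivAt_ph hρ hL hμ hκ1 hw).deriv]
  ring

theorem mL_zero_Qc {w : ℂ} (hw : w ∈ Qc L) (hw' : ρ ≤ ‖w‖) : mL L μ w = 0 := by
  have hL0 : 0 < L := by linarith
  by_cases h1 : w ∈ Qo L
  · unfold mL
    rw [mt_T hL0 μ h1]
    exact hμ.supp w hw'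
  · have h2 : ∃ i, Int.fract (T L w i) = 0 := by
      have e : ∀ t : ℝ, |t| = L / 2 → Int.fract (t / L + 1 / 2) = 0 := by
        intro t ht
        rcases abs_eq (by linarith) |>.1 ht with h | h
        · have : t / L + 1 / 2 = ((1 : ℤ) : ℝ) := by
            rw [h]; field_simp; norm_num
          rw [this]
          exact Int.fract_intCast 1
        · have : t / L + 1 / 2 = ((0 : ℤ) : ℝ) := by
            rw [h]; field_simp; norm_num
          rw [this]
          exact Int.fract_intCast 0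
      by_cases h3 : |w.re| < L / 2
      · have h4 : ¬ |w.im| < L / 2 := fun h => h1 ⟨h3, h⟩
        exact ⟨1, e w.im (le_antisymm hw.2 (not_lt.1 h4))⟩
      · exact ⟨0, e w.re (le_antisymm hw.1 (not_lt.1 h3))⟩
    obtain ⟨i, hi⟩ := h2
    unfold mL mt perE
    apply hμ.supp
    have h3 : L / 2 ≤ ‖Ti L fun i => Int.fract (T L w i)‖ := by
      fin_cases i
      · refine le_trans ?_ (Complex.abs_re_le_norm _)
        have h4 : (Ti L fun i => Int.fract (T L w i)).re = L * (Int.fract (T L w 0) - 1 / 2) := rfl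
        have hi' : Int.fract (T L w 0) = 0 := hi
        rw [h4, hi', abs_mul, abs_of_pos hL0]
        norm_num
        linarith
      · refine le_trans ?_ (Complex.abs_im_le_norm _)
        have h4 : (Ti L fun i => Int.fract (T L w i)).im = L * (Int.fract (T L w 1) - 1 / 2) := rfl
        have hi' : Int.fract (T L w 1) = 0 := hi
        rw [h4, hi', abs_mul, abs_of_pos hL0]
        norm_num
        linarith
    linarith

theorem intOn {f : ℂ → ℝ} (hf : Continuous f) : IntegrableOn f (Qc L) :=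
  hf.continuousOn.integrableOn_compact (Qc_compact L)

theorem mL_smooth : ContDiff ℝ (⊤ : ℕ∞) (mL L μ) := (sp_mt hρ hL hμ).smooth.comp (T_smooth L)

theorem m_sq : ∫ z in Qc L, ‖mL L μ z‖ ^ 2 ≤ Real.pi * κ ^ 2 * ρ ^ 2 := by
  have hκ0 : 0 ≤ κ := (norm_nonneg _).trans (hμ.bdd 0)
  have h1 : ∫ z in Qc L, ‖mL L μ z‖ ^ 2 = ∫ z in ball (0 : ℂ) ρ, ‖mL L μ z‖ ^ 2 := by
    have hsub : ball (0 : ℂ) ρ ⊆ Qc L := fun z hz =>
      Qo_Qc L (ball_Qo L (ball_subset_ball (by linarith) hz))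
    refine setIntegral_eq_of_subset_of_forall_sdiff_eq_zero (Qc_compact L).measurableSet
      hsub fun z hz => ?_
    have h2 : ρ ≤ ‖z‖ := by
      have := hz.2
      rw [mem_ball_zero_iff, not_lt] at this
      exact this
    rw [mL_zero_Qc hρ hL hμ hκ1 hz.1 h2]
    simp
  rw [h1]
  have h2 : ∫ z in ball (0 : ℂ) ρ, ‖mL L μ z‖ ^ 2 ≤ ∫ z in ball (0 : ℂ) ρ, κ ^ 2 := by
    refine setIntegral_mono_on ?_ ?_ measurableSet_ball fun z _ => ?_
    · exact (((mL_smooth hρ hL hμ hκ1).continuous.norm.pow 2).continuousOn.integrableOn_compact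
        (isCompact_closedBall (0 : ℂ) ρ)).mono_set ball_subset_closedBall
    · exact (continuousOn_const.integrableOn_compact
        (isCompact_closedBall (0 : ℂ) ρ)).mono_set ball_subset_closedBall
    · exact pow_le_pow_left₀ (norm_nonneg _) (norm_mL hρ hL hμ hκ1 z) 2
  refine h2.trans (le_of_eq ?_)
  rw [setIntegral_const, Measure.real, Complex.volume_ball, smul_eq_mul, ENNReal.toReal_mul,
    ENNReal.toReal_pow, ENNReal.toReal_ofReal hρ.le, ENNReal.coe_toReal, NNReal.coe_real_pi]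
  ring

end

/-- the zero coefficient -/
theorem adm_zero {κ : ℝ} (hκ : 0 ≤ κ) : Adm ρ κ (fun _ => 0) where
  smooth := contDiff_const
  supp := fun _ _ => rfl
  bdd := fun _ => by rw [norm_zero]; exact hκ

theorem aL_zero (z : ℂ) : aL L (fun _ => 0) z = 0 := by
  have : mt L (fun _ => 0) = fun _ => 0 := rfl
  unfold aL
  rw [this, aB_zero]

theorem mL_zero (z : ℂ) : mL L (fun _ => 0) z = 0 := rfl

theorem ph_zero (z : ℂ) : ph ρ L (fun _ => 0) z = z := by
  have h1 : mt L (fun _ => 0) = fun _ => 0 := rfl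
  have h2 : wB (fun _ : Helper597_fou.E 1 => (0 : ℂ)) = fun _ => 0 := by
    funext x
    unfold wB
    ring
  have h3 : ∀ z, ph0 L (fun _ => 0) z = z := by
    intro z
    unfold ph0 cL
    rw [h1, h2, Helper597_fou.mul_zero', Helper597_fou.fc_const]
    simp
  unfold ph
  rw [h3, h3]
  ring

/-- the energy of the difference of the data -/
def en (L : ℝ) (μ μ' : ℂ → ℂ) : ℝ :=
  ∫ z in Qc L, ‖mL L μ z * (1 + aL L μ z) - mL L μ' z * (1 + aL L μ' z)‖ ^ 2

section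

variable (hρ : 0 < ρ) (hL : 4 * ρ ≤ L) (hμ : Adm ρ (1 / 40) μ) (hμ' : Adm ρ (1 / 40) μ')

include hρ hL hμ

/-- the energy of a solution -/
theorem en_a (hκ : Adm ρ κ μ) (hκ0 : κ ≤ 1 / 40) : ∫ z in Qc L, ‖aL L μ z‖ ^ 2 ≤ 7 * κ ^ 2 * ρ ^ 2 ∧
    en L μ (fun _ => 0) ≤ 7 * κ ^ 2 * ρ ^ 2 := by
  have hκn : 0 ≤ κ := (norm_nonneg _).trans (hκ.bdd 0)
  have hκ1 : κ < 1 := by linarith
  have h1 := energyL hρ hL hκ (adm_zero (ρ := ρ) hκn) hκ1
  have h2 := m_sq hρ hL hκ hκ1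
  have hac := (aL_smooth hρ hL hκ hκ1).continuous
  have hmc := (mL_smooth hρ hL hκ hκ1).continuous
  simp only [aL_zero, mL_zero, sub_zero, zero_mul] at h1
  set A := ∫ z in Qc L, ‖aL L μ z‖ ^ 2 with hA
  have h3 : ∫ z in Qc L, ‖mL L μ z * (1 + aL L μ z)‖ ^ 2 ≤
      2 * (∫ z in Qc L, ‖mL L μ z‖ ^ 2) + 2 * κ ^ 2 * A := by
    have hi1 : IntegrableOn (fun z => 2 * ‖mL L μ z‖ ^ 2) (Qc L) :=
      intOn hρ hL hκ hκ1 (continuous_const.mul (hmc.norm.pow 2))
    have hi2 : IntegrableOn (fun z => 2 * κ ^ 2 * ‖aL L μ z‖ ^ 2) (Qc L) :=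
      intOn hρ hL hκ hκ1 (continuous_const.mul (hac.norm.pow 2))
    rw [hA, ← integral_const_mul, ← integral_const_mul, ← integral_add hi1 hi2]
    refine setIntegral_mono_on ?_ (hi1.add hi2) (Qc_compact L).measurableSet fun z _ => ?_
    · exact intOn hρ hL hκ hκ1 ((hmc.mul (continuous_const.add hac)).norm.pow 2)
    · have h4 := norm_mL hρ hL hκ hκ1 (L := L) z
      have h5 : ‖mL L μ z * (1 + aL L μ z)‖ ≤ ‖mL L μ z‖ + κ * ‖aL L μ z‖ := by
        rw [norm_mul]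
        have h6 := norm_add_le (1 : ℂ) (aL L μ z)
        rw [norm_one] at h6
        have h7 := norm_nonneg (mL L μ z)
        have h8 := norm_nonneg (aL L μ z)
        nlinarith
      have h6 := norm_nonneg (mL L μ z * (1 + aL L μ z))
      have h7 := norm_nonneg (mL L μ z)
      have h8 := norm_nonneg (aL L μ z)
      have h9 : ‖mL L μ z * (1 + aL L μ z)‖ ^ 2 ≤ (‖mL L μ z‖ + κ * ‖aL L μ z‖) ^ 2 :=
        pow_le_pow_left₀ h6 h5 2
      nlinarith [sq_nonneg (‖mL L μ z‖ - κ * ‖aL L μ z‖)]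
  have hA0 : 0 ≤ A := integral_nonneg fun _ => sq_nonneg _
  have hpi := Real.pi_lt_d2
  have hpi0 := Real.pi_pos
  have hk2 : κ ^ 2 ≤ 1 / 1600 := by nlinarith
  have h4 : A ≤ 2 * (Real.pi * κ ^ 2 * ρ ^ 2) + 2 * κ ^ 2 * A := by linarith
  have h5 : 0 ≤ κ ^ 2 * ρ ^ 2 := by positivity
  have h6 : A ≤ 7 * κ ^ 2 * ρ ^ 2 := by nlinarith
  refine ⟨h6, ?_⟩
  unfold en
  simp only [mL_zero, zero_mul, sub_zero]
  nlinarith

include hμ'

/-- pointwise estimates for the difference of two solutions, away from the support -/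
theorem a_bound {N : ℝ} (hN : 0 ≤ N) (hη : ∫ z in Qc L, ‖aL L μ z - aL L μ' z‖ ^ 2 ≤ N ^ 2) {z : ℂ}
    (hz : 2 * ρ ≤ ‖z‖) (hz' : ‖z‖ ≤ L / 4) : ‖aL L μ z - aL L μ' z‖ ≤ (6 / 5 * N) / ‖z‖ := by
  have hκ1 : (1 / 40 : ℝ) < 1 := by norm_num
  set A : ℂ → ℂ := fun z => aL L μ z - aL L μ' z with hA
  have hAc : Continuous A :=
    (aL_smooth hρ hL hμ hκ1).continuous.sub (aL_smooth hρ hL hμ' hκ1).continuous
  have hR : 0 < ‖z‖ - ρ := by linarith
  have hsub : ball z (‖z‖ - ρ) ⊆ Uo ρ L := by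
    intro w hw
    rw [mem_ball, dist_eq_norm] at hw
    constructor
    · have := norm_sub_norm_le z w
      rw [norm_sub_rev] at this
      linarith
    · have := norm_sub_norm_le w z
      linarith
  have hsub2 : ball z (‖z‖ - ρ) ⊆ Qc L := fun w hw =>
    Qo_Qc L (ball_Qo L (mem_ball_zero_iff.2 (hsub hw).2))
  have h1 := mean_sq hAc hR (((aL_holo hρ hL hμ hκ1).sub (aL_holo hρ hL hμ' hκ1)).mono hsub)
  have h2 : ∫ w in ball z (‖z‖ - ρ), ‖A w‖ ^ 2 ≤ N ^ 2 := by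
    refine le_trans (setIntegral_mono_set ?_ ?_ hsub2.eventuallyLE) hη
    · exact intOn hρ hL hμ hκ1 (hAc.norm.pow 2)
    · exact Eventually.of_forall fun z => sq_nonneg _
  have h3 : ‖z‖ / 2 ≤ ‖z‖ - ρ := by linarith
  have hz0 : 0 < ‖z‖ := by linarith
  have h4 : ‖A z‖ ^ 2 * (Real.pi * (‖z‖ / 2) ^ 2) ≤ N ^ 2 := by
    refine le_trans ?_ (h1.trans h2)
    have : (‖z‖ / 2) ^ 2 ≤ (‖z‖ - ρ) ^ 2 := pow_le_pow_left₀ (by positivity) h3 2
    have := Real.pi_pos
    gcongr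
  have hpi := Real.pi_gt_d2
  rw [le_div_iff₀ hz0]
  have h5 : (‖A z‖ * ‖z‖) ^ 2 ≤ (6 / 5 * N) ^ 2 := by
    have h6 : 0 ≤ ‖A z‖ ^ 2 * ‖z‖ ^ 2 := by positivity
    nlinarith
  exact (abs_le_of_sq_le_sq' h5 (by positivity)).2

theorem fderiv_sub_Uo {z : ℂ} (hz : z ∈ Uo ρ L) :
    ‖fderiv ℝ (fun z => ph ρ L μ z - ph ρ L μ' z) z‖ ≤ ‖aL L μ z - aL L μ' z‖ := by
  have hκ1 : (1 / 40 : ℝ) < 1 := by norm_num
  have hd := (ph_smooth hρ hL hμ hκ1).differentiable (by simp)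
  have hd' := (ph_smooth hρ hL hμ' hκ1).differentiable (by simp)
  refine ContinuousLinearMap.opNorm_le_bound _ (norm_nonneg _) fun v => ?_
  have e : fderiv ℝ (fun z => ph ρ L μ z - ph ρ L μ' z) z =
      fderiv ℝ (ph ρ L μ) z - fderiv ℝ (ph ρ L μ') z := fderiv_sub (hd z) (hd' z)
  rw [e, _root_.sub_apply, ph_apply hρ hL hμ hκ1,
    ph_apply hρ hL hμ' hκ1, mL_eq_zero hρ hL hμ hκ1 hz, mL_eq_zero hρ hL hμ' hκ1 hz, ← norm_mul]
  refine le_of_eq (congrArg _ ?_)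
  ring

theorem ph_norm (μ : ℂ → ℂ) : ph ρ L μ (2 * ρ : ℝ) = (2 * ρ : ℝ) := by
  unfold ph
  ring

/-- the difference of two solutions, away from the support -/
theorem ph_bound {N : ℝ} (hN : 0 ≤ N) (hη : ∫ z in Qc L, ‖aL L μ z - aL L μ' z‖ ^ 2 ≤ N ^ 2) {z : ℂ}
    (hz : 2 * ρ ≤ ‖z‖) (hz' : ‖z‖ ≤ L / 4) :
    ‖ph ρ L μ z - ph ρ L μ' z‖ ≤ (2 * N / ρ) * ‖z‖ := by
  have hκ1 : (1 / 40 : ℝ) < 1 := by norm_num
  have hd := (ph_smooth hρ hL hμ hκ1).differentiable (by simp)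
  have hd' := (ph_smooth hρ hL hμ' hκ1).differentiable (by simp)
  have h1 := path (D := fun z => ph ρ L μ z - ph ρ L μ' z) (hd.sub hd') (a0 := 2 * ρ) (R0 := L / 4)
    (b := 6 / 5 * N) (by linarith) (by positivity) (fun w hw hw' => by
      refine (fderiv_sub_Uo hρ hL hμ hμ' ⟨by linarith, by linarith⟩).trans ?_
      exact a_bound hρ hL hμ hμ' hN hη hw hw') (by
        show ph ρ L μ (2 * ρ : ℝ) - ph ρ L μ' (2 * ρ : ℝ) = 0
        rw [ph_norm hρ hL hμ hμ', ph_norm hρ hL hμ hμ', sub_self]) hz hz'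
  refine h1.trans ?_
  set x := ‖z‖ / (2 * ρ) with hx
  have hx1 : 1 ≤ x := by rw [hx, le_div_iff₀ (by linarith)]; linarith
  have h2 : Real.log x ≤ x - 1 := Real.log_le_sub_one_of_pos (by linarith)
  have h3 := Real.pi_lt_d2
  have h4 : ‖z‖ = 2 * ρ * x := by rw [hx]; field_simp
  rw [h4]
  have h5 : 2 * N / ρ * (2 * ρ * x) = 4 * N * x := by field_simp; ring
  rw [h5]
  have h6 : 0 ≤ N * x := by positivity
  nlinarith

end

end Pool.Agent.Helper23S
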