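import Pool.Agent.Helper23S.Est

/-!
# Estimates for the solutions and their inverses
-/

set_option autoImplicit false
set_option linter.unusedSectionVars false

open MeasureTheory Set Filter Topology Metric

noncomputable section

namespace Pool.Agent.Helper23S

open Pool.Agent.Split938 (dbar)

/-- the determinant of a real linear map of the plane -/
theorem det_bound (A : ℂ →L[ℝ] ℂ) {c : ℝ} (h : ‖A‖ ≤ c) : |A.det| ≤ c ^ 2 := by
  have h1 : A.det = (A 1).re * (A Complex.I).im - (A Complex.I).re * (A 1).im := by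
    have : A.det = LinearMap.det (A : ℂ →ₗ[ℝ] ℂ) := rfl
    rw [this, ← LinearMap.det_toMatrix Complex.basisOneI, Matrix.det_fin_two]
    simp [LinearMap.toMatrix_apply]
  have hA1 : ‖A 1‖ ≤ ‖A‖ := by
    have := A.le_opNorm 1
    rwa [norm_one, mul_one] at this
  have hAI : ‖A Complex.I‖ ≤ ‖A‖ := by
    have := A.le_opNorm Complex.I
    rwa [Complex.norm_I, mul_one] at this
  have h2 : A.det = -(A 1 * (starRingEnd ℂ) (A Complex.I)).im := by
    rw [h1]
    simp only [Complex.mul_im, Complex.conj_re, Complex.conj_im]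
    ring
  rw [h2, abs_neg]
  refine (Complex.abs_im_le_norm _).trans ?_
  rw [norm_mul, RCLike.norm_conj, sq]
  exact mul_le_mul (hA1.trans h) (hAI.trans h) (norm_nonneg _) ((norm_nonneg _).trans h)

variable {ρ κ L : ℝ} {μ μ' : ℂ → ℂ}

section

variable (hρ : 0 < ρ) (hL : 8 * ρ ≤ L) (hμ : Adm ρ κ μ) (hκ : κ ≤ 1 / 40)

include hρ hL hμ hκ

theorem Adm.mono {κ' : ℝ} (h : κ ≤ κ') : Adm ρ κ' μ := ⟨hμ.smooth, hμ.supp, fun z => (hμ.bdd z).trans h⟩

theorem ph_far {z : ℂ} (hz : 2 * ρ ≤ ‖z‖) (hz' : ‖z‖ ≤ L / 4) : ‖ph ρ L μ z - z‖ ≤ 6 * κ * ‖z‖ := by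
  have hκ0 : 0 ≤ κ := (norm_nonneg _).trans (hμ.bdd 0)
  have hL' : 4 * ρ ≤ L := by linarith
  have hμ1 : Adm ρ (1 / 40) μ := Adm.mono hρ hL hμ hκ hκ
  have h1 := (en_a hρ hL' hμ1 hμ hκ).1
  have h2 := ph_bound hρ hL' hμ1 (adm_zero (by norm_num)) (N := 3 * κ * ρ) (by positivity) (by
    simp only [aL_zero, sub_zero]
    refine h1.trans ?_
    nlinarith [sq_nonneg (κ * ρ)]) hz hz'
  rw [ph_zero] at h2
  refine h2.trans (le_of_eq ?_)
  field_simp
  ring

theorem exists_homeo : ∃ e : ℂ ≃ₜ ℂ, (⇑e = ph ρ L μ) ∧ ContDiff ℝ (⊤ : ℕ∞) e.symm := by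
  have hκ1 : κ < 1 := by linarith
  have hL' : 4 * ρ ≤ L := by linarith
  obtain ⟨m, hm, h⟩ := ph_lower hρ hL' hμ hκ1
  exact glob (ph_smooth hρ hL' hμ hκ1) hm h

theorem ph_near {z : ℂ} (hz : ‖z‖ ≤ 2 * ρ) : ‖ph ρ L μ z‖ ≤ 5 / 2 * ρ := by
  obtain ⟨e, he, -⟩ := exists_homeo hρ hL hμ hκ
  have h := topo e (z0 := 0) (w := 0) (t := 2 * ρ) (om := 5 / 2 * ρ) (by linarith) (fun w hw => by
    rw [dist_zero_right] at hw ⊢
    rw [he]
    have h1 := ph_far hρ hL hμ hκ (z := w) hw.ge (by linarith)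
    have h2 := norm_sub_norm_le (ph ρ L μ w) w
    have h3 : 6 * κ * ‖w‖ ≤ 6 * (1 / 40) * ‖w‖ := by gcongr
    rw [hw] at h1 h2 h3
    linarith) z (by rw [dist_zero_right]; exact hz)
  rw [dist_zero_right, he] at h
  exact h

/-- the growth of the solution -/
theorem ph_growth {z : ℂ} (hz : ‖z‖ ≤ L / 4) : ‖ph ρ L μ z‖ ≤ 5 / 4 * ‖z‖ + 5 / 2 * ρ := by
  rcases le_total ‖z‖ (2 * ρ) with h | h
  · have := ph_near hρ hL hμ hκ h
    have := norm_nonneg z
    linarith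
  · have h1 := ph_far hρ hL hμ hκ h hz
    have h2 := norm_sub_norm_le (ph ρ L μ z) z
    have h3 : 6 * κ * ‖z‖ ≤ 6 * (1 / 40) * ‖z‖ := by gcongr
    have := norm_nonneg z
    linarith

theorem inv_far {e : ℂ ≃ₜ ℂ} (he : ⇑e = ph ρ L μ) {t : ℝ} (ht : 4 * ρ ≤ t) (ht' : t ≤ L / 4) {w : ℂ}
    (hw : ‖w‖ < 3 / 4 * t) : ‖e.symm w‖ < t := by
  have h := topo2 e (z0 := 0) (w := 0) (z1 := (2 * ρ : ℝ)) (t := t) (r := 3 / 4 * t) (fun z hz => by
    rw [dist_zero_right] at hz ⊢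
    rw [he]
    have h1 := ph_far hρ hL hμ hκ (z := z) (by linarith) (by linarith)
    have h2 := norm_sub_norm_le z (ph ρ L μ z)
    rw [norm_sub_rev] at h2
    have h3 : 6 * κ * ‖z‖ ≤ 6 * (1 / 40) * ‖z‖ := by gcongr
    rw [hz] at h1 h2 h3
    linarith) (by
      rw [dist_zero_right, Complex.norm_real, Real.norm_eq_abs, abs_of_pos (by linarith)]
      linarith) (by
      rw [dist_zero_right, he]
      have : ph ρ L μ (2 * ρ : ℝ) = (2 * ρ : ℝ) := by unfold ph; ring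
      rw [this, Complex.norm_real, Real.norm_eq_abs, abs_of_pos (by linarith)]
      linarith) w (by rw [dist_zero_right]; exact hw)
  rwa [dist_zero_right] at h

theorem fderiv_ph_norm (z : ℂ) : ‖fderiv ℝ (ph ρ L μ) z‖ ≤ 41 / 40 * ‖1 + aL L μ z‖ := by
  have hκ1 : κ < 1 := by linarith
  have hL' : 4 * ρ ≤ L := by linarith
  refine ContinuousLinearMap.opNorm_le_bound _ (by positivity) fun v => ?_
  rw [ph_apply hρ hL' hμ hκ1, norm_mul]
  have h1 := norm_add_conj_le (κ := κ) (v := v) hρ hL' hμ hκ1 (norm_mL hρ hL' hμ hκ1 z)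
  have h2 := norm_nonneg (1 + aL L μ z)
  have h3 := norm_nonneg v
  calc ‖1 + aL L μ z‖ * ‖v + mL L μ z * (starRingEnd ℂ) v‖
      ≤ ‖1 + aL L μ z‖ * (41 / 40 * ‖v‖) := by
        refine mul_le_mul_of_nonneg_left (h1.trans ?_) h2
        exact mul_le_mul_of_nonneg_right (by linarith) h3
    _ = _ := by ring

/-- the energy on unit discs -/
theorem ph_energy {z0 : ℂ} (hz : ‖z0‖ + 1 ≤ L / 2) :
    ∫ z in ball z0 1, ‖fderiv ℝ (ph ρ L μ) z‖ ^ 2 ≤ 7 + ρ ^ 2 := by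
  have hκ0 : 0 ≤ κ := (norm_nonneg _).trans (hμ.bdd 0)
  have hκ1 : κ < 1 := by linarith
  have hL' : 4 * ρ ≤ L := by linarith
  have hμ1 : Adm ρ (1 / 40) μ := Adm.mono hρ hL hμ hκ hκ
  have hE := (en_a hρ hL' hμ1 hμ hκ).1
  have hac := (aL_smooth hρ hL' hμ hκ1).continuous
  have hfc : Continuous fun z => ‖fderiv ℝ (ph ρ L μ) z‖ ^ 2 :=
    ((ph_smooth hρ hL' hμ hκ1).continuous_fderiv (by simp)).norm.pow 2
  have hsub : ball z0 1 ⊆ Qc L := by
    intro w hw
    rw [mem_ball, dist_eq_norm] at hw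
    refine Qo_Qc L (ball_Qo L (mem_ball_zero_iff.2 ?_))
    have := norm_sub_norm_le w z0
    linarith
  have hi : ∀ {f : ℂ → ℝ}, Continuous f → IntegrableOn f (ball z0 1) := fun hf =>
    (hf.continuousOn.integrableOn_compact (isCompact_closedBall z0 1)).mono_set
      ball_subset_closedBall
  have h1 : ∫ z in ball z0 1, ‖fderiv ℝ (ph ρ L μ) z‖ ^ 2 ≤
      ∫ z in ball z0 1, (2.2 + 2.2 * ‖aL L μ z‖ ^ 2) := by
    refine setIntegral_mono_on (hi hfc) (hi (by fun_prop)) measurableSet_ball fun z _ => ?_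
    have h2 := fderiv_ph_norm hρ hL hμ hκ z
    have h3 := norm_add_le (1 : ℂ) (aL L μ z)
    rw [norm_one] at h3
    have h4 : ‖fderiv ℝ (ph ρ L μ) z‖ ≤ 41 / 40 * (1 + ‖aL L μ z‖) := by linarith
    have h5 := pow_le_pow_left₀ (norm_nonneg _) h4 2
    nlinarith [sq_nonneg (1 - ‖aL L μ z‖)]
  refine h1.trans ?_
  have hc1 : IntegrableOn (fun _ : ℂ => (2.2 : ℝ)) (ball z0 1) := hi continuous_const
  have hc2 : IntegrableOn (fun z : ℂ => 2.2 * ‖aL L μ z‖ ^ 2) (ball z0 1) := hi (by fun_prop)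
  rw [integral_add hc1 hc2, integral_const_mul, setIntegral_const, Measure.real,
    Complex.volume_ball]
  simp only [ENNReal.ofReal_one, one_pow, one_mul, ENNReal.coe_toReal, NNReal.coe_real_pi,
    smul_eq_mul]
  have h2 : ∫ z in ball z0 1, ‖aL L μ z‖ ^ 2 ≤ 7 * κ ^ 2 * ρ ^ 2 := by
    refine le_trans (setIntegral_mono_set ?_ ?_ hsub.eventuallyLE) hE
    · exact intOn hρ hL' hμ hκ1 (hac.norm.pow 2)
    · exact Eventually.of_forall fun z => sq_nonneg _
  have h3 := Real.pi_lt_d2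
  have h4 : κ ^ 2 ≤ 1 / 1600 := by nlinarith
  have h5 : κ ^ 2 * ρ ^ 2 ≤ 1 / 1600 * ρ ^ 2 := mul_le_mul_of_nonneg_right h4 (sq_nonneg _)
  have h6 := sq_nonneg ρ
  nlinarith

/-- the energy of the inverse on unit discs -/
theorem inv_energy {e : ℂ ≃ₜ ℂ} (he : ⇑e = ph ρ L μ) (hes : ContDiff ℝ (⊤ : ℕ∞) e.symm) {t : ℝ}
    (ht : 4 * ρ ≤ t) (ht' : t ≤ L / 4) {w0 : ℂ} (hw : ‖w0‖ + 1 ≤ 3 / 4 * t) :
    ∫ w in ball w0 1, ‖fderiv ℝ e.symm w‖ ^ 2 ≤ 4 * t ^ 2 := by
  have hκ0 : 0 ≤ κ := (norm_nonneg _).trans (hμ.bdd 0)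
  have hκ1 : κ < 1 := by linarith
  have hL' : 4 * ρ ≤ L := by linarith
  set s : Set ℂ := e ⁻¹' ball w0 1 with hs
  have hso : IsOpen s := isOpen_ball.preimage e.continuous
  have himg : ph ρ L μ '' s = ball w0 1 := by
    rw [← he, hs, image_preimage_eq _ e.surjective]
  have hd := (ph_smooth hρ hL' hμ hκ1).differentiable (by simp)
  have hds := hes.differentiable (by simp)
  have h1 := integral_image_eq_integral_abs_det_fderiv_smul volume hso.measurableSet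
    (fun z _ => (hd z).hasFDerivAt.hasFDerivWithinAt) (by rw [← he]; exact e.injective.injOn)
    (fun w => ‖fderiv ℝ e.symm w‖ ^ 2)
  rw [himg] at h1
  rw [h1]
  have hsub : s ⊆ ball 0 t := by
    intro z hz
    have h2 : ‖e z‖ < 3 / 4 * t := by
      have h3 : ‖e z - w0‖ < 1 := by rw [← dist_eq_norm]; exact hz
      have := norm_sub_norm_le (e z) w0
      linarith
    have h3 := inv_far hρ hL hμ hκ he ht ht' h2
    rw [e.symm_apply_apply] at h3
    exact mem_ball_zero_iff.2 h3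
  have hvol : volume s < ⊤ := lt_of_le_of_lt (measure_mono hsub) measure_ball_lt_top
  have hpt : ∀ z, |(fderiv ℝ (ph ρ L μ) z).det| • ‖fderiv ℝ e.symm (ph ρ L μ z)‖ ^ 2 ≤ 1.2 := by
    intro z
    set p := ‖1 + aL L μ z‖ with hp
    have hp0 : 0 < p := norm_pos_iff.2 (one_add_ne hρ hL' hμ hκ1 z)
    have h2 := det_bound _ (fderiv_ph_norm hρ hL hμ hκ z)
    have h3 : ‖fderiv ℝ e.symm (ph ρ L μ z)‖ ≤ 40 / (39 * p) := by
      refine ContinuousLinearMap.opNorm_le_bound _ (by positivity) fun w => ?_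
      set v := fderiv ℝ e.symm (ph ρ L μ z) w with hv
      have h4 : fderiv ℝ (ph ρ L μ) z v = w := by
        have h5 : HasFDerivAt (fun w => ph ρ L μ (e.symm w))
            ((fderiv ℝ (ph ρ L μ) z).comp (fderiv ℝ e.symm (ph ρ L μ z))) (ph ρ L μ z) := by
          have h6 : e.symm (ph ρ L μ z) = z := by rw [← he]; exact e.symm_apply_apply z
          have h7 : HasFDerivAt (ph ρ L μ) (fderiv ℝ (ph ρ L μ) z) (e.symm (ph ρ L μ z)) := by
            rw [h6]; exact (hd z).hasFDerivAt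
          exact h7.comp _ (hds _).hasFDerivAt
        have h6 : (fun w => ph ρ L μ (e.symm w)) = id := by
          funext w
          rw [← he]
          exact e.apply_symm_apply w
        rw [h6] at h5
        have h7 := h5.unique (hasFDerivAt_id _)
        have h8 := congrArg (fun A : ℂ →L[ℝ] ℂ => A w) h7
        exact h8
      have h5 : 39 / 40 * p * ‖v‖ ≤ ‖w‖ := by
        rw [← h4, ph_apply hρ hL' hμ hκ1, norm_mul]
        have h6 := norm_add_conj_ge (κ := κ) (v := v) hρ hL' hμ hκ1 (norm_mL hρ hL' hμ hκ1 z)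
        have h7 : 39 / 40 * ‖v‖ ≤ (1 - κ) * ‖v‖ :=
          mul_le_mul_of_nonneg_right (by linarith) (norm_nonneg _)
        calc 39 / 40 * p * ‖v‖ = p * (39 / 40 * ‖v‖) := by ring
          _ ≤ _ := mul_le_mul_of_nonneg_left (h7.trans h6) hp0.le
      rw [div_mul_eq_mul_div, le_div_iff₀ (by positivity)]
      linarith
    rw [smul_eq_mul]
    have h4 : ‖fderiv ℝ e.symm (ph ρ L μ z)‖ ^ 2 ≤ (40 / (39 * p)) ^ 2 :=
      pow_le_pow_left₀ (norm_nonneg _) h3 2
    calc |(fderiv ℝ (ph ρ L μ) z).det| * ‖fderiv ℝ e.symm (ph ρ L μ z)‖ ^ 2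
        ≤ (41 / 40 * p) ^ 2 * (40 / (39 * p)) ^ 2 :=
          mul_le_mul h2 h4 (sq_nonneg _) (by positivity)
      _ = (41 / 39) ^ 2 := by field_simp
      _ ≤ 1.2 := by norm_num
  have h2 : ∫ z in s, |(fderiv ℝ (ph ρ L μ) z).det| • ‖fderiv ℝ e.symm (ph ρ L μ z)‖ ^ 2 ≤
      ∫ z in s, (1.2 : ℝ) := by
    have hcont : Continuous fun z => |(fderiv ℝ (ph ρ L μ) z).det| •
        ‖fderiv ℝ e.symm (ph ρ L μ z)‖ ^ 2 := by
      have c1 : Continuous (fderiv ℝ (ph ρ L μ)) :=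
        (ph_smooth hρ hL' hμ hκ1).continuous_fderiv (by simp)
      have c2 : Continuous fun z => fderiv ℝ e.symm (ph ρ L μ z) :=
        (hes.continuous_fderiv (by simp)).comp (ph_smooth hρ hL' hμ hκ1).continuous
      exact ((ContinuousLinearMap.continuous_det.comp c1).abs).smul (c2.norm.pow 2)
    refine setIntegral_mono_on ?_ ?_ hso.measurableSet fun z _ => hpt z
    · exact (hcont.continuousOn.integrableOn_compact (isCompact_closedBall (0 : ℂ) t)).mono_set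
        (hsub.trans ball_subset_closedBall)
    · exact (continuousOn_const.integrableOn_compact (isCompact_closedBall (0 : ℂ) t)).mono_set
        (hsub.trans ball_subset_closedBall)
  refine h2.trans ?_
  rw [setIntegral_const, smul_eq_mul]
  have ht0 : 0 < t := by linarith
  have h3 : volume.real s ≤ Real.pi * t ^ 2 := by
    have h4 : volume.real s ≤ volume.real (ball (0 : ℂ) t) :=
      measureReal_mono hsub measure_ball_lt_top.ne
    refine h4.trans (le_of_eq ?_)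
    rw [Measure.real, Complex.volume_ball, ENNReal.toReal_mul, ENNReal.toReal_pow,
      ENNReal.toReal_ofReal ht0.le, ENNReal.coe_toReal, NNReal.coe_real_pi]
    ring
  have h4 := Real.pi_lt_d2
  nlinarith [sq_nonneg t]

end

/-! ### Moduli of continuity -/

theorem om_small (E : ℝ) (hE : 0 ≤ E) {ε : ℝ} (hε : 0 < ε) :
    ∃ r : ℝ, 0 < r ∧ r < 1 ∧ 8 * Real.sqrt ((E + 1) / Real.log (1 / r)) ≤ ε := by
  set A : ℝ := (E + 1) / (ε / 8) ^ 2 with hA
  have hA0 : 0 < A := by positivity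
  refine ⟨Real.exp (-A), Real.exp_pos _, by
    rw [← Real.exp_zero]; exact Real.exp_lt_exp.2 (by linarith), ?_⟩
  have h1 : Real.log (1 / Real.exp (-A)) = A := by
    rw [one_div, ← Real.exp_neg, neg_neg, Real.log_exp]
  rw [h1]
  have h2 : (E + 1) / A = (ε / 8) ^ 2 := by
    rw [hA]
    field_simp
  rw [h2, Real.sqrt_sq (by positivity)]
  linarith

end Pool.Agent.Helper23S
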