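import Pool.Agent.Helper23S.MainQ
import Pool.Agent.W757.RD.End

/-!
# The distance of a polynomial to the hyperbolic polynomials and the area of the Julia set
-/

set_option autoImplicit false
set_option linter.unusedSectionVars false

open MeasureTheory Set Filter Topology Metric
open scoped OnePoint

noncomputable section

namespace Pool.Agent.Helper23S

open Pool.Agent.H790R3.RB (CV hF ND sp pr hc pol HypTop PQ SP)
open Pool.Agent.W757.RF (sarea JS)

theorem log_rpow_bound {x s : ℝ} (hx : 0 < x) (hx1 : x ≤ 1) (hs1 : s < 1) :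
    x * (1 + Real.log (1 / x)) ≤ (1 + 1 / (1 - s)) * x ^ s := by
  have h1 : 0 < 1 - s := by linarith
  have h2 := Real.log_le_rpow_div (x := 1 / x) (by positivity) h1
  have h3 : x * ((1 / x) ^ (1 - s) / (1 - s)) = 1 / (1 - s) * x ^ s := by
    have h4 : x * (1 / x) ^ (1 - s) = x ^ s := by
      rw [one_div, Real.inv_rpow hx.le, ← Real.rpow_neg hx.le]
      nth_rewrite 1 [← Real.rpow_one x]
      rw [← Real.rpow_add hx]
      congr 1
      ring
    rw [← h4]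
    ring
  have h4 : x ≤ x ^ s := by
    nth_rewrite 1 [← Real.rpow_one x]
    exact Real.rpow_le_rpow_of_exponent_ge hx hx1 hs1.le
  have h5 : x * Real.log (1 / x) ≤ 1 / (1 - s) * x ^ s := by
    rw [← h3]
    exact mul_le_mul_of_nonneg_left h2 hx.le
  nlinarith

/-- the data attached to a polynomial -/
theorem setup {d : ℕ} (hd : 2 ≤ d) {P₀ : Polynomial ℂ} (hP₀ : P₀.natDegree = d) :
    ∃ A δ₀ C₁ δ₂ B η₀ : ℝ, 0 ≤ A ∧ 0 < δ₀ ∧ 0 < C₁ ∧ 0 < δ₂ ∧ δ₂ ≤ 1 ∧ 0 < B ∧ 0 < η₀ ∧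
      ∀ P : Polynomial ℂ, P.natDegree = d → (∀ i, ‖P.coeff i - P₀.coeff i‖ < δ₀) →
        (∀ i, ‖P.coeff i‖ ≤ A) ∧
        ∀ x : CV d, ND x → HypTop (sp x) → ∀ η : ℝ, 0 < η → η ≤ η₀ → B * η ≤ δ₂ →
          (∀ j : ℕ, ‖(pol x 0).coeff j - P.coeff j‖ ≤ η) →
          (∀ j : ℕ, ‖(pol x 1).coeff j - (1 : Polynomial ℂ).coeff j‖ ≤ η) →
          ∃ P' : Polynomial ℂ, P'.natDegree = d ∧
            (∀ i : ℕ, ‖P'.coeff i - P.coeff i‖ ≤ C₁ * (B * η * (1 + Real.log (1 / (B * η))))) ∧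
              HypEnt (fun z => P'.eval z) := by
  have hP0 : P₀ ≠ 0 := by
    rintro rfl
    simp at hP₀
    omega
  have hc0 : 0 < ‖P₀.coeff d‖ := by
    rw [norm_pos_iff, ← hP₀]
    exact Polynomial.leadingCoeff_ne_zero.2 hP0
  set c : ℝ := ‖P₀.coeff d‖ / 4 with hc
  have hcp : 0 < c := by positivity
  set A0 : ℝ := ∑ i ∈ Finset.range (d + 1), ‖P₀.coeff i‖ with hA0
  have hA00 : 0 ≤ A0 := Finset.sum_nonneg fun _ _ => norm_nonneg _
  have hbd0 : ∀ i, ‖P₀.coeff i‖ ≤ A0 := by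
    intro i
    by_cases hi : i ∈ Finset.range (d + 1)
    · exact Finset.single_le_sum (f := fun i => ‖P₀.coeff i‖) (fun _ _ => norm_nonneg _) hi
    · rw [Polynomial.coeff_eq_zero_of_natDegree_lt (by
        rw [Finset.mem_range] at hi
        omega), norm_zero]
      exact hA00
  set A : ℝ := A0 + 1 with hA
  obtain ⟨R, hR⟩ := exists_rad (d := d) (c := c) (A := A + 1) hd hcp (by linarith)
  obtain ⟨B, η₀, hB, hη₀, hloc⟩ := rat_loc hR
  have hR1 := hR.R1
  have hnear0 : Near d c (A + 1) P₀ :=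
    ⟨hP₀.le, by linarith, fun i => (hbd0 i).trans (by linarith)⟩
  obtain ⟨N0, δc, hδc, hcount⟩ := count (hnear0.polyLike hR)
  obtain ⟨C₁, δ₂, hC₁, hδ₂, hδ₂1, hmain⟩ := mainQ hR N0 (δ1 := δc / 2) (by linarith)
  set E : ℝ := (d + 1) * (3 * R) ^ d with hE
  have hE0 : 0 < E := by positivity
  refine ⟨A, min (min (2 * c) 1) (δc / (2 * E)), C₁, δ₂, B, η₀, by linarith, by positivity, hC₁,
    hδ₂, hδ₂1, hB, hη₀, fun P hPd hclose => ?_⟩
  have h1 : ∀ i, ‖P.coeff i - P₀.coeff i‖ < 2 * c := fun i =>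
    lt_of_lt_of_le (hclose i) ((min_le_left _ _).trans (min_le_left _ _))
  have h2 : ∀ i, ‖P.coeff i - P₀.coeff i‖ < 1 := fun i =>
    lt_of_lt_of_le (hclose i) ((min_le_left _ _).trans (min_le_right _ _))
  have h3 : ∀ i, ‖P.coeff i - P₀.coeff i‖ ≤ δc / (2 * E) := fun i =>
    (lt_of_lt_of_le (hclose i) (min_le_right _ _)).le
  have hnear : Near d (2 * c) A P := by
    refine ⟨hPd.le, ?_, fun i => ?_⟩
    · have h4 := norm_sub_norm_le (P₀.coeff d) (P.coeff d)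
      rw [norm_sub_rev] at h4
      have h5 := h1 d
      linarith
    · have h4 := norm_sub_norm_le (P.coeff i) (P₀.coeff i)
      have h5 := h2 i
      have h6 := hbd0 i
      linarith
  refine ⟨hnear.bd, fun x hx hyp η hη0 hη1 hη2 hx0 hx1 => ?_⟩
  obtain ⟨g, hg, hgP, hgl⟩ := hloc P hnear x hx hyp η hη1 hx0 hx1
  refine hmain P (hnear.mono (by linarith) (by linarith)) (fun g hg hgP S hS => ?_) (B * η)
    (by positivity) hη2 g hg hgP hgl
  refine hcount g hg (fun z hz => ?_) S hS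
  have h4 := hgP z hz
  have h5 : ‖(P - P₀).eval z‖ ≤ δc / (2 * E) * E := by
    rw [mem_ball_zero_iff] at hz
    refine poly_up ?_ (fun i => ?_) (by linarith) hz.le
    · exact (Polynomial.natDegree_sub_le _ _).trans (max_le hPd.le hP₀.le)
    · rw [Polynomial.coeff_sub]
      exact h3 i
  have h6 : δc / (2 * E) * E = δc / 2 := by field_simp
  rw [h6, Polynomial.eval_sub] at h5
  have h7 : g z - P₀.eval z = (g z - P.eval z) + (P.eval z - P₀.eval z) := by ring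
  rw [h7]
  refine (norm_add_le _ _).trans ?_
  linarith

/-- **the quantitative theorem** -/
theorem dist_poly (d : ℕ) (hd : 2 ≤ d) (γ : ℝ) (hγ : 0 < γ) (hγ2 : γ < 1 / 2) (P₀ : Polynomial ℂ)
    (hP₀ : P₀.natDegree = d) :
    ∃ C δ : ℝ, 0 < C ∧ 0 < δ ∧ ∀ (P : Polynomial ℂ) (f : OnePoint ℂ → OnePoint ℂ),
      P.natDegree = d → (∀ i, ‖P.coeff i - P₀.coeff i‖ < δ) → Continuous f →
      (∀ z : ℂ, f (z : OnePoint ℂ) = ((P.eval z : ℂ) : OnePoint ℂ)) →
      ∀ a : ℝ, sarea (JS f) < ENNReal.ofReal a →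
        ∃ P' : Polynomial ℂ, P'.natDegree = d ∧ (∀ i : ℕ, ‖P'.coeff i - P.coeff i‖ ≤ C * a ^ γ) ∧
          HypEnt (fun z => P'.eval z) := by
  have hd1 : 1 ≤ d := by omega
  obtain ⟨A, δ₀, C₁, δ₂, B, η₀, hA, hδ₀, hC₁, hδ₂, hδ₂1, hB, hη₀, H⟩ := setup hd hP₀
  obtain ⟨h1, h2⟩ := PQ SP d hd1
  have hmax : ∀ P : Polynomial ℂ, P.natDegree = d →
      max P.natDegree (1 : Polynomial ℂ).natDegree = d := fun P hP => by
    rw [hP, Polynomial.natDegree_one]
    omega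
  obtain ⟨x₀, hnd0, hx0, hx1, -⟩ := h2 P₀ 1 isCoprime_one_right (hmax P₀ hP₀)
  obtain ⟨-, -, hco0, -, -⟩ := h1 x₀ hnd0
  set γ' : ℝ := (γ + 1 / 2) / 2 with hγ'
  have hγ'0 : 0 < γ' := by linarith
  have hγγ' : γ < γ' := by linarith
  have hγ'2 : γ' < 1 / 2 := by linarith
  obtain ⟨Cr, δr, hCr, hδr, HR⟩ := Pool.Agent.W757.RD.main γ' d x₀ hγ'0 hγ'2 hd hnd0
  set s : ℝ := γ / γ' with hs
  have hs0 : 0 < s := by positivity
  have hs1 : s < 1 := by rw [hs, div_lt_one hγ'0]; exact hγγ'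
  have hγs : γ' * s = γ := by rw [hs]; field_simp
  set b : ℝ := B * Cr with hb
  have hb0 : 0 < b := by positivity
  set m : ℝ := min (η₀ / Cr) (δ₂ / b) with hm
  have hm0 : 0 < m := by positivity
  set K : ℝ := C₁ * ((1 + 1 / (1 - s)) * b ^ s) with hK
  have h1s : 0 < 1 - s := by linarith
  have hK0 : 0 < K := by positivity
  have hms : 0 < m ^ s := Real.rpow_pos_of_pos hm0 _
  refine ⟨K + A / m ^ s, min δ₀ δr, by positivity, lt_min hδ₀ hδr,
    fun P f hPd hclose hfc hf a ha => ?_⟩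
  have ha0 : 0 < a := by
    by_contra h
    rw [ENNReal.ofReal_of_nonpos (not_lt.1 h)] at ha
    exact absurd ha not_lt_zero
  have hag : 0 < a ^ γ := Real.rpow_pos_of_pos ha0 _
  have hag' : 0 < a ^ γ' := Real.rpow_pos_of_pos ha0 _
  obtain ⟨hbd, HP⟩ := H P hPd fun i => lt_of_lt_of_le (hclose i) (min_le_left _ _)
  by_cases hcase : a ^ γ' ≤ m
  · -- small area
    obtain ⟨y, hyn, hyP, hyQ, hfe⟩ := h2 P 1 isCoprime_one_right (hmax P hPd)
    have hfy : f = sp y := hfe f hfc fun z _ => by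
      rw [Polynomial.eval_one, div_one]
      exact hf z
    obtain ⟨-, -, hcoy, hhiy, -⟩ := h1 y hyn
    have hy : ‖y - x₀‖ < δr := by
      rw [pi_norm_lt_iff hδr]
      rintro ⟨i, j⟩
      have e1 := hcoy i j
      have e2 := hco0 i j
      rw [Pi.sub_apply, ← e1, ← e2]
      fin_cases i
      · show ‖(pol y 0).coeff (j : ℕ) - (pol x₀ 0).coeff (j : ℕ)‖ < δr
        rw [hyP, hx0]
        exact lt_of_lt_of_le (hclose j) (min_le_right _ _)
      · show ‖(pol y 1).coeff (j : ℕ) - (pol x₀ 1).coeff (j : ℕ)‖ < δr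
        rw [hyQ, hx1, sub_self, norm_zero]
        exact hδr
    obtain ⟨x, hx, hxnd, hhyp⟩ := HR y hyn hy a ha0 (by rw [← hfy]; exact ha)
    obtain ⟨-, -, hco, hhi, -⟩ := h1 x hxnd
    set η : ℝ := Cr * a ^ γ' with hη
    have hη0 : 0 < η := by positivity
    have hcoef : ∀ i : Fin 2, ∀ j : ℕ, ‖(pol x i).coeff j - (pol y i).coeff j‖ ≤ η := by
      intro i j
      by_cases hj : d < j
      · rw [hhi i j hj, hhiy i j hj, sub_zero, norm_zero]
        exact hη0.le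
      · have e1 := hco i ⟨j, by omega⟩
        have e2 := hcoy i ⟨j, by omega⟩
        simp only at e1 e2
        rw [e1, e2]
        exact (norm_le_pi_norm (x - y) (i, ⟨j, by omega⟩)).trans hx
    have hm1 : a ^ γ' ≤ η₀ / Cr := hcase.trans (min_le_left _ _)
    have hm2 : a ^ γ' ≤ δ₂ / b := hcase.trans (min_le_right _ _)
    rw [le_div_iff₀ (by positivity)] at hm1 hm2
    have hbη : B * η = b * a ^ γ' := by rw [hη, hb]; ring
    obtain ⟨P', hP'd, hP'c, hP'h⟩ := HP x hxnd hhyp η hη0 (by rw [hη]; linarith)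
      (by rw [hbη]; linarith) (fun j => by rw [← hyP]; exact hcoef 0 j)
      (fun j => by rw [← hyQ]; exact hcoef 1 j)
    refine ⟨P', hP'd, fun i => (hP'c i).trans ?_, hP'h⟩
    rw [hbη]
    have h3 := log_rpow_bound (x := b * a ^ γ') (s := s) (by positivity) (by linarith) hs1
    have h4 : (b * a ^ γ') ^ s = b ^ s * a ^ γ := by
      rw [Real.mul_rpow hb0.le hag'.le, ← Real.rpow_mul ha0.le, hγs]
    rw [h4] at h3
    have h5 := mul_le_mul_of_nonneg_left h3 hC₁.le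
    have h6 : C₁ * ((1 + 1 / (1 - s)) * (b ^ s * a ^ γ)) = K * a ^ γ := by rw [hK]; ring
    rw [h6] at h5
    refine h5.trans ?_
    rw [add_mul]
    have : 0 ≤ A / m ^ s * a ^ γ := by positivity
    linarith
  · -- large area
    push Not at hcase
    have hα : P.coeff d ≠ 0 := by
      rw [← hPd]
      refine Polynomial.leadingCoeff_ne_zero.2 ?_
      rintro rfl
      simp at hPd
      omega
    refine ⟨Polynomial.monomial d (P.coeff d), Polynomial.natDegree_monomial_eq d hα, fun i => ?_,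
      hyp_monomial hd hα⟩
    have h3 : ‖(Polynomial.monomial d (P.coeff d)).coeff i - P.coeff i‖ ≤ A := by
      rw [Polynomial.coeff_monomial]
      split_ifs with h
      · rw [h, sub_self, norm_zero]
        exact hA
      · rw [zero_sub, norm_neg]
        exact hbd i
    refine h3.trans ?_
    have h4 : m ^ s ≤ a ^ γ := by
      have h5 := Real.rpow_le_rpow hm0.le hcase.le hs0.le
      rwa [← Real.rpow_mul ha0.le, hγs] at h5
    have h5 : A ≤ A / m ^ s * a ^ γ := by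
      rw [div_mul_eq_mul_div, le_div_iff₀ hms]
      exact mul_le_mul_of_nonneg_left h4 hA
    rw [add_mul]
    have : 0 ≤ K * a ^ γ := by positivity
    linarith

/-- limits of hyperbolic rational maps -/
theorem clos_poly (d : ℕ) (hd : 2 ≤ d) (P : Polynomial ℂ) (hP : P.natDegree = d)
    (H : ∀ ε : ℝ, 0 < ε → ∃ P₁ Q₁ : Polynomial ℂ, IsCoprime P₁ Q₁ ∧
      max P₁.natDegree Q₁.natDegree = d ∧
      (∀ i : ℕ, ‖P₁.coeff i - P.coeff i‖ < ε ∧ ‖Q₁.coeff i - (1 : Polynomial ℂ).coeff i‖ < ε) ∧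
      ∃ f : OnePoint ℂ → OnePoint ℂ, Continuous f ∧
        (∀ z : ℂ, Q₁.eval z ≠ 0 → f (z : OnePoint ℂ) = ((P₁.eval z / Q₁.eval z : ℂ) : OnePoint ℂ)) ∧
        HypTop f) {ε : ℝ} (hε : 0 < ε) :
    ∃ P' : Polynomial ℂ, P'.natDegree = d ∧ (∀ i : ℕ, ‖P'.coeff i - P.coeff i‖ < ε) ∧
      HypEnt (fun z => P'.eval z) := by
  have hd1 : 1 ≤ d := by omega
  obtain ⟨A, δ₀, C₁, δ₂, B, η₀, hA, hδ₀, hC₁, hδ₂, hδ₂1, hB, hη₀, HS⟩ := setup hd hP
  obtain ⟨h1, h2⟩ := PQ SP d hd1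
  set t : ℝ := ε / (6 * C₁) with ht
  have ht0 : 0 < t := by positivity
  set η : ℝ := min η₀ (min (δ₂ / B) (t ^ 2 / B)) with hη
  have hη0 : 0 < η := by positivity
  have e1 : η ≤ η₀ := min_le_left _ _
  have e2 : η ≤ δ₂ / B := (min_le_right _ _).trans (min_le_left _ _)
  have e3 : η ≤ t ^ 2 / B := (min_le_right _ _).trans (min_le_right _ _)
  rw [le_div_iff₀ hB] at e2 e3
  obtain ⟨P₁, Q₁, hcop, hmax, hcl, f, hfc, hf, hyp⟩ := H η hη0
  obtain ⟨x, hxnd, hxP, hxQ, hfe⟩ := h2 P₁ Q₁ hcop hmax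
  have hfx : f = sp x := hfe f hfc hf
  obtain ⟨-, HP⟩ := HS P hP fun i => by rw [sub_self, norm_zero]; exact hδ₀
  obtain ⟨P', hP'd, hP'c, hP'h⟩ := HP x hxnd (by rw [← hfx]; exact hyp) η hη0 e1 (by linarith)
    (fun j => by rw [hxP]; exact (hcl j).1.le) (fun j => by rw [hxQ]; exact (hcl j).2.le)
  refine ⟨P', hP'd, fun i => lt_of_le_of_lt (hP'c i) ?_, hP'h⟩
  have h3 := log_sqrt_bound (x := B * η) (by positivity)
  have h4 : Real.sqrt (B * η) ≤ t := by
    rw [Real.sqrt_le_left ht0.le]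
    linarith
  have h5 : C₁ * (B * η * (1 + Real.log (1 / (B * η)))) ≤ C₁ * (3 * t) :=
    mul_le_mul_of_nonneg_left (h3.trans (by linarith)) hC₁.le
  have h6 : C₁ * (3 * t) = ε / 2 := by
    rw [ht]
    field_simp
    norm_num
  linarith

end Pool.Agent.Helper23S
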