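import Pool.Agent.Helper23S.Tor2
import Pool.Agent.Helper719.Emb.P_hadamard

/-!
# The solutions are diffeomorphisms of the plane; topology of discs
-/

set_option autoImplicit false
set_option linter.unusedSectionVars false

open MeasureTheory Set Filter Topology Metric
open scoped ContDiff

noncomputable section

namespace Pool.Agent.Helper23S

theorem glob {φ : ℂ → ℂ} (hφ : ContDiff ℝ ∞ φ) {m : ℝ} (hm : 0 < m)
    (h : ∀ z v, m * ‖v‖ ≤ ‖fderiv ℝ φ z v‖) :
    ∃ e : ℂ ≃ₜ ℂ, (⇑e = φ) ∧ ContDiff ℝ ∞ e.symm := by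
  have hd : Differentiable ℝ φ := hφ.differentiable (by simp)
  set E := Complex.equivRealProdCLM with hE
  have hbij : Function.Bijective φ := by
    set Φ : ℝ × ℝ → ℝ × ℝ := fun p => E (φ (E.symm p)) with hΦ
    have h1 : ContDiff ℝ ∞ Φ := E.contDiff.comp (hφ.comp E.symm.contDiff)
    have h2 : ∀ p v, fderiv ℝ Φ p v = E (fderiv ℝ φ (E.symm p) (E.symm v)) := by
      intro p v
      have h3 : HasFDerivAt Φ ((E : ℂ →L[ℝ] ℝ × ℝ).comp ((fderiv ℝ φ (E.symm p)).comp
          (E.symm : ℝ × ℝ →L[ℝ] ℂ))) p :=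
        E.hasFDerivAt.comp p ((hd _).hasFDerivAt.comp p E.symm.hasFDerivAt)
      rw [h3.fderiv]
      rfl
    have hn1 : ∀ w : ℂ, ‖w‖ ≤ 2 * ‖E w‖ := by
      intro w
      have h4 := Complex.norm_le_abs_re_add_abs_im w
      have h5 : |w.re| ≤ ‖E w‖ := norm_fst_le (E w)
      have h6 : |w.im| ≤ ‖E w‖ := norm_snd_le (E w)
      linarith
    have hn2 : ∀ w : ℂ, ‖E w‖ ≤ ‖w‖ := by
      intro w
      rw [Prod.norm_def]
      exact max_le (Complex.abs_re_le_norm w) (Complex.abs_im_le_norm w)
    have h7 : Function.Bijective Φ := by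
      refine KleinEmb.hadamard Φ h1 (m / 2) (by linarith) fun p v => ?_
      rw [h2]
      have h8 := h (E.symm p) (E.symm v)
      have h9 := hn1 (fderiv ℝ φ (E.symm p) (E.symm v))
      have h10 := hn2 (E.symm v)
      rw [E.apply_symm_apply] at h10
      nlinarith [norm_nonneg v]
    have h8 : φ = fun z => E.symm (Φ (E z)) := by
      funext z
      simp [hΦ]
    rw [h8]
    exact E.symm.bijective.comp (h7.comp E.bijective)
  -- the derivative is invertible
  have hinj : ∀ z, Function.Injective ((fderiv ℝ φ z : ℂ →L[ℝ] ℂ) : ℂ →ₗ[ℝ] ℂ) := by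
    intro z
    rw [injective_iff_map_eq_zero]
    intro v hv
    have h1 := h z v
    have h2 : fderiv ℝ φ z v = 0 := hv
    rw [h2, norm_zero] at h1
    by_contra hc
    have := mul_pos hm (norm_pos_iff.2 hc)
    linarith
  let F : ℂ → ℂ ≃L[ℝ] ℂ := fun z =>
    (LinearEquiv.ofInjectiveEndo _ (hinj z)).toContinuousLinearEquiv
  have hF : ∀ z, (F z : ℂ →L[ℝ] ℂ) = fderiv ℝ φ z := by
    intro z
    apply ContinuousLinearMap.ext
    intro v
    rfl
  have hopen : IsOpenMap φ := by
    rw [isOpenMap_iff_nhds_le]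
    intro z
    have hst : HasStrictFDerivAt φ (F z : ℂ →L[ℝ] ℂ) z := by
      rw [hF]
      exact hφ.contDiffAt.hasStrictFDerivAt (by simp)
    exact (hst.map_nhds_eq_of_equiv).ge
  set e : ℂ ≃ₜ ℂ := (Equiv.ofBijective φ hbij).toHomeomorphOfContinuousOpen hφ.continuous hopen
    with he
  have hee : (⇑e : ℂ → ℂ) = φ := rfl
  refine ⟨e, hee, ?_⟩
  refine e.contDiff_symm (f₀' := F) (fun z => ?_) ?_
  · rw [hF, hee]
    exact (hd z).hasFDerivAt
  · rw [hee]
    exact hφ

/-! ### Complements of discs -/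

theorem preconn_compl {w : ℂ} {om : ℝ} (hom : 0 < om) : IsPreconnected {z : ℂ | om < dist z w} := by
  have h1 : {z : ℂ | om < dist z w} = (fun ζ => w + Complex.exp ζ) '' {ζ : ℂ | Real.log om < ζ.re} := by
    ext z
    simp only [mem_ofPred_eq, mem_image]
    constructor
    · intro hz
      have hne : z - w ≠ 0 := by
        intro h0
        rw [dist_eq_norm, h0, norm_zero] at hz
        linarith
      refine ⟨Complex.log (z - w), ?_, ?_⟩
      · rw [Complex.log_re]
        rw [dist_eq_norm] at hz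
        exact Real.log_lt_log hom hz
      · rw [Complex.exp_log hne]
        ring
    · rintro ⟨ζ, hζ, rfl⟩
      rw [dist_eq_norm, add_sub_cancel_left, Complex.norm_exp]
      exact (Real.log_lt_iff_lt_exp hom).1 hζ
  rw [h1]
  refine IsPreconnected.image ?_ _ ?_
  · have : Convex ℝ {ζ : ℂ | Real.log om < ζ.re} := convex_halfSpace_re_gt _
    exact this.isPreconnected
  · exact (continuous_const.add Complex.continuous_exp).continuousOn

/-- a homeomorphism of the plane maps a disc into each disc that contains the image of its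
boundary -/
theorem topo (φ : ℂ ≃ₜ ℂ) {z0 w : ℂ} {t om : ℝ} (hom : 0 < om)
    (h : ∀ z, dist z z0 = t → dist (φ z) w ≤ om) :
    ∀ z, dist z z0 ≤ t → dist (φ z) w ≤ om := by
  intro z hz
  by_contra hc
  push Not at hc
  have h1 : IsPreconnected (φ ⁻¹' {z : ℂ | om < dist z w}) := by
    rw [φ.isPreconnected_preimage]
    exact preconn_compl hom
  -- an unbounded set
  have h2 : ∃ z', om < dist (φ z') w ∧ t < dist z' z0 := by
    by_contra hn
    push Not at hn
    have hK : IsCompact (φ '' closedBall z0 t) := (isCompact_closedBall z0 t).image φ.continuous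
    obtain ⟨R, hR⟩ := hK.isBounded.subset_closedBall w
    have h3 := hn (φ.symm (w + ((|R| + om + 1 : ℝ) : ℂ)))
    rw [φ.apply_symm_apply] at h3
    have h4 : dist (w + ((|R| + om + 1 : ℝ) : ℂ)) w = |R| + om + 1 := by
      rw [dist_eq_norm, add_sub_cancel_left, Complex.norm_real, Real.norm_eq_abs,
        abs_of_pos (by positivity)]
    rw [h4] at h3
    have h5 := h3 (by have := abs_nonneg R; linarith)
    have h6 : w + ((|R| + om + 1 : ℝ) : ℂ) ∈ φ '' closedBall z0 t :=
      ⟨_, mem_closedBall.2 h5, φ.apply_symm_apply _⟩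
    have h7 := mem_closedBall.1 (hR h6)
    rw [h4] at h7
    have := le_abs_self R
    linarith
  obtain ⟨z', hz'1, hz'2⟩ := h2
  have hu : IsOpen (ball z0 t) := isOpen_ball
  have hv : IsOpen {z : ℂ | t < dist z z0} := isOpen_lt continuous_const (continuous_id.dist continuous_const)
  have hcov : φ ⁻¹' {z : ℂ | om < dist z w} ⊆ ball z0 t ∪ {z : ℂ | t < dist z z0} := by
    intro y hy
    rcases lt_trichotomy (dist y z0) t with h3 | h3 | h3
    · left; exact h3
    · exact absurd (h y h3) (not_le.2 hy)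
    · right; exact h3
  have hzb : z ∈ ball z0 t := by
    rcases hz.lt_or_eq with h3 | h3
    · exact h3
    · exact absurd (h z h3) (not_le.2 hc)
  obtain ⟨y, -, hy1, hy2⟩ := h1 _ _ hu hv hcov ⟨z, hc, hzb⟩ ⟨z', hz'1, hz'2⟩
  have h3 : dist y z0 < t := hy1
  have h4 : t < dist y z0 := hy2
  linarith

/-- a homeomorphism of the plane which maps a circle outside a disc -/
theorem topo2 (φ : ℂ ≃ₜ ℂ) {z0 w z1 : ℂ} {t r : ℝ}
    (h : ∀ z, dist z z0 = t → r ≤ dist (φ z) w) (h1 : dist z1 z0 < t) (h2 : dist (φ z1) w < r) :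
    ∀ y, dist y w < r → dist (φ.symm y) z0 < t := by
  intro y hy
  by_contra hc
  push Not at hc
  have hpre : IsPreconnected (φ ⁻¹' ball w r) := by
    rw [φ.isPreconnected_preimage]
    exact (convex_ball w r).isPreconnected
  have hu : IsOpen (ball z0 t) := isOpen_ball
  have hv : IsOpen {z : ℂ | t < dist z z0} := isOpen_lt continuous_const (continuous_id.dist continuous_const)
  have hcov : φ ⁻¹' ball w r ⊆ ball z0 t ∪ {z : ℂ | t < dist z z0} := by
    intro y hy
    rcases lt_trichotomy (dist y z0) t with h3 | h3 | h3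
    · left; exact h3
    · exact absurd (h y h3) (not_le.2 hy)
    · right; exact h3
  have hy' : φ.symm y ∈ φ ⁻¹' ball w r := by
    show φ (φ.symm y) ∈ ball w r
    rw [φ.apply_symm_apply]
    exact hy
  have h4 : t < dist (φ.symm y) z0 := by
    rcases hc.lt_or_eq with h3 | h3
    · exact h3
    · have := h _ h3.symm
      rw [φ.apply_symm_apply] at this
      linarith
  obtain ⟨y', -, hy1, hy2⟩ := hpre _ _ hu hv hcov ⟨z1, h2, h1⟩ ⟨φ.symm y, hy', h4⟩
  have h5 : dist y' z0 < t := hy1
  have h6 : t < dist y' z0 := hy2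
  linarith

end Pool.Agent.Helper23S
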