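import Pool.Agent.Helper23S.Est2

/-!
# Decay of the energy on small discs, and a linear closeness estimate
-/

set_option autoImplicit false
set_option linter.unusedSectionVars false

open MeasureTheory Set Filter Topology Metric

noncomputable section

namespace Pool.Agent.Helper23S

open Pool.Agent.Split938 (dbar)

/-- there is a circle with small energy -/
theorem circ2 {F : ℂ → ℝ} (hF : Continuous F) (z0 : ℂ) {r R s : ℝ} (hr : 0 < r)
    (hr1 : r < R) (hs : 0 < s) :
    ∃ t, r < t ∧ t < R ∧ t ^ 2 * ∫ θ in Ioo (-Real.pi) Real.pi,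
      F (z0 + t * Complex.exp (θ * Complex.I)) ≤
        ((∫ z in {z : ℂ | r < dist z z0 ∧ dist z z0 < R}, F z) + s) / Real.log (R / r) := by
  by_contra hc
  push Not at hc
  set E := ∫ z in {z : ℂ | r < dist z z0 ∧ dist z z0 < R}, F z with hE
  have hR : 0 < R := hr.trans hr1
  have hlog : 0 < Real.log (R / r) := Real.log_pos (by rw [lt_div_iff₀ hr]; linarith)
  set g : ℝ → ℝ := fun t => ∫ θ in Ioo (-Real.pi) Real.pi,
      F (z0 + t * Complex.exp (θ * Complex.I)) with hg
  have h1 := polar_annulus (R := R) hF z0 hr.le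
  have hgc : Continuous g := by
    have : g = fun t : ℝ => ∫ θ in (-Real.pi)..Real.pi, F (z0 + t * Complex.exp (θ * Complex.I)) := by
      funext t
      rw [intervalIntegral.integral_of_le (by have := Real.pi_pos; linarith),
        integral_Ioc_eq_integral_Ioo]
    rw [this]
    apply intervalIntegral.continuous_parametric_intervalIntegral_of_continuous'
    fun_prop
  have h3 : ∫ t in Ioo r R, (E + s) / Real.log (R / r) * t⁻¹ ≤ ∫ t in Ioo r R, t * g t := by
    refine setIntegral_mono_on ?_ ?_ measurableSet_Ioo fun t ht => ?_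
    · have : ContinuousOn (fun t : ℝ => (E + s) / Real.log (R / r) * t⁻¹) (Icc r R) :=
        continuousOn_const.mul (continuousOn_id.inv₀ fun t ht => (lt_of_lt_of_le hr ht.1).ne')
      exact (this.integrableOn_compact isCompact_Icc).mono_set Ioo_subset_Icc_self
    · exact ((continuous_id.mul hgc).continuousOn.integrableOn_compact isCompact_Icc).mono_set
        Ioo_subset_Icc_self
    · have h4 := hc t ht.1 ht.2
      have ht0 : 0 < t := lt_trans hr ht.1
      rw [← div_eq_mul_inv, div_le_iff₀ ht0]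
      have : t * g t * t = t ^ 2 * g t := by ring
      rw [this]
      exact h4.le
  have h4 : ∫ t in Ioo r R, (E + s) / Real.log (R / r) * t⁻¹ = E + s := by
    rw [integral_const_mul, ← integral_Ioc_eq_integral_Ioo,
      ← intervalIntegral.integral_of_le hr1.le, integral_inv_of_pos hr hR]
    field_simp
  rw [h4] at h3
  have h5 : E = ∫ t in Ioo r R, t * g t := h1
  linarith

section decay

variable {e : ℂ ≃ₜ ℂ} {z0 : ℂ}

/-- the energy in a disc is bounded by the energy in the surrounding annulus -/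
theorem decay_step (he : ContDiff ℝ 1 e) {r : ℝ} (hr : 0 < r)
    (hqc : ∀ z ∈ ball z0 (2 * r), ‖fderiv ℝ e z‖ ^ 2 ≤ 2 * |(fderiv ℝ e z).det|) :
    ∫ z in ball z0 r, ‖fderiv ℝ e z‖ ^ 2 ≤ 147 / 148 * ∫ z in ball z0 (2 * r), ‖fderiv ℝ e z‖ ^ 2 := by
  have hF : Continuous fun z => ‖fderiv ℝ e z‖ ^ 2 := (he.continuous_fderiv (by simp)).norm.pow 2
  set F : ℂ → ℝ := fun z => ‖fderiv ℝ e z‖ ^ 2 with hFd
  have hF0 : ∀ z, 0 ≤ F z := fun z => sq_nonneg _
  have hint : ∀ {f : ℂ → ℝ} (_ : Continuous f) (t : ℝ), IntegrableOn f (ball z0 t) := fun hf t =>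
    (hf.continuousOn.integrableOn_compact (isCompact_closedBall z0 t)).mono_set
      ball_subset_closedBall
  set An : Set ℂ := {z : ℂ | r < dist z z0 ∧ dist z z0 < 2 * r} with hAn
  have hAnm : MeasurableSet An :=
    ((isOpen_lt continuous_const (continuous_id.dist continuous_const)).inter
      (isOpen_lt (continuous_id.dist continuous_const) continuous_const)).measurableSet
  have hsum : (∫ z in ball z0 r, F z) + ∫ z in An, F z ≤ ∫ z in ball z0 (2 * r), F z := by
    have hdis : Disjoint (ball z0 r) An := by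
      rw [Set.disjoint_left]
      intro z hz hz'
      have h1 : dist z z0 < r := hz
      have h2 := hz'.1
      linarith
    have hsub : ball z0 r ∪ An ⊆ ball z0 (2 * r) :=
      union_subset (ball_subset_ball (by linarith)) fun z hz => hz.2
    have hAi : IntegrableOn F An := (hint hF (2 * r)).mono_set fun z hz => hz.2
    rw [← setIntegral_union hdis hAnm (hint hF r) hAi]
    exact setIntegral_mono_set (hint hF _) (Eventually.of_forall hF0) hsub.eventuallyLE
  set E := ∫ z in ball z0 r, F z with hE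
  set E2 := ∫ z in ball z0 (2 * r), F z with hE2
  set EA := ∫ z in An, F z with hEA
  have hEA0 : 0 ≤ EA := integral_nonneg hF0
  have hlog2 : 0.69 < Real.log 2 := by linarith [Real.log_two_gt_d9]
  have hpi := Real.pi_lt_d2
  have hpi0 := Real.pi_pos
  have hd : Differentiable ℝ e := he.differentiable (by simp)
  -- the main estimate
  have key : ∀ s : ℝ, 0 < s → E ≤ 147 * (EA + s) := by
    intro s hs
    obtain ⟨t, ht1, ht2, ht3⟩ := circ2 hF z0 hr (by linarith : r < 2 * r) hs
    have ht0 : 0 < t := hr.trans ht1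
    have hlogr : Real.log (2 * r / r) = Real.log 2 := by
      congr 1
      field_simp
    rw [hlogr] at ht3
    set c : ℝ := (EA + s) / Real.log 2 with hc
    have hc0 : 0 < c := by positivity
    have h1 := osc_circle he z0 ht0 hc0 ht3
    have h2 := topo e (w := e (z0 + t)) (om := 4 * Real.sqrt c) (by positivity) h1
    -- the area of the image
    have h3 := integral_image_eq_integral_abs_det_fderiv_smul volume
      (measurableSet_ball (x := z0) (ε := t))
      (fun z _ => (hd z).hasFDerivAt.hasFDerivWithinAt) e.injective.injOn (fun _ => (1 : ℝ))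
    have h4 : ∫ _ in e '' ball z0 t, (1 : ℝ) ≤ Real.pi * (16 * c) := by
      rw [setIntegral_const, smul_eq_mul, mul_one]
      have hsub : e '' ball z0 t ⊆ closedBall (e (z0 + t)) (4 * Real.sqrt c) := by
        rintro _ ⟨z, hz, rfl⟩
        exact h2 z (le_of_lt hz)
      refine (measureReal_mono hsub measure_closedBall_lt_top.ne).trans (le_of_eq ?_)
      rw [Measure.real, Complex.volume_closedBall, ENNReal.toReal_mul, ENNReal.toReal_pow,
        ENNReal.toReal_ofReal (by positivity), ENNReal.coe_toReal, NNReal.coe_real_pi, mul_pow,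
        Real.sq_sqrt hc0.le]
      ring
    rw [h3] at h4
    have hdet : Continuous fun z => |(fderiv ℝ e z).det| :=
      (ContinuousLinearMap.continuous_det.comp (he.continuous_fderiv (by simp))).abs
    have h5 : ∫ z in ball z0 t, F z ≤ 2 * ∫ z in ball z0 t, |(fderiv ℝ e z).det| • (1 : ℝ) := by
      rw [← integral_const_mul]
      refine setIntegral_mono_on (hint hF t) (hint (by simp only [smul_eq_mul, mul_one]; exact continuous_const.mul hdet) t)
        measurableSet_ball fun z hz => ?_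
      rw [smul_eq_mul, mul_one]
      exact hqc z (ball_subset_ball (by linarith) hz)
    have h6 : E ≤ ∫ z in ball z0 t, F z :=
      setIntegral_mono_set (hint hF t) (Eventually.of_forall hF0)
        (ball_subset_ball ht1.le).eventuallyLE
    have h7 : E ≤ 2 * (Real.pi * (16 * c)) := by linarith
    refine h7.trans ?_
    have h8 : c * Real.log 2 = EA + s := by
      rw [hc]
      field_simp
    nlinarith
  have h1 : E ≤ 147 * EA := by
    refine le_of_forall_pos_le_add fun s hs => ?_
    have := key (s / 147) (by positivity)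
    linarith
  linarith

theorem decay (he : ContDiff ℝ 1 e)
    (hqc : ∀ z ∈ ball z0 1, ‖fderiv ℝ e z‖ ^ 2 ≤ 2 * |(fderiv ℝ e z).det|) (n : ℕ) :
    ∫ z in ball z0 ((1 / 2) ^ n), ‖fderiv ℝ e z‖ ^ 2 ≤
      (147 / 148) ^ n * ∫ z in ball z0 1, ‖fderiv ℝ e z‖ ^ 2 := by
  induction n with
  | zero => simp
  | succ n ih =>
    have h1 : 2 * (1 / 2 : ℝ) ^ (n + 1) = (1 / 2) ^ n := by
      rw [pow_succ]
      ring
    have h2 := decay_step (z0 := z0) he (r := (1 / 2) ^ (n + 1)) (by positivity) (fun z hz => by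
      rw [h1] at hz
      exact hqc z (ball_subset_ball (pow_le_one₀ (by norm_num) (by norm_num)) hz))
    rw [h1] at h2
    refine h2.trans ?_
    rw [pow_succ]
    linarith

/-- Hölder continuity -/
theorem hoelder (he : ContDiff ℝ 1 e)
    (hqc : ∀ z ∈ ball z0 1, ‖fderiv ℝ e z‖ ^ 2 ≤ 2 * |(fderiv ℝ e z).det|) {E : ℝ} (hE0 : 0 < E)
    (hE : ∫ z in ball z0 1, ‖fderiv ℝ e z‖ ^ 2 ≤ E) (n : ℕ) {z : ℂ}
    (hz : dist z z0 ≤ (1 / 2) ^ (n + 1)) :
    dist (e z) (e z0) ≤ 8 * Real.sqrt (3 * ((147 / 148) ^ n * E)) := by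
  have hF : Continuous fun z => ‖fderiv ℝ e z‖ ^ 2 := (he.continuous_fderiv (by simp)).norm.pow 2
  set s : ℝ := (147 / 148) ^ n * E with hs
  have hs0 : 0 < s := by positivity
  have hlt : ((1 : ℝ) / 2) ^ (n + 1) < (1 / 2) ^ n := by
    rw [pow_succ]
    have : (0 : ℝ) < (1 / 2) ^ n := by positivity
    linarith
  obtain ⟨t, ht1, ht2, ht3⟩ := circ2 hF z0 (r := (1 / 2) ^ (n + 1)) (R := (1 / 2) ^ n)
    (by positivity) hlt (s := s) hs0
  have ht0 : 0 < t := lt_trans (by positivity) ht1
  have h1 := decay he hqc n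
  have h2 : ∫ z in {z : ℂ | (1 / 2) ^ (n + 1) < dist z z0 ∧ dist z z0 < (1 / 2) ^ n},
      ‖fderiv ℝ e z‖ ^ 2 ≤ ∫ z in ball z0 ((1 / 2) ^ n), ‖fderiv ℝ e z‖ ^ 2 := by
    refine setIntegral_mono_set ?_ (Eventually.of_forall fun z => sq_nonneg _) ?_
    · exact (hF.continuousOn.integrableOn_compact (isCompact_closedBall z0 _)).mono_set
        ball_subset_closedBall
    · exact (show {z : ℂ | ((1 : ℝ) / 2) ^ (n + 1) < dist z z0 ∧ dist z z0 < (1 / 2) ^ n} ⊆
        ball z0 ((1 / 2) ^ n) from fun z hz => hz.2).eventuallyLE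
  have h3 : ((147 : ℝ) / 148) ^ n * ∫ z in ball z0 1, ‖fderiv ℝ e z‖ ^ 2 ≤ s :=
    mul_le_mul_of_nonneg_left hE (by positivity)
  have hlogr : Real.log ((1 / 2) ^ n / (1 / 2) ^ (n + 1)) = Real.log 2 := by
    congr 1
    rw [pow_succ]
    field_simp
  rw [hlogr] at ht3
  have hlog2 : 0.69 < Real.log 2 := by linarith [Real.log_two_gt_d9]
  have h4 : t ^ 2 * ∫ θ in Ioo (-Real.pi) Real.pi,
      ‖fderiv ℝ e (z0 + t * Complex.exp (θ * Complex.I))‖ ^ 2 ≤ 3 * s := by
    refine ht3.trans ?_
    rw [div_le_iff₀ (by linarith)]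
    nlinarith
  have h5 := osc_circle he z0 ht0 (by positivity : (0 : ℝ) < 3 * s) h4
  have h6 := topo e (w := e (z0 + t)) (om := 4 * Real.sqrt (3 * s)) (by positivity) h5
  have h7 := h6 z (by linarith)
  have h8 := h6 z0 (by rw [dist_self]; exact ht0.le)
  calc dist (e z) (e z0) ≤ dist (e z) (e (z0 + t)) + dist (e (z0 + t)) (e z0) := dist_triangle _ _ _
    _ ≤ _ := by rw [dist_comm (e (z0 + t))]; linarith

end decay

/-- a bound at the centre of an annulus -/
theorem avg_bound {D : ℂ → ℂ} (hD : ContDiff ℝ 1 D) {z0 : ℂ} {r R N b o : ℝ} (hr : 0 < r)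
    (hrR : r < R) (hN : 0 < N)
    (hE : ∫ z in {z : ℂ | r < dist z z0 ∧ dist z z0 < R}, ‖fderiv ℝ D z‖ ^ 2 ≤ N ^ 2)
    (hb : ∀ z, dist z z0 = R → ‖D z‖ ≤ b) (ho : ∀ z, dist z z0 = r → ‖D z - D z0‖ ≤ o) :
    ‖D z0‖ ≤ o + b + N * (1 + Real.log (R / r)) := by
  have hF : Continuous fun z => ‖fderiv ℝ D z‖ ^ 2 := (hD.continuous_fderiv (by simp)).norm.pow 2
  have hd : Differentiable ℝ D := hD.differentiable (by simp)
  have hDc : Continuous (fderiv ℝ D) := hD.continuous_fderiv (by simp)
  have hR : 0 < R := hr.trans hrR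
  have hpi := Real.pi_pos
  set F : ℂ → ℝ := fun z => ‖fderiv ℝ D z‖ ^ 2 with hFd
  set lg := Real.log (R / r) with hlg
  have hlg0 : 0 < lg := Real.log_pos (by rw [lt_div_iff₀ hr]; linarith)
  have hfc : Continuous fun p : ℝ × ℝ => p.2 * F (z0 + p.2 * Complex.exp (p.1 * Complex.I)) := by
    fun_prop
  -- on rays
  have hray : ∀ θ : ℝ, ‖D z0‖ ≤ (o + b + N / 2 * lg) +
      (2 * N)⁻¹ * ∫ t in Ioo r R, t * F (z0 + t * Complex.exp (θ * Complex.I)) := by
    intro θ
    set ω : ℂ := Complex.exp (θ * Complex.I) with hω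
    have hω1 : ‖ω‖ = 1 := Complex.norm_exp_ofReal_mul_I θ
    have hdist : ∀ t : ℝ, 0 < t → dist (z0 + t * ω) z0 = t := by
      intro t ht
      rw [dist_eq_norm, add_sub_cancel_left, norm_mul, hω1, mul_one, Complex.norm_real,
        Real.norm_eq_abs, abs_of_pos ht]
    have hγ : ∀ t : ℝ, HasDerivAt (fun t : ℝ => D (z0 + t * ω)) (fderiv ℝ D (z0 + t * ω) ω) t := by
      intro t
      have h4 : HasDerivAt (fun t : ℝ => z0 + (t : ℂ) * ω) ω t := by
        simpa using ((Complex.ofRealCLM.hasDerivAt (x := t)).mul_const ω).const_add z0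
      exact (hd _).hasFDerivAt.comp_hasDerivAt t h4
    have hcont : Continuous fun t : ℝ => fderiv ℝ D (z0 + t * ω) ω :=
      (hDc.comp (by fun_prop)).clm_apply continuous_const
    have h4 : D (z0 + R * ω) - D (z0 + r * ω) = ∫ t in r..R, fderiv ℝ D (z0 + t * ω) ω :=
      (intervalIntegral.integral_eq_sub_of_hasDerivAt (fun x _ => hγ x)
        (hcont.intervalIntegrable _ _)).symm
    have hpt : ∀ t ∈ Ioo r R, ‖fderiv ℝ D (z0 + t * ω) ω‖ ≤
        N / 2 * t⁻¹ + (2 * N)⁻¹ * (t * F (z0 + t * ω)) := by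
      intro t ht
      have ht0 : 0 < t := hr.trans ht.1
      have h5 := (fderiv ℝ D (z0 + t * ω)).le_opNorm ω
      rw [hω1, mul_one] at h5
      refine h5.trans ?_
      rw [hFd]
      simp only
      set x := ‖fderiv ℝ D (z0 + t * ω)‖
      have h6 : x = N / 2 * t⁻¹ + (2 * N)⁻¹ * (t * x ^ 2) - (2 * N * t)⁻¹ * (N - t * x) ^ 2 := by
        field_simp
        ring
      have h7 : 0 ≤ (2 * N * t)⁻¹ * (N - t * x) ^ 2 := by positivity
      linarith
    have i1 : IntegrableOn (fun t : ℝ => N / 2 * t⁻¹) (Ioo r R) := by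
      have : ContinuousOn (fun t : ℝ => N / 2 * t⁻¹) (Icc r R) :=
        continuousOn_const.mul (continuousOn_id.inv₀ fun t ht => (lt_of_lt_of_le hr ht.1).ne')
      exact (this.integrableOn_compact isCompact_Icc).mono_set Ioo_subset_Icc_self
    have i2 : IntegrableOn (fun t : ℝ => (2 * N)⁻¹ * (t * F (z0 + t * ω))) (Ioo r R) := by
      have : Continuous fun t : ℝ => (2 * N)⁻¹ * (t * F (z0 + t * ω)) := by fun_prop
      exact (this.continuousOn.integrableOn_compact isCompact_Icc).mono_set Ioo_subset_Icc_self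
    have h5 : ‖D (z0 + R * ω) - D (z0 + r * ω)‖ ≤ N / 2 * lg +
        (2 * N)⁻¹ * ∫ t in Ioo r R, t * F (z0 + t * ω) := by
      rw [h4, intervalIntegral.integral_of_le hrR.le, integral_Ioc_eq_integral_Ioo]
      refine (norm_integral_le_integral_norm _).trans ?_
      have h6 : ∫ t in Ioo r R, ‖fderiv ℝ D (z0 + t * ω) ω‖ ≤
          ∫ t in Ioo r R, (N / 2 * t⁻¹ + (2 * N)⁻¹ * (t * F (z0 + t * ω))) := by
        refine setIntegral_mono_on ?_ (i1.add i2) measurableSet_Ioo hpt
        exact (hcont.norm.continuousOn.integrableOn_compact isCompact_Icc).mono_set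
          Ioo_subset_Icc_self
      refine h6.trans (le_of_eq ?_)
      rw [integral_add i1 i2, integral_const_mul, integral_const_mul,
        ← integral_Ioc_eq_integral_Ioo (f := fun t : ℝ => t⁻¹),
        ← intervalIntegral.integral_of_le hrR.le, integral_inv_of_pos hr hR]
    have h6 := hb (z0 + R * ω) (hdist R hR)
    have h7 := ho (z0 + r * ω) (hdist r hr)
    have h8 : D z0 = -(D (z0 + r * ω) - D z0) - (D (z0 + R * ω) - D (z0 + r * ω)) +
        D (z0 + R * ω) := by ring
    have h9 : ‖D z0‖ ≤ ‖D (z0 + r * ω) - D z0‖ + ‖D (z0 + R * ω) - D (z0 + r * ω)‖ +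
        ‖D (z0 + R * ω)‖ := by
      conv_lhs => rw [h8]
      refine (norm_add_le _ _).trans (add_le_add ((norm_sub_le _ _).trans ?_) le_rfl)
      rw [norm_neg]
    linarith
  -- integrate over the angles
  have hprod : IntegrableOn (fun p : ℝ × ℝ => p.2 * F (z0 + p.2 * Complex.exp (p.1 * Complex.I)))
      (Ioo (-Real.pi) Real.pi ×ˢ Ioo r R) (volume.prod volume) := by
    have : IntegrableOn (fun p : ℝ × ℝ => p.2 * F (z0 + p.2 * Complex.exp (p.1 * Complex.I)))
        (Icc (-Real.pi) Real.pi ×ˢ Icc r R) (volume.prod volume) :=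
      hfc.continuousOn.integrableOn_compact (isCompact_Icc.prod isCompact_Icc)
    exact this.mono_set (prod_mono Ioo_subset_Icc_self Ioo_subset_Icc_self)
  have hsw : ∫ θ in Ioo (-Real.pi) Real.pi, ∫ t in Ioo r R,
      t * F (z0 + t * Complex.exp (θ * Complex.I)) =
      ∫ z in {z : ℂ | r < dist z z0 ∧ dist z z0 < R}, F z := by
    rw [polar_annulus hF z0 hr.le]
    have h1 := integral_integral_swap (μ := volume.restrict (Ioo (-Real.pi) Real.pi))
      (ν := volume.restrict (Ioo r R))
      (f := fun θ t : ℝ => t * F (z0 + t * Complex.exp (θ * Complex.I))) (by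
        rw [Measure.prod_restrict]
        exact hprod)
    rw [h1]
    refine setIntegral_congr_fun measurableSet_Ioo fun t _ => ?_
    exact integral_const_mul _ _
  have hgc : Continuous fun θ : ℝ => ∫ t in Ioo r R, t * F (z0 + t * Complex.exp (θ * Complex.I)) := by
    have : (fun θ : ℝ => ∫ t in Ioo r R, t * F (z0 + t * Complex.exp (θ * Complex.I))) =
        fun θ : ℝ => ∫ t in r..R, t * F (z0 + t * Complex.exp (θ * Complex.I)) := by
      funext θ
      rw [intervalIntegral.integral_of_le hrR.le, integral_Ioc_eq_integral_Ioo]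
    rw [this]
    apply intervalIntegral.continuous_parametric_intervalIntegral_of_continuous'
    exact hfc
  have hint : ∫ θ in Ioo (-Real.pi) Real.pi, ‖D z0‖ ≤ ∫ θ in Ioo (-Real.pi) Real.pi,
      ((o + b + N / 2 * lg) +
        (2 * N)⁻¹ * ∫ t in Ioo r R, t * F (z0 + t * Complex.exp (θ * Complex.I))) := by
    refine setIntegral_mono_on ?_ ?_ measurableSet_Ioo fun θ _ => hray θ
    · exact (continuousOn_const.integrableOn_compact isCompact_Icc).mono_set Ioo_subset_Icc_self
    · exact ((continuous_const.add (continuous_const.mul hgc)).continuousOn.integrableOn_compact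
        isCompact_Icc).mono_set Ioo_subset_Icc_self
  have i1 : IntegrableOn (fun _ : ℝ => o + b + N / 2 * lg) (Ioo (-Real.pi) Real.pi) :=
    (continuousOn_const.integrableOn_compact isCompact_Icc).mono_set Ioo_subset_Icc_self
  have i2 : IntegrableOn (fun θ : ℝ => (2 * N)⁻¹ *
      ∫ t in Ioo r R, t * F (z0 + t * Complex.exp (θ * Complex.I))) (Ioo (-Real.pi) Real.pi) :=
    ((continuous_const.mul hgc).continuousOn.integrableOn_compact
        isCompact_Icc).mono_set Ioo_subset_Icc_self
  rw [integral_add i1 i2, integral_const_mul, setIntegral_const, setIntegral_const, hsw,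
    Real.volume_real_Ioo_of_le (by linarith), smul_eq_mul, smul_eq_mul] at hint
  have h1 : (2 * N)⁻¹ * (∫ z in {z : ℂ | r < dist z z0 ∧ dist z z0 < R}, F z) ≤ N / 2 := by
    have h2 := mul_le_mul_of_nonneg_left hE (by positivity : 0 ≤ (2 * N)⁻¹)
    refine h2.trans (le_of_eq ?_)
    field_simp
  have h2 : Real.pi - -Real.pi = 2 * Real.pi := by ring
  rw [h2] at hint
  have h3 : 2 * Real.pi * ‖D z0‖ ≤ 2 * Real.pi * (o + b + N * (1 + lg)) := by
    have hpi3 := Real.pi_gt_three
    have h4 : 0 ≤ N * lg := by positivity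
    nlinarith
  exact le_of_mul_le_mul_left h3 (by positivity)

end Pool.Agent.Helper23S
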