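import Pool.Agent.Helper23S.Hol

/-!
# The solutions are close to the identity
-/

set_option autoImplicit false
set_option linter.unusedSectionVars false

open MeasureTheory Set Filter Topology Metric

noncomputable section

namespace Pool.Agent.Helper23S

open Pool.Agent.Split938 (dbar)

theorem det_eq (A : ℂ →L[ℝ] ℂ) {p m : ℂ} (h : ∀ v, A v = p * (v + m * (starRingEnd ℂ) v)) :
    A.det = ‖p‖ ^ 2 * (1 - ‖m‖ ^ 2) := by
  have h1 : A.det = (A 1).re * (A Complex.I).im - (A Complex.I).re * (A 1).im := by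
    have : A.det = LinearMap.det (A : ℂ →ₗ[ℝ] ℂ) := rfl
    rw [this, ← LinearMap.det_toMatrix Complex.basisOneI, Matrix.det_fin_two]
    simp [LinearMap.toMatrix_apply]
  rw [h1, h, h, Complex.sq_norm, Complex.sq_norm, Complex.normSq_apply, Complex.normSq_apply]
  simp only [map_one, mul_one, Complex.conj_I, Complex.mul_re, Complex.mul_im, Complex.add_re,
    Complex.add_im, Complex.one_re, Complex.one_im, Complex.I_re, Complex.I_im, Complex.neg_re,
    Complex.neg_im]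
  ring

variable {ρ κ L : ℝ} {μ : ℂ → ℂ}

section

variable (hρ : 0 < ρ) (hL : 8 * ρ ≤ L) (hμ : Adm ρ κ μ) (hκ : κ ≤ 1 / 40)

include hρ hL hμ hκ

theorem ph_qc (z : ℂ) : ‖fderiv ℝ (ph ρ L μ) z‖ ^ 2 ≤ 2 * |(fderiv ℝ (ph ρ L μ) z).det| := by
  have hκ0 : 0 ≤ κ := (norm_nonneg _).trans (hμ.bdd 0)
  have hκ1 : κ < 1 := by linarith
  have hL' : 4 * ρ ≤ L := by linarith
  have h1 := fderiv_ph_norm hρ hL hμ hκ z
  have h2 := norm_mL hρ hL' hμ hκ1 (L := L) z
  rw [det_eq _ (ph_apply hρ hL' hμ hκ1 z)]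
  have h3 : ‖mL L μ z‖ ^ 2 ≤ (1 / 40) ^ 2 := pow_le_pow_left₀ (norm_nonneg _) (h2.trans hκ) 2
  have h4 : 0 ≤ ‖1 + aL L μ z‖ ^ 2 := sq_nonneg _
  rw [abs_of_nonneg (mul_nonneg h4 (by linarith))]
  have h5 := pow_le_pow_left₀ (norm_nonneg _) h1 2
  nlinarith

/-- the estimate with a free scale -/
theorem ph_scale (hρ1 : 1 ≤ ρ) (hκ0 : 0 < κ) (hL2 : 24 * ρ ≤ L) {z0 : ℂ} (hz0 : ‖z0‖ ≤ 2 * ρ)
    (n : ℕ) : ‖ph ρ L μ z0 - z0‖ ≤
      ((1 / 2) ^ (n + 1) + 8 * Real.sqrt (3 * ((147 / 148) ^ n * (7 + ρ ^ 2)))) + 36 * κ * ρ +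
        6 * κ * ρ * (1 + Real.log (4 * ρ / (1 / 2) ^ (n + 1))) := by
  have hκ1 : κ < 1 := by linarith
  have hL' : 4 * ρ ≤ L := by linarith
  have hμ1 : Adm ρ (1 / 40) μ := Adm.mono hρ hL hμ hκ hκ
  have hph := ph_smooth hρ hL' hμ hκ1
  set D : ℂ → ℂ := fun z => ph ρ L μ z - z with hD
  have hDs : ContDiff ℝ 1 D := (hph.of_le (by exact_mod_cast le_top)).sub contDiff_id
  have hE := en_a hρ hL' hμ1 hμ hκ
  obtain ⟨e, he, -⟩ := exists_homeo hρ hL hμ hκ
  have hes : ContDiff ℝ 1 e := by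
    rw [he]
    exact hph.of_le (by exact_mod_cast le_top)
  have hρ2 : ((1 : ℝ) / 2) ^ (n + 1) < 4 * ρ := by
    have : ((1 : ℝ) / 2) ^ (n + 1) ≤ 1 := pow_le_one₀ (by norm_num) (by norm_num)
    linarith
  refine avg_bound hDs (r := (1 / 2) ^ (n + 1)) (R := 4 * ρ) (N := 6 * κ * ρ) (b := 36 * κ * ρ)
    (o := (1 / 2) ^ (n + 1) + 8 * Real.sqrt (3 * ((147 / 148) ^ n * (7 + ρ ^ 2)))) (by positivity)
    hρ2 (by positivity) ?_ ?_ ?_
  · -- the energy
    have hac := (aL_smooth hρ hL' hμ hκ1).continuous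
    have hmc := (mL_smooth hρ hL' hμ hκ1).continuous
    set W : ℂ → ℝ := fun z => ‖mL L μ z * (1 + aL L μ z)‖ ^ 2 with hW
    have hWc : Continuous W := (hmc.mul (continuous_const.add hac)).norm.pow 2
    have hAc : Continuous fun z => ‖aL L μ z‖ ^ 2 := hac.norm.pow 2
    have hEn : ∫ z in Qc L, W z ≤ 7 * κ ^ 2 * ρ ^ 2 := by
      have := hE.2
      unfold en at this
      simpa only [mL_zero, zero_mul, sub_zero] using this
    have hpt : ∀ z, ‖fderiv ℝ D z‖ ^ 2 ≤ 2 * ‖aL L μ z‖ ^ 2 + 2 * W z := by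
      intro z
      have e1 : fderiv ℝ D z = fderiv ℝ (ph ρ L μ) z - ContinuousLinearMap.id ℝ ℂ := by
        have h2 := ((hph.differentiable (by simp) z).hasFDerivAt.sub (hasFDerivAt_id z)).fderiv
        exact h2
      have h1 : ‖fderiv ℝ D z‖ ≤ ‖aL L μ z‖ + ‖mL L μ z * (1 + aL L μ z)‖ := by
        refine ContinuousLinearMap.opNorm_le_bound _ (by positivity) fun v => ?_
        rw [e1, _root_.sub_apply, ph_apply hρ hL' hμ hκ1]
        have h2 : (1 + aL L μ z) * (v + mL L μ z * (starRingEnd ℂ) v) -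
            (ContinuousLinearMap.id ℝ ℂ) v =
            aL L μ z * v + mL L μ z * (1 + aL L μ z) * (starRingEnd ℂ) v := by
          rw [ContinuousLinearMap.id_apply]
          ring
        rw [h2]
        refine (norm_add_le _ _).trans (le_of_eq ?_)
        rw [norm_mul, norm_mul (mL L μ z * (1 + aL L μ z)), RCLike.norm_conj]
        ring
      have h2 := pow_le_pow_left₀ (norm_nonneg _) h1 2
      rw [hW]
      simp only
      nlinarith [sq_nonneg (‖aL L μ z‖ - ‖mL L μ z * (1 + aL L μ z)‖)]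
    have hsub : {z : ℂ | (1 / 2) ^ (n + 1) < dist z z0 ∧ dist z z0 < 4 * ρ} ⊆ Qc L := by
      intro w hw
      have h1 := hw.2
      rw [dist_eq_norm] at h1
      refine Qo_Qc L (ball_Qo L (mem_ball_zero_iff.2 ?_))
      have := norm_sub_norm_le w z0
      linarith
    have hfc : Continuous fun z => ‖fderiv ℝ D z‖ ^ 2 := (hDs.continuous_fderiv (by simp)).norm.pow 2
    have hint : ∀ {f : ℂ → ℝ}, Continuous f → IntegrableOn f (Qc L) := fun hf =>
      hf.continuousOn.integrableOn_compact (Qc_compact L)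
    have i1 : IntegrableOn (fun z => 2 * ‖aL L μ z‖ ^ 2) (Qc L) := hint (continuous_const.mul hAc)
    have i2 : IntegrableOn (fun z => 2 * W z) (Qc L) := hint (continuous_const.mul hWc)
    have h3 : ∫ z in {z : ℂ | (1 / 2) ^ (n + 1) < dist z z0 ∧ dist z z0 < 4 * ρ},
        ‖fderiv ℝ D z‖ ^ 2 ≤ ∫ z in Qc L, ‖fderiv ℝ D z‖ ^ 2 :=
      setIntegral_mono_set (hint hfc) (Eventually.of_forall fun z => sq_nonneg _) hsub.eventuallyLE
    have h4 : ∫ z in Qc L, ‖fderiv ℝ D z‖ ^ 2 ≤ 2 * (∫ z in Qc L, ‖aL L μ z‖ ^ 2) +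
        2 * ∫ z in Qc L, W z := by
      rw [← integral_const_mul, ← integral_const_mul, ← integral_add i1 i2]
      exact setIntegral_mono_on (hint hfc) (i1.add i2) (Qc_compact L).measurableSet
        fun z _ => hpt z
    refine h3.trans (h4.trans ?_)
    have := hE.1
    nlinarith [sq_nonneg (κ * ρ)]
  · -- the outer circle
    intro z hz
    rw [dist_eq_norm] at hz
    have h1 := norm_sub_norm_le z z0
    have h2 := norm_sub_norm_le (z - z0) z
    have h3 : ‖z - z0 - z‖ = ‖z0‖ := by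
      rw [sub_sub_cancel_left, norm_neg]
    rw [h3] at h2
    have h4 := ph_far hρ hL hμ hκ (z := z) (by linarith) (by linarith)
    refine h4.trans ?_
    have h5 : ‖z‖ ≤ 6 * ρ := by linarith
    nlinarith
  · intro z hz
    have h1 := hoelder (e := e) (z0 := z0) hes (fun w _ => by
      rw [he]
      exact ph_qc hρ hL hμ hκ w) (E := 7 + ρ ^ 2) (by positivity) (by
      rw [he]
      exact ph_energy hρ hL hμ hκ (by linarith)) n (z := z) hz.le
    rw [he, dist_eq_norm] at h1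
    rw [dist_eq_norm] at hz
    have h2 : D z - D z0 = (ph ρ L μ z - ph ρ L μ z0) - (z - z0) := by
      rw [hD]
      ring
    rw [h2]
    refine (norm_sub_le _ _).trans ?_
    rw [hz]
    linarith

end

/-- **the solutions are close to the identity** -/
theorem ph_close (hρ : 1 ≤ ρ) {M : ℝ} (hM : 0 ≤ M) : ∃ C : ℝ, 0 < C ∧ ∀ (κ L : ℝ) (μ : ℂ → ℂ),
    0 < κ → κ ≤ 1 / 40 → 24 * ρ ≤ L → 4 * M ≤ L → Adm ρ κ μ → ∀ z, ‖z‖ ≤ M →
      ‖ph ρ L μ z - z‖ ≤ C * (κ * (1 + Real.log (1 / κ))) := by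
  have hρ0 : 0 < ρ := by linarith
  set C : ℝ := 1 + 8 * Real.sqrt (3 * (7 + ρ ^ 2)) + 36 * ρ + 6 * ρ * (4 * ρ + 3) + 1248 * ρ + 6 * M
    with hC
  refine ⟨C, by positivity, fun κ L μ hκ0 hκ hL hLM hμ z hz => ?_⟩
  have hκ1 : κ < 1 := by linarith
  have hlk : 0 < Real.log (1 / κ) := Real.log_pos (by rw [lt_div_iff₀ hκ0]; linarith)
  set l := Real.log (1 / κ) with hl
  have hL8 : 8 * ρ ≤ L := by linarith
  rcases le_total (2 * ρ) ‖z‖ with h | h
  · refine (ph_far hρ0 hL8 hμ hκ h (by linarith)).trans ?_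
    have h1 : 6 * κ * ‖z‖ ≤ 6 * M * κ := by nlinarith
    have h2 : 6 * M ≤ C := by
      rw [hC]
      have : 0 ≤ 1 + 8 * Real.sqrt (3 * (7 + ρ ^ 2)) + 36 * ρ + 6 * ρ * (4 * ρ + 3) + 1248 * ρ := by
        positivity
      linarith
    have h3 : 6 * M * κ ≤ C * κ := mul_le_mul_of_nonneg_right h2 hκ0.le
    have h4 : κ ≤ κ * (1 + l) := by nlinarith
    have h5 : C * κ ≤ C * (κ * (1 + l)) := mul_le_mul_of_nonneg_left h4 (by positivity)
    linarith
  · -- the scale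
    have hq : Real.log (147 / 148) ≤ -(1 / 148) := by
      have := Real.log_le_sub_one_of_pos (show (0 : ℝ) < 147 / 148 by norm_num)
      linarith
    set n : ℕ := ⌈296 * l⌉₊ with hn
    have hn1 : 296 * l ≤ n := Nat.le_ceil _
    have hn2 : (n : ℝ) < 296 * l + 1 := Nat.ceil_lt_add_one (by positivity)
    have hpow : ((147 : ℝ) / 148) ^ n ≤ κ ^ 2 := by
      rw [← Real.log_le_log_iff (by positivity) (by positivity), Real.log_pow, Real.log_pow]
      have h1 : Real.log κ = -l := by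
        rw [hl, one_div, Real.log_inv, neg_neg]
      rw [h1]
      push_cast
      have h2 : (n : ℝ) * Real.log (147 / 148) ≤ n * (-(1 / 148)) :=
        mul_le_mul_of_nonneg_left hq (Nat.cast_nonneg n)
      linarith
    have hpow2 : ((1 : ℝ) / 2) ^ n ≤ κ := by
      have h1 : (((1 : ℝ) / 2) ^ n) ^ 2 ≤ κ ^ 2 := by
        refine le_trans ?_ hpow
        rw [← pow_mul, mul_comm, pow_mul]
        exact pow_le_pow_left₀ (by norm_num) (by norm_num) n
      exact (abs_le_of_sq_le_sq' h1 hκ0.le).2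
    have hpow3 : ((1 : ℝ) / 2) ^ (n + 1) ≤ κ := by
      rw [pow_succ]
      linarith
    have h1 := ph_scale hρ0 hL8 hμ hκ hρ hκ0 hL h n
    have h2 : Real.sqrt (3 * ((147 / 148) ^ n * (7 + ρ ^ 2))) ≤ Real.sqrt (3 * (7 + ρ ^ 2)) * κ := by
      rw [← Real.sqrt_sq hκ0.le, ← Real.sqrt_mul (by positivity)]
      refine Real.sqrt_le_sqrt ?_
      have h3 : (147 / 148 : ℝ) ^ n * (7 + ρ ^ 2) ≤ κ ^ 2 * (7 + ρ ^ 2) :=
        mul_le_mul_of_nonneg_right hpow (by positivity)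
      linarith
    have h3 : Real.log (4 * ρ / (1 / 2) ^ (n + 1)) ≤ 4 * ρ + 2 + 208 * l := by
      rw [Real.log_div (by positivity) (by positivity), Real.log_pow]
      have h4 : Real.log (4 * ρ) ≤ 4 * ρ - 1 := Real.log_le_sub_one_of_pos (by positivity)
      have h5 : Real.log (1 / 2) = -Real.log 2 := by rw [one_div, Real.log_inv]
      rw [h5]
      have h6 : Real.log 2 < 0.7 := by linarith [Real.log_two_lt_d9]
      have h7 : 0 < Real.log 2 := Real.log_pos (by norm_num)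
      push_cast
      nlinarith
    refine h1.trans ?_
    have h4 : 6 * κ * ρ * (1 + Real.log (4 * ρ / (1 / 2) ^ (n + 1))) ≤
        6 * κ * ρ * (1 + (4 * ρ + 2 + 208 * l)) :=
      mul_le_mul_of_nonneg_left (by linarith) (by positivity)
    set S := Real.sqrt (3 * (7 + ρ ^ 2)) with hS
    have hS0 : 0 ≤ S := Real.sqrt_nonneg _
    have h5 : C * (κ * (1 + l)) = κ * (1 + 8 * S + 36 * ρ + 6 * ρ * (4 * ρ + 3)) + κ * (1248 * ρ * l) +
        κ * (1 + 8 * S + 36 * ρ + 6 * ρ * (4 * ρ + 3)) * l + κ * (1248 * ρ) +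
        6 * M * (κ * (1 + l)) := by
      rw [hC]
      ring
    rw [h5]
    have h6 : 0 ≤ κ * (1 + 8 * S + 36 * ρ + 6 * ρ * (4 * ρ + 3)) * l := by positivity
    have h7 : 0 ≤ κ * (1248 * ρ) := by positivity
    have h8 : 0 ≤ 6 * M * (κ * (1 + l)) := by positivity
    have h9 : 6 * κ * ρ * (1 + (4 * ρ + 2 + 208 * l)) =
        κ * (6 * ρ * (4 * ρ + 3)) + κ * (1248 * ρ * l) := by ring
    rw [h9] at h4
    linarith

end Pool.Agent.Helper23S
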