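import Pool.Agent.Helper23S.Pull
import Pool.Agent.Helper114.KPlane

/-!
# The surgery theorem for almost holomorphic maps
-/

set_option autoImplicit false
set_option linter.unusedSectionVars false

open MeasureTheory Set Filter Topology Metric

noncomputable section

namespace Pool.Agent.Helper23S

open Pool.Agent.Split938 (dbar)

/-- bounded sequences converge along ultrafilters -/
theorem ulim {𝒰 : Ultrafilter ℕ} {f : ℕ → ℂ} {B : ℝ} (h : ∀ᶠ n in (𝒰 : Filter ℕ), ‖f n‖ ≤ B) :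
    ∃ v : ℂ, ‖v‖ ≤ B ∧ Tendsto f 𝒰 (𝓝 v) := by
  have hle : ((𝒰.map f : Ultrafilter ℂ) : Filter ℂ) ≤ 𝓟 (closedBall 0 B) := by
    rw [le_principal_iff, Ultrafilter.coe_map, Filter.mem_map]
    filter_upwards [h] with n hn
    show f n ∈ closedBall 0 B
    rw [mem_closedBall_zero_iff]
    exact hn
  obtain ⟨v, hv1, hv⟩ := (isCompact_closedBall (0 : ℂ) B).ultrafilter_le_nhds _ hle
  exact ⟨v, by rwa [mem_closedBall_zero_iff] at hv1, hv⟩

/-- eventual equicontinuity at a point -/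
def Eqc (F : Filter ℕ) (f : ℕ → ℂ → ℂ) (z0 : ℂ) : Prop :=
  ∀ ε > 0, ∃ δ > 0, ∀ᶠ n in F, ∀ z, dist z z0 ≤ δ → dist (f n z) (f n z0) ≤ ε

theorem Eqc.conv {F : Filter ℕ} {f : ℕ → ℂ → ℂ} {z0 v : ℂ} (h : Eqc F f z0)
    (hv : Tendsto (fun n => f n z0) F (𝓝 v)) {z : ℕ → ℂ} (hz : Tendsto z F (𝓝 z0)) :
    Tendsto (fun n => f n (z n)) F (𝓝 v) := by
  rw [Metric.tendsto_nhds]
  intro ε hε
  obtain ⟨δ, hδ, h1⟩ := h (ε / 2) (by linarith)
  filter_upwards [h1, Metric.tendsto_nhds.1 hv (ε / 2) (by linarith), Metric.tendsto_nhds.1 hz δ hδ]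
    with n hn1 hn2 hn3
  have h2 := hn1 (z n) hn3.le
  have h3 := dist_triangle (f n (z n)) (f n z0) v
  linarith

theorem Eqc.cont {F : Filter ℕ} [NeBot F] {f : ℕ → ℂ → ℂ} {g : ℂ → ℂ} (h : ∀ z, Eqc F f z)
    (hv : ∀ z, Tendsto (fun n => f n z) F (𝓝 (g z))) : Continuous g := by
  rw [Metric.continuous_iff]
  intro z0 ε hε
  obtain ⟨δ, hδ, h1⟩ := h z0 (ε / 2) (by linarith)
  refine ⟨δ, hδ, fun z hz => ?_⟩
  have h2 : Tendsto (fun n => dist (f n z) (f n z0)) F (𝓝 (dist (g z) (g z0))) :=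
    (hv z).dist (hv z0)
  have h3 : dist (g z) (g z0) ≤ ε / 2 := by
    refine le_of_tendsto h2 ?_
    filter_upwards [h1] with n hn
    exact hn z hz.le
  linarith

/-- **Surgery.** -/
theorem surgeryG (R : ℝ) (hR : 1 ≤ R) {ε M κ : ℝ} (hκ0 : 0 ≤ κ)
    (hclose0 : ∀ L, 20 * (2 * R) ≤ L → 4 * M + 48 * R ≤ L → ∀ μ, Adm (2 * R) κ μ → ∀ z, ‖z‖ ≤ M →
      ‖ph (2 * R) L μ z - z‖ ≤ ε) (s1 s2 : ℝ) (G : ℂ → ℂ) (h : QR R s1 s2 κ G) :
      ∃ Φ : ℂ ≃ₜ ℂ, Differentiable ℂ (fun w => Φ (G (Φ.symm w))) ∧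
        (∀ z, ‖z‖ ≤ M → ‖Φ z - z‖ ≤ ε) ∧ (∀ z, ‖Φ z‖ ≤ 5 / 4 * ‖z‖ + 5 * R) ∧
        ∀ w, ‖Φ.symm w‖ ≤ 4 / 3 * ‖w‖ + 8 * R + 2 := by
  set ρ : ℝ := 2 * R with hρ
  have hρ1 : 1 ≤ ρ := by linarith
  have hρ0 : 0 < ρ := by linarith
  have hκ : κ ≤ 1 / 40 := h.hκ
  have hκ1 : κ < 1 := by linarith
  -- the periods
  set L : ℕ → ℝ := fun n => 20 * ρ * ((n : ℝ) + 1) with hL
  have hLn : ∀ n, 20 * ρ ≤ L n := by
    intro n
    have : (0 : ℝ) ≤ n := Nat.cast_nonneg n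
    rw [hL]
    simp only
    nlinarith
  have hLt : Tendsto L atTop atTop := by
    refine Tendsto.const_mul_atTop (by positivity) ?_
    exact tendsto_atTop_add_const_right _ _ tendsto_natCast_atTop_atTop
  have ham : ∀ K, Adm ρ κ (pb G K) := pb_adm h hκ0
  have ham' : ∀ K, Adm ρ (1 / 40) (pb G K) := fun K =>
    ⟨(ham K).smooth, (ham K).supp, fun z => ((ham K).bdd z).trans hκ⟩
  have hK : ∀ n : ℕ, ∃ K, en (L n) (pb G K) (pb G (K + 1)) ≤ (1 / ((n : ℝ) + 1)) ^ 2 := by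
    intro n
    obtain ⟨N, hN⟩ := en_cauchy hρ0 (L := L n) (by linarith [hLn n]) ham' (pb_ev h)
      (ε := (1 / ((n : ℝ) + 1)) ^ 2) (by positivity)
    exact ⟨N, hN N (N + 1) le_rfl (by omega)⟩
  choose K hK using hK
  have hL8 : ∀ n, 8 * ρ ≤ L n := fun n => by linarith [hLn n]
  have hL4 : ∀ n, 4 * ρ ≤ L n := fun n => by linarith [hLn n]
  have he : ∀ n, ∃ e : ℂ ≃ₜ ℂ, (⇑e = ph ρ (L n) (pb G (K n))) ∧ ContDiff ℝ (⊤ : ℕ∞) e.symm :=
    fun n => exists_homeo hρ0 (hL8 n) (ham _) hκ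
  have he' : ∀ n, ∃ e : ℂ ≃ₜ ℂ, (⇑e = ph ρ (L n) (pb G (K n + 1))) ∧ ContDiff ℝ (⊤ : ℕ∞) e.symm :=
    fun n => exists_homeo hρ0 (hL8 n) (ham _) hκ
  choose e he hes using he
  choose e' he' hes' using he'
  set 𝒰 : Ultrafilter ℕ := Filter.hyperfilter ℕ with h𝒰
  have hle : (𝒰 : Filter ℕ) ≤ atTop := Nat.hyperfilter_le_atTop
  have hLU : ∀ B, ∀ᶠ n in (𝒰 : Filter ℕ), B ≤ L n := fun B => hle (hLt.eventually_ge_atTop B)
  -- closeness
  have hcl : ∀ z, Tendsto (fun n => e n z - e' n z) 𝒰 (𝓝 0) := by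
    intro z
    rw [Metric.tendsto_nhds]
    intro ε' hε'
    obtain ⟨N, hN, hcl⟩ := close hρ1 (ε := ε' / 2) (by linarith) (M := max (2 * ρ) ‖z‖) (le_max_left _ _)
    have h1 : ∀ᶠ n : ℕ in (𝒰 : Filter ℕ), 1 / ((n : ℝ) + 1) ≤ N :=
      hle ((tendsto_one_div_add_atTop_nhds_zero_nat (𝕜 := ℝ)).eventually (ge_mem_nhds hN))
    filter_upwards [h1, hLU (4 * max (2 * ρ) ‖z‖)] with n hn1 hn2
    have h2 := hcl (L n) (hLn n) hn2 _ _ (ham' (K n)) (ham' (K n + 1))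
      ((hK n).trans (pow_le_pow_left₀ (by positivity) hn1 2)) z (le_max_right _ _)
    rw [dist_zero_right, he, he']
    linarith
  -- bounds
  have hb : ∀ z, ∀ᶠ n in (𝒰 : Filter ℕ), ‖e n z‖ ≤ 5 / 4 * ‖z‖ + 5 * R := by
    intro z
    filter_upwards [hLU (4 * ‖z‖)] with n hn
    have := ph_growth hρ0 (hL8 n) (ham (K n)) hκ (z := z) (by linarith)
    rw [he]
    linarith
  have hbi : ∀ w t, 4 * ρ ≤ t → ‖w‖ < 3 / 4 * t → ∀ᶠ n in (𝒰 : Filter ℕ), ‖(e' n).symm w‖ < t := by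
    intro w t ht hw
    filter_upwards [hLU (4 * t)] with n hn
    exact inv_far hρ0 (hL8 n) (ham (K n + 1)) hκ (he' n) ht (by linarith) hw
  have hφ : ∀ z, ∃ v, ‖v‖ ≤ 5 / 4 * ‖z‖ + 5 * R ∧ Tendsto (fun n => e n z) 𝒰 (𝓝 v) :=
    fun z => ulim (hb z)
  choose Φ hΦb hΦ using hφ
  have hψ : ∀ w, ∃ v, ‖v‖ ≤ 4 / 3 * ‖w‖ + 8 * R + 2 ∧ Tendsto (fun n => (e' n).symm w) 𝒰 (𝓝 v) := by
    intro w
    refine ulim ?_
    have hw := norm_nonneg w
    filter_upwards [hbi w (4 / 3 * ‖w‖ + 8 * R + 2) (by linarith) (by linarith)] with n hn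
    exact hn.le
  choose Ψ hΨb hΨ using hψ
  have hΦ' : ∀ z, Tendsto (fun n => e' n z) 𝒰 (𝓝 (Φ z)) := by
    intro z
    have := (hΦ z).sub (hcl z)
    simpa using this
  -- equicontinuity
  have heq : ∀ (ν : ℕ → ℕ) (e : ℕ → ℂ ≃ₜ ℂ), (∀ n, ⇑(e n) = ph ρ (L n) (pb G (ν n))) →
      ∀ z0, Eqc (𝒰 : Filter ℕ) (fun n => e n) z0 := by
    intro ν e he z0 ε' hε'
    obtain ⟨r, hr, hr1, h1⟩ := om_small (7 + ρ ^ 2) (by positivity) hε'
    refine ⟨r, hr, ?_⟩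
    filter_upwards [hLU (2 * (‖z0‖ + 1))] with n hn z hz
    have hc : ContDiff ℝ 1 (e n) := by
      rw [he]
      exact (ph_smooth hρ0 (hL4 n) (ham _) hκ1).of_le (by exact_mod_cast le_top)
    refine (equi (e n) hc z0 hr hr1 (E := 7 + ρ ^ 2) ?_ z hz).trans h1
    rw [he]
    exact ph_energy hρ0 (hL8 n) (ham _) hκ (by linarith)
  have hq : ∀ z0, Eqc (𝒰 : Filter ℕ) (fun n => e n) z0 := heq K e he
  have hq' : ∀ z0, Eqc (𝒰 : Filter ℕ) (fun n => e' n) z0 := heq (fun n => K n + 1) e' he'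
  have hqi : ∀ w0, Eqc (𝒰 : Filter ℕ) (fun n => (e' n).symm) w0 := by
    intro w0 ε' hε'
    set t : ℝ := 4 / 3 * (‖w0‖ + 1) + 4 * ρ with ht
    have hw := norm_nonneg w0
    obtain ⟨r, hr, hr1, h1⟩ := om_small (4 * t ^ 2) (by positivity) hε'
    refine ⟨r, hr, ?_⟩
    filter_upwards [hLU (4 * t)] with n hn z hz
    refine (equi (e' n).symm ((hes' n).of_le (by exact_mod_cast le_top)) w0 hr hr1
      (E := 4 * t ^ 2) ?_ z hz).trans h1
    exact inv_energy hρ0 (hL8 n) (ham _) hκ (he' n) (hes' n) (t := t) (by linarith) (by linarith)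
      (by linarith)
  have hΦc : Continuous Φ := Eqc.cont hq hΦ
  have hΨc : Continuous Ψ := Eqc.cont hqi hΨ
  have h12 : ∀ w, Φ (Ψ w) = w := by
    intro w
    have h1 := (hq' (Ψ w)).conv (hΦ' (Ψ w)) (hΨ w)
    have h2 : (fun n => e' n ((e' n).symm w)) = fun _ => w := by
      funext n
      exact (e' n).apply_symm_apply w
    have h3 : Tendsto (fun _ : ℕ => w) (𝒰 : Filter ℕ) (𝓝 (Φ (Ψ w))) := by
      rw [← h2]
      exact h1
    exact tendsto_nhds_unique h3 tendsto_const_nhds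
  have h21 : ∀ z, Ψ (Φ z) = z := by
    intro z
    have h1 := (hqi (Φ z)).conv (hΨ (Φ z)) (hΦ' z)
    have h2 : (fun n => (e' n).symm (e' n z)) = fun _ => z := by
      funext n
      exact (e' n).symm_apply_apply z
    have h3 : Tendsto (fun _ : ℕ => z) (𝒰 : Filter ℕ) (𝓝 (Ψ (Φ z))) := by
      rw [← h2]
      exact h1
    exact tendsto_nhds_unique h3 tendsto_const_nhds
  let Φe : ℂ ≃ₜ ℂ := ⟨⟨Φ, Ψ, h21, h12⟩, hΦc, hΨc⟩
  refine ⟨Φe, ?_, ?_, hΦb, hΨb⟩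
  · -- the conjugate is entire
    have hlim : ∀ w, Tendsto (fun n => e n (G ((e' n).symm w))) 𝒰 (𝓝 (Φ (G (Ψ w)))) := by
      intro w
      exact (hq (G (Ψ w))).conv (hΦ _) ((h.smooth.continuous.tendsto _).comp (hΨ w))
    intro w1
    set r : ℝ := ‖w1‖ + 1 with hr
    have hr0 : 0 < r := by have := norm_nonneg w1; linarith
    set t : ℝ := 4 / 3 * r + 4 * ρ with ht
    have htr : r < 3 / 4 * t := by linarith
    -- bound for `G`
    obtain ⟨B, hB⟩ := (isCompact_closedBall (0 : ℂ) t).exists_bound_of_continuousOn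
      h.smooth.continuous.continuousOn
    have hB0 : 0 ≤ B := (norm_nonneg _).trans (hB 0 (by rw [mem_closedBall_zero_iff, norm_zero]; linarith))
    have hgood : ∀ᶠ n in (𝒰 : Filter ℕ), 4 * t + 4 * B + 1 ≤ L n := hLU _
    classical
    set F : ℕ → ℂ → ℂ := fun n w => if 4 * t + 4 * B + 1 ≤ L n then e n (G ((e' n).symm w)) else 0
      with hF
    have hsm : ∀ n, 4 * t + 4 * B + 1 ≤ L n → ∀ w ∈ ball (0 : ℂ) r, ‖(e' n).symm w‖ < t := by
      intro n hn w hw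
      rw [mem_ball_zero_iff] at hw
      exact inv_far hρ0 (hL8 n) (ham (K n + 1)) hκ (he' n) (by linarith) (by linarith) (by linarith)
    have hFd : ∀ n, DifferentiableOn ℂ (F n) (ball 0 r) := by
      intro n
      by_cases hn : 4 * t + 4 * B + 1 ≤ L n
      · have : F n = fun w => e n (G ((e' n).symm w)) := by
          funext w
          rw [hF]
          simp only [if_pos hn]
        rw [this]
        intro w hw
        have h1 := hsm n hn w hw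
        have h2 := hB _ (mem_closedBall_zero_iff.2 h1.le)
        have h3 := comp_holo h hκ0 (L := L n) (by linarith [hLn n]) (he n) (he' n) (hes' n)
          (z := (e' n).symm w) (ball_Qo _ (mem_ball_zero_iff.2 (by linarith)))
          (ball_Qo _ (mem_ball_zero_iff.2 (by linarith)))
        rw [(e' n).apply_symm_apply] at h3
        exact h3.differentiableWithinAt
      · have : F n = fun w => 0 := by
          funext w
          rw [hF]
          simp only [if_neg hn]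
        rw [this]
        exact differentiableOn_const 0
    have hFb : Pool.Agent.Helper114.Konig.LB (ball 0 r) F := by
      intro z hz
      refine ⟨ball 0 r, isOpen_ball.mem_nhds hz, 5 / 4 * B + 5 * R, fun n w hw => ?_⟩
      by_cases hn : 4 * t + 4 * B + 1 ≤ L n
      · have : F n w = e n (G ((e' n).symm w)) := by
          rw [hF]
          simp only [if_pos hn]
        rw [this, he]
        have h1 := hsm n hn w hw
        have h2 := hB _ (mem_closedBall_zero_iff.2 h1.le)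
        have h3 := ph_growth hρ0 (hL8 n) (ham (K n)) hκ (z := G ((e' n).symm w)) (by linarith)
        linarith
      · have : F n w = 0 := by
          rw [hF]
          simp only [if_neg hn]
        rw [this, norm_zero]
        positivity
    obtain ⟨H, hH, hHl⟩ := Pool.Agent.Helper114.Konig.locmontel isOpen_ball F hFd hFb 𝒰
    have hw1 : w1 ∈ ball (0 : ℂ) r := mem_ball_zero_iff.2 (by rw [hr]; linarith)
    have heqH : (fun w => Φe (G (Φe.symm w))) =ᶠ[𝓝 w1] H := by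
      filter_upwards [isOpen_ball.mem_nhds hw1] with w hw
      refine tendsto_nhds_unique (hlim w) ((hHl w hw).congr' ?_)
      filter_upwards [hgood] with n hn
      rw [hF]
      simp only [if_pos hn]
    exact heqH.differentiableAt_iff.2 ((hH w1 hw1).differentiableAt (isOpen_ball.mem_nhds hw1))
  · -- closeness to the identity
    intro z hz
    refine le_of_tendsto ((hΦ z).sub_const z).norm ?_
    filter_upwards [hLU (4 * M + 48 * R)] with n hn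
    rw [he]
    exact hclose0 (L n) (hLn n) hn _ (ham (K n)) z hz

/-- surgery, qualitative form -/
theorem surgery (R : ℝ) (hR : 1 ≤ R) {ε M : ℝ} (hε : 0 < ε) (hM : 4 * R ≤ M) :
    ∃ κ0 : ℝ, 0 < κ0 ∧ ∀ s1 s2 κ G, 0 ≤ κ → κ ≤ κ0 → QR R s1 s2 κ G →
      ∃ Φ : ℂ ≃ₜ ℂ, Differentiable ℂ (fun w => Φ (G (Φ.symm w))) ∧
        (∀ z, ‖z‖ ≤ M → ‖Φ z - z‖ ≤ ε) ∧ (∀ z, ‖Φ z‖ ≤ 5 / 4 * ‖z‖ + 5 * R) ∧
        ∀ w, ‖Φ.symm w‖ ≤ 4 / 3 * ‖w‖ + 8 * R + 2 := by
  set ρ : ℝ := 2 * R with hρ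
  have hρ1 : 1 ≤ ρ := by linarith
  have hρ0 : 0 < ρ := by linarith
  obtain ⟨N0, hN0, hclose0⟩ := close hρ1 hε (M := M) (by linarith)
  refine ⟨N0 / (3 * ρ), by positivity, fun s1 s2 κ G hκ0 hκN h => ?_⟩
  have hκ : κ ≤ 1 / 40 := h.hκ
  refine surgeryG R hR hκ0 (fun L hL1 hL2 μ hμ z hz => ?_) s1 s2 G h
  have hμ' : Adm ρ (1 / 40) μ := ⟨hμ.smooth, hμ.supp, fun z => (hμ.bdd z).trans hκ⟩
  have h1 := (en_a (L := L) hρ0 (by linarith) hμ' hμ hκ).2
  have h2 : en L μ (fun _ => 0) ≤ N0 ^ 2 := by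
    refine h1.trans ?_
    have h3 : 3 * κ * ρ ≤ N0 := by
      rw [le_div_iff₀ (by positivity)] at hκN
      linarith
    have h4 := pow_le_pow_left₀ (by positivity) h3 2
    nlinarith [sq_nonneg (κ * ρ)]
  have h3 := hclose0 L hL1 (by linarith) _ _ hμ' (adm_zero (by norm_num)) h2 z hz
  rw [ph_zero] at h3
  exact h3

end Pool.Agent.Helper23S
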