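import Pool.Agent.Helper23S.Dyn
import Pool.Agent.H269.R5.J12

/-!
# Polynomials which are limits of locally hyperbolic holomorphic functions
-/

set_option autoImplicit false
set_option linter.unusedSectionVars false

open MeasureTheory Set Filter Topology Metric

noncomputable section

namespace Pool.Agent.Helper23S

open Pool.Agent.Split938 (dbar)

/-- the coefficients are bounded by the maximum on the unit circle -/
theorem coeff_le (q : Polynomial ℂ) {ε : ℝ} (h : ∀ w : ℂ, ‖w‖ = 1 → ‖q.eval w‖ ≤ ε) (i : ℕ) :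
    ‖q.coeff i‖ ≤ ε := by
  have hε : 0 ≤ ε := (norm_nonneg _).trans (h 1 norm_one)
  by_cases hi : i ∈ q.support
  · have h1 := q.sum_sq_norm_coeff_eq_circleAverage
    have h2 : Real.circleAverage (fun w => ‖q.eval w‖ ^ 2) 0 1 ≤ ε ^ 2 := by
      refine Real.circleAverage_mono_on_of_le_circle ?_ fun w hw => ?_
      · have hc : Continuous fun w : ℂ => ‖q.eval w‖ ^ 2 := q.continuous.norm.pow 2
        exact hc.continuousOn.circleIntegrable'
      · refine pow_le_pow_left₀ (norm_nonneg _) (h w ?_) 2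
        simpa using hw
    have h3 : ‖q.coeff i‖ ^ 2 ≤ ∑ i ∈ q.support, ‖q.coeff i‖ ^ 2 :=
      Finset.single_le_sum (f := fun i => ‖q.coeff i‖ ^ 2) (fun _ _ => sq_nonneg _) hi
    have h4 : ‖q.coeff i‖ ^ 2 ≤ ε ^ 2 := by
      rw [h1] at h3
      exact h3.trans h2
    exact (abs_le_of_sq_le_sq' h4 hε).2
  · rw [Polynomial.notMem_support_iff.1 hi, norm_zero]
    exact hε

/-- growth of polynomials -/
theorem poly_le (P : Polynomial ℂ) : ∃ C : ℝ, 0 ≤ C ∧ ∀ z : ℂ, ‖P.eval z‖ ≤ C * (1 + ‖z‖) ^ P.natDegree := by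
  refine ⟨∑ i ∈ Finset.range (P.natDegree + 1), ‖P.coeff i‖, Finset.sum_nonneg fun _ _ => norm_nonneg _,
    fun z => ?_⟩
  rw [Polynomial.eval_eq_sum_range, Finset.sum_mul]
  refine norm_sum_le_of_le _ fun i hi => ?_
  rw [norm_mul, norm_pow]
  refine mul_le_mul_of_nonneg_left ?_ (norm_nonneg _)
  have h1 : ‖z‖ ^ i ≤ (1 + ‖z‖) ^ i := pow_le_pow_left₀ (norm_nonneg _) (by linarith) _
  exact h1.trans (pow_le_pow_right₀ (by linarith [norm_nonneg z])
    (by have := Finset.mem_range.1 hi; omega))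

/-- **Main theorem**, for a polynomial which expands outside the disc of radius `R`. -/
theorem main (P : Polynomial ℂ) (hP : 1 ≤ P.natDegree) (R : ℝ) (hf : PolyLike R (fun z => P.eval z))
    (H : ∀ δ : ℝ, 0 < δ → ∃ g : ℂ → ℂ, DifferentiableOn ℂ g (ball 0 (3 * R)) ∧
      (∀ z ∈ ball (0 : ℂ) (3 * R), ‖g z - P.eval z‖ ≤ δ) ∧ LocHyp R g) {ε : ℝ} (hε : 0 < ε) :
    ∃ P' : Polynomial ℂ, P'.natDegree = P.natDegree ∧ (∀ i : ℕ, ‖P'.coeff i - P.coeff i‖ < ε) ∧
      HypEnt (fun z => P'.eval z) := by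
  have hR := hf.R1
  set f : ℂ → ℂ := fun z => P.eval z with hfdef
  have hP0 : P ≠ 0 := by
    rintro rfl
    simp at hP
  have hlc : 0 < ‖P.leadingCoeff‖ := norm_pos_iff.2 (Polynomial.leadingCoeff_ne_zero.2 hP0)
  set ε' : ℝ := min ε ‖P.leadingCoeff‖ with hε'
  have hε'0 : 0 < ε' := lt_min hε hlc
  -- uniform continuity
  obtain ⟨η, hη, hηf⟩ : ∃ η > 0, ∀ z w : ℂ, ‖z‖ ≤ 2 → ‖w‖ ≤ 2 → ‖z - w‖ ≤ η → ‖f z - f w‖ ≤ ε' / 4 := by
    have h1 := (isCompact_closedBall (0 : ℂ) 2).uniformContinuousOn_of_continuous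
      (f := f) hf.hol.continuous.continuousOn
    rw [Metric.uniformContinuousOn_iff] at h1
    obtain ⟨η, hη, h2⟩ := h1 (ε' / 4) (by linarith)
    refine ⟨η / 2, by linarith, fun z w hz hw hzw => ?_⟩
    have := h2 z (mem_closedBall_zero_iff.2 hz) w (mem_closedBall_zero_iff.2 hw)
      (by rw [dist_eq_norm]; linarith)
    rw [dist_eq_norm] at this
    exact this.le
  obtain ⟨M2, hM2⟩ := (isCompact_closedBall (0 : ℂ) 2).exists_bound_of_continuousOn
    (f := f) hf.hol.continuous.continuousOn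
  have hM20 : 0 ≤ M2 := (norm_nonneg _).trans (hM2 0 (mem_closedBall_zero_iff.2 (by simp)))
  set ε1 : ℝ := min (min η (ε' / 4)) 1 with hε1
  have hε10 : 0 < ε1 := lt_min (lt_min hη (by linarith)) one_pos
  have hε1a : ε1 ≤ η := (min_le_left _ _).trans (min_le_left _ _)
  have hε1b : ε1 ≤ ε' / 4 := (min_le_left _ _).trans (min_le_right _ _)
  have hε1c : ε1 ≤ 1 := min_le_right _ _
  set M : ℝ := 12 * R + M2 + 1 with hM
  obtain ⟨κ1, hκ1, hsurg⟩ := surgery R hR hε10 (M := M) (by linarith)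
  set κ : ℝ := min κ1 (1 / 40) with hκ
  have hκ0 : 0 < κ := lt_min hκ1 (by norm_num)
  obtain ⟨δ0, hδ0, hcut⟩ := cut hf hκ0 (min_le_right _ _)
  set δ : ℝ := min δ0 (min (ε' / 4) (1 / 4)) with hδ
  have hδ00 : 0 < δ := lt_min hδ0 (lt_min (by linarith) (by norm_num))
  have hδa : δ ≤ ε' / 4 := (min_le_right _ _).trans (min_le_left _ _)
  have hδb : δ ≤ 1 / 4 := (min_le_right _ _).trans (min_le_right _ _)
  obtain ⟨g, hg, hgf, hloc⟩ := H δ hδ00
  obtain ⟨s1, s2, G, hQR, hGg, hGf, hpos⟩ := hcut δ hδ00.le (min_le_left _ _) g hg hgf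
  obtain ⟨Φ, hent, hid, hgr, hinv⟩ := hsurg s1 s2 κ G hκ0.le (min_le_left _ _) hQR
  set h : ℂ → ℂ := fun w => Φ (G (Φ.symm w)) with hh
  -- `h` is a polynomial
  obtain ⟨C, hC0, hC⟩ := poly_le P
  obtain ⟨P', hdeg', heval⟩ := Pool.Agent.H269.ge_liouville h hent P.natDegree
    (5 / 4 * (C * (8 * R + 3) ^ P.natDegree + 1) + 5 * R) 0 (fun w _ => by
      have h1 := hgr (G (Φ.symm w))
      have h2 := hGf (Φ.symm w)
      have h3 := norm_sub_norm_le (G (Φ.symm w)) (f (Φ.symm w))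
      have h4 := hC (Φ.symm w)
      have h5 := hinv w
      have h6 : 1 + ‖Φ.symm w‖ ≤ (8 * R + 3) * (1 + ‖w‖) := by
        have := norm_nonneg w
        nlinarith
      have h7 : (1 + ‖Φ.symm w‖) ^ P.natDegree ≤ (8 * R + 3) ^ P.natDegree * (1 + ‖w‖) ^ P.natDegree := by
        rw [← mul_pow]
        exact pow_le_pow_left₀ (by positivity) h6 _
      have h8 : (1 : ℝ) ≤ (1 + ‖w‖) ^ P.natDegree := one_le_pow₀ (by linarith [norm_nonneg w])
      have h9 : C * (1 + ‖Φ.symm w‖) ^ P.natDegree ≤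
          C * (8 * R + 3) ^ P.natDegree * (1 + ‖w‖) ^ P.natDegree := by
        rw [mul_assoc]
        exact mul_le_mul_of_nonneg_left h7 hC0
      have h10 : ‖G (Φ.symm w)‖ ≤
          C * (8 * R + 3) ^ P.natDegree * (1 + ‖w‖) ^ P.natDegree + 1 := by
        have : ‖f (Φ.symm w)‖ = ‖P.eval (Φ.symm w)‖ := rfl
        linarith
      show ‖Φ (G (Φ.symm w))‖ ≤ _
      nlinarith)
  have hheq : h = fun z => P'.eval z := by
    funext z
    exact (heval z).symm
  -- closeness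
  have hcl : ∀ w : ℂ, ‖w‖ = 1 → ‖(P' - P).eval w‖ ≤ 3 * (ε' / 4) := by
    intro w hw
    rw [Polynomial.eval_sub, heval]
    set z := Φ.symm w with hz
    have hwz : w = Φ z := (Φ.apply_symm_apply w).symm
    have h1 := hinv w
    rw [hw] at h1
    have h2 : ‖Φ z - z‖ ≤ ε1 := hid z (by
      have : ‖z‖ ≤ 4 / 3 * 1 + 8 * R + 2 := h1
      linarith)
    have hz2 : ‖z‖ ≤ 2 := by
      have h3 := norm_sub_norm_le z (Φ z)
      rw [norm_sub_rev, ← hwz] at h3
      rw [← hwz] at h2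
      linarith
    have h3 := hM2 z (mem_closedBall_zero_iff.2 hz2)
    have h4 := hGf z
    have h5 : ‖G z‖ ≤ M := by
      have := norm_sub_norm_le (G z) (f z)
      linarith
    have h6 := hid (G z) h5
    have h7 : ‖f z - f w‖ ≤ ε' / 4 := by
      refine hηf z w hz2 (by rw [hw]; norm_num) ?_
      rw [← hwz, norm_sub_rev] at h2
      linarith
    have h8 : h w - P.eval w = (Φ (G z) - G z) + (G z - f z) + (f z - f w) := by
      show Φ (G (Φ.symm w)) - f w = _
      ring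
    rw [h8]
    refine (norm_add₃_le).trans ?_
    linarith
  have hcoef : ∀ i, ‖P'.coeff i - P.coeff i‖ ≤ 3 * (ε' / 4) := by
    intro i
    rw [← Polynomial.coeff_sub]
    exact coeff_le _ hcl i
  have hdeg : P'.natDegree = P.natDegree := by
    refine le_antisymm hdeg' (Polynomial.le_natDegree_of_ne_zero ?_)
    intro h0
    have h1 := hcoef P.natDegree
    rw [h0, zero_sub, norm_neg] at h1
    have h2 : ‖P.coeff P.natDegree‖ = ‖P.leadingCoeff‖ := rfl
    have h3 : ε' ≤ ‖P.leadingCoeff‖ := min_le_right _ _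
    linarith
  refine ⟨P', hdeg, fun i => ?_, ?_⟩
  · have h1 := hcoef i
    have h2 : ε' ≤ ε := min_le_left _ _
    linarith
  · rw [← hheq]
    exact hyp_of_local hQR hGg hg hpos hloc Φ hent (C := 8 * R + 2) (fun w => by
      have := hinv w
      linarith)

end Pool.Agent.Helper23S
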