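import Pool.Agent.Helper23S.Weak
import Pool.Agent.H790R3.RB.TPQ
import Pool.Agent.H790R3.RB.TSP

/-!
# Rational maps close to a polynomial, outside a large disc
-/

set_option autoImplicit false
set_option linter.unusedSectionVars false

open MeasureTheory Set Filter Topology Metric
open scoped OnePoint

noncomputable section

namespace Pool.Agent.Helper23S

open Pool.Agent.H790R3.RB (CV hF ND sp pr hc pol HypTop PQ SP)

/-- a polynomial of degree `d` with bounded coefficients and leading coefficient bounded below -/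
structure Near (d : ℕ) (c A : ℝ) (P : Polynomial ℂ) : Prop where
  deg : P.natDegree ≤ d
  lead : c ≤ ‖P.coeff d‖
  bd : ∀ i, ‖P.coeff i‖ ≤ A

theorem poly_low {d : ℕ} {P : Polynomial ℂ} {c A : ℝ} (h : Near d c A P) (hc : 0 < c) {z : ℂ}
    (hz : 1 ≤ ‖z‖) (hz' : 2 * d * A / c ≤ ‖z‖) : c / 2 * ‖z‖ ^ d ≤ ‖P.eval z‖ := by
  have hA : 0 ≤ A := (norm_nonneg _).trans (h.bd 0)
  have h1 : P.eval z = (∑ i ∈ Finset.range d, P.coeff i * z ^ i) + P.coeff d * z ^ d := by
    rw [Polynomial.eval_eq_sum_range' (Nat.lt_succ_of_le h.deg), Finset.sum_range_succ]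
  have h2 : ‖∑ i ∈ Finset.range d, P.coeff i * z ^ i‖ ≤ c / 2 * ‖z‖ ^ d := by
    rcases Nat.eq_zero_or_pos d with h0 | h0
    · subst h0
      simp
      linarith
    · have h3 : ‖∑ i ∈ Finset.range d, P.coeff i * z ^ i‖ ≤ ∑ i ∈ Finset.range d, A * ‖z‖ ^ (d - 1) := by
        refine norm_sum_le_of_le _ fun i hi => ?_
        rw [norm_mul, norm_pow]
        refine mul_le_mul (h.bd i) (pow_le_pow_right₀ hz ?_) (by positivity) hA
        have := Finset.mem_range.1 hi
        omega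
      rw [Finset.sum_const, Finset.card_range, nsmul_eq_mul] at h3
      refine h3.trans ?_
      have h4 : ‖z‖ ^ d = ‖z‖ ^ (d - 1) * ‖z‖ := by
        rw [← pow_succ]
        congr 1
        omega
      rw [h4]
      rw [div_le_iff₀ hc] at hz'
      have h5 : 0 ≤ ‖z‖ ^ (d - 1) := by positivity
      nlinarith
  rw [h1]
  have h3 : ‖P.coeff d * z ^ d‖ = ‖P.coeff d‖ * ‖z‖ ^ d := by rw [norm_mul, norm_pow]
  have h4 : c * ‖z‖ ^ d ≤ ‖P.coeff d * z ^ d‖ := by
    rw [h3]
    exact mul_le_mul_of_nonneg_right h.lead (by positivity)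
  have h5 := norm_sub_norm_le (P.coeff d * z ^ d) (-∑ i ∈ Finset.range d, P.coeff i * z ^ i)
  rw [sub_neg_eq_add, norm_neg, add_comm (P.coeff d * z ^ d)] at h5
  linarith

theorem poly_up {d : ℕ} {P : Polynomial ℂ} {A r : ℝ} (hdeg : P.natDegree ≤ d)
    (hbd : ∀ i, ‖P.coeff i‖ ≤ A) (hr : 1 ≤ r) {z : ℂ} (hz : ‖z‖ ≤ r) :
    ‖P.eval z‖ ≤ A * ((d + 1) * r ^ d) := by
  have hA : 0 ≤ A := (norm_nonneg _).trans (hbd 0)
  rw [Polynomial.eval_eq_sum_range' (Nat.lt_succ_of_le hdeg)]
  have h3 : ‖∑ i ∈ Finset.range (d + 1), P.coeff i * z ^ i‖ ≤ ∑ i ∈ Finset.range (d + 1), A * r ^ d := by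
    refine norm_sum_le_of_le _ fun i hi => ?_
    rw [norm_mul, norm_pow]
    refine mul_le_mul (hbd i) ?_ (by positivity) hA
    refine (pow_le_pow_left₀ (norm_nonneg _) hz i).trans (pow_le_pow_right₀ hr ?_)
    have := Finset.mem_range.1 hi
    omega
  rw [Finset.sum_const, Finset.card_range, nsmul_eq_mul] at h3
  refine h3.trans (le_of_eq ?_)
  push_cast
  ring

/-- the radius -/
structure Rad (d : ℕ) (c A R : ℝ) : Prop where
  hd : 2 ≤ d
  hc : 0 < c
  hA : 0 ≤ A
  R1 : 1 ≤ R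
  R2 : 2 * d * A / c ≤ R
  R3 : 8 / c ≤ R

theorem exists_rad {d : ℕ} {c A : ℝ} (hd : 2 ≤ d) (hc : 0 < c) (hA : 0 ≤ A) : ∃ R, Rad d c A R := by
  refine ⟨1 + 2 * d * A / c + 8 / c, hd, hc, hA, ?_, ?_, ?_⟩
  all_goals
    have h1 : 0 ≤ 2 * d * A / c := by positivity
    have h2 : 0 ≤ 8 / c := by positivity
    linarith

section

variable {d : ℕ} {c A R : ℝ}

theorem Near.der {P : Polynomial ℂ} (h : Near d c A P) (hd : 1 ≤ d) (hc : 0 < c) :
    Near (d - 1) (c * d) (A * d) P.derivative where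
  deg := (Polynomial.natDegree_derivative_le P).trans (Nat.sub_le_sub_right h.deg 1)
  lead := by
    rw [Polynomial.coeff_derivative]
    have h1 : d - 1 + 1 = d := by omega
    have h2 : ((d - 1 : ℕ) : ℂ) + 1 = (d : ℂ) := by
      rw [← Nat.cast_succ, Nat.succ_eq_add_one, h1]
    rw [h1, h2, norm_mul, Complex.norm_natCast]
    exact mul_le_mul_of_nonneg_right h.lead (by positivity)
  bd := fun i => by
    have hA : 0 ≤ A := (norm_nonneg _).trans (h.bd 0)
    rw [Polynomial.coeff_derivative]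
    by_cases hi : i + 1 ≤ d
    · have h2 : ((i : ℂ) + 1) = ((i + 1 : ℕ) : ℂ) := by push_cast; ring
      rw [h2, norm_mul, Complex.norm_natCast]
      exact mul_le_mul (h.bd _) (by exact_mod_cast hi) (by positivity) hA
    · rw [Polynomial.coeff_eq_zero_of_natDegree_lt (lt_of_le_of_lt h.deg (by omega)), zero_mul,
        norm_zero]
      positivity

theorem Near.polyLike {P : Polynomial ℂ} (h : Near d c A P) (hR : Rad d c A R) :
    PolyLike R (fun z => P.eval z) where
  hol := P.differentiable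
  R1 := hR.R1
  big := fun z hz => by
    have hc := hR.hc
    have hd := hR.hd
    have h1 : 1 ≤ ‖z‖ := hR.R1.trans hz
    refine le_trans ?_ (poly_low h hR.hc h1 (hR.R2.trans hz))
    have h2 := hR.R3.trans hz
    rw [div_le_iff₀ hc] at h2
    have h3 : ‖z‖ ^ 2 ≤ ‖z‖ ^ d := pow_le_pow_right₀ h1 hd
    have h4 : c / 2 * ‖z‖ ^ 2 ≤ c / 2 * ‖z‖ ^ d := mul_le_mul_of_nonneg_left h3 (by positivity)
    nlinarith
  der := fun z hz => by
    have hc := hR.hc
    have hd := hR.hd
    have h1 : 1 ≤ ‖z‖ := hR.R1.trans hz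
    rw [Polynomial.deriv]
    have hd1 : (1 : ℝ) ≤ d := by exact_mod_cast (by omega : 1 ≤ d)
    have h0 := h.der (by omega) hc
    refine le_trans ?_ (poly_low h0 (by positivity) h1 ?_)
    · have h2 := hR.R3.trans hz
      rw [div_le_iff₀ hc] at h2
      have h3 : ‖z‖ ^ 1 ≤ ‖z‖ ^ (d - 1) := pow_le_pow_right₀ h1 (by omega)
      rw [pow_one] at h3
      have h4 : c * d / 2 * ‖z‖ ≤ c * d / 2 * ‖z‖ ^ (d - 1) :=
        mul_le_mul_of_nonneg_left h3 (by positivity)
      have h5 : c / 2 * ‖z‖ ≤ c * d / 2 * ‖z‖ := by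
        have : c * 1 ≤ c * d := mul_le_mul_of_nonneg_left hd1 hc.le
        nlinarith [norm_nonneg z]
      linarith
    · refine le_trans ?_ (hR.R2.trans hz)
      rw [div_le_div_iff₀ (by positivity) hc]
      have h6 : ((d - 1 : ℕ) : ℝ) ≤ d := by exact_mod_cast Nat.sub_le d 1
      have hA := hR.hA
      have h7 : 0 ≤ A * d * c := by positivity
      nlinarith

/-- the two components of the homogeneous map on `(z, 1)` -/
theorem hF_one (x : CV d) (hd : 1 ≤ d) (hx : ND x) (z : ℂ) :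
    hF x (z, 1) = ((pol x 0).eval z, (pol x 1).eval z) := by
  obtain ⟨-, -, h3, h4, -⟩ := (PQ SP d hd).1 x hx
  have h5 : ∀ i : Fin 2, (pol x i).natDegree < d + 1 := fun i =>
    Nat.lt_succ_of_le ((Polynomial.natDegree_le_iff_coeff_eq_zero).2 fun j hj => h4 i j hj)
  have h6 : ∀ i : Fin 2, (pol x i).eval z = ∑ j : Fin (d + 1), x (i, j) * z ^ (j : ℕ) := by
    intro i
    rw [Polynomial.eval_eq_sum_range' (h5 i), Finset.sum_range]
    exact Finset.sum_congr rfl fun j _ => by rw [h3]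
  unfold hF
  rw [h6, h6]
  simp

/-- the two components of the homogeneous map on `(1, 0)` -/
theorem hF_inf (x : CV d) : hF x (1, 0) = (x (0, Fin.last d), x (1, Fin.last d)) := by
  unfold hF
  have h1 : ∀ i : Fin 2, ∑ j : Fin (d + 1), x (i, j) * ((1 : ℂ) ^ (j : ℕ) * (0 : ℂ) ^ (d - (j : ℕ))) =
      x (i, Fin.last d) := by
    intro i
    rw [Finset.sum_eq_single (Fin.last d)]
    · simp
    · intro j _ hj
      have : d - (j : ℕ) ≠ 0 := by
        intro h0
        apply hj
        apply Fin.ext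
        have := j.2
        simp only [Fin.val_last]
        omega
      rw [zero_pow this]
      ring
    · intro h
      exact absurd (Finset.mem_univ _) h
  simp only [h1]

theorem pr_ne {q : ℂ × ℂ} {R : ℝ} (hq : R * ‖q.2‖ ≤ ‖q.1‖) {z : ℂ} (hz : ‖z‖ < R) :
    pr q ≠ (z : OnePoint ℂ) := by
  unfold pr
  by_cases h : q.2 = 0
  · rw [if_pos h]
    exact OnePoint.infty_ne_coe z
  · rw [if_neg h]
    intro he
    have h1 := OnePoint.coe_injective he
    have h2 : 0 < ‖q.2‖ := norm_pos_iff.2 h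
    have h3 : ‖z‖ * ‖q.2‖ = ‖q.1‖ := by
      rw [← h1, norm_div, div_mul_cancel₀ _ h2.ne']
    nlinarith

/-- a hyperbolic rational map which is close to a polynomial restricts to a hyperbolic map of a
large disc -/
theorem rat_loc (hR : Rad d c (A + 1) R) : ∃ B η0 : ℝ, 0 < B ∧ 0 < η0 ∧ ∀ P, Near d (2 * c) A P →
    ∀ x : CV d, ND x → HypTop (sp x) → ∀ η : ℝ, η ≤ η0 →
      (∀ j : ℕ, ‖(pol x 0).coeff j - P.coeff j‖ ≤ η) →
      (∀ j : ℕ, ‖(pol x 1).coeff j - (1 : Polynomial ℂ).coeff j‖ ≤ η) →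
        ∃ g : ℂ → ℂ, DifferentiableOn ℂ g (ball 0 (3 * R)) ∧
          (∀ z ∈ ball (0 : ℂ) (3 * R), ‖g z - P.eval z‖ ≤ B * η) ∧ LocHyp R g := by
  have hc := hR.hc
  have hd := hR.hd
  have hR1 := hR.R1
  have hR0 : 0 < R := by linarith
  have hdp : (0 : ℝ) < d + 1 := by positivity
  set E : ℝ := (d + 1) * (3 * R) ^ d with hE
  have hE0 : 0 < E := by positivity
  have hE1 : (d : ℝ) + 1 ≤ E := by
    rw [hE]
    have : (1 : ℝ) ≤ (3 * R) ^ d := one_le_pow₀ (by linarith)
    nlinarith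
  have hAn : 0 ≤ A + 1 := hR.hA
  set B : ℝ := 2 * (E + (A + 1) * E * E) with hB
  have hB0 : 0 < B := by positivity
  refine ⟨B, min (min c 1) (min (1 / (2 * E)) (c / (4 * R * (d + 1)))), hB0, by positivity,
    fun P hP x hx hyp η hη h0 h1 => ?_⟩
  have hη1 : η ≤ c := hη.trans ((min_le_left _ _).trans (min_le_left _ _))
  have hη2 : η ≤ 1 := hη.trans ((min_le_left _ _).trans (min_le_right _ _))
  have hη3 : η ≤ 1 / (2 * E) := hη.trans ((min_le_right _ _).trans (min_le_left _ _))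
  have hη4 : η ≤ c / (4 * R * (d + 1)) := hη.trans ((min_le_right _ _).trans (min_le_right _ _))
  have hη0 : 0 ≤ η := (norm_nonneg _).trans (h0 0)
  rw [le_div_iff₀ (by positivity)] at hη3 hη4
  have hA0 : 0 ≤ A := (norm_nonneg _).trans (hP.bd 0)
  have hd1 : 1 ≤ d := by omega
  obtain ⟨hcop, hmax, hco, hhi, hev⟩ := (PQ SP d hd1).1 x hx
  have hdeg : ∀ i : Fin 2, (pol x i).natDegree ≤ d := fun i =>
    (Polynomial.natDegree_le_iff_coeff_eq_zero).2 fun j hj => hhi i j hj
  set P1 := pol x 0 with hP1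
  set Q1 := pol x 1 with hQ1
  have hnear : Near d c (A + 1) P1 := by
    refine ⟨hdeg 0, ?_, fun i => ?_⟩
    · have h2 := norm_sub_norm_le (P.coeff d) (P1.coeff d)
      rw [norm_sub_rev] at h2
      have h3 := h0 d
      have h4 := hP.lead
      linarith
    · have h2 := norm_sub_norm_le (P1.coeff i) (P.coeff i)
      have h3 := h0 i
      have h4 := hP.bd i
      linarith
  -- bounds for `Q1`
  have hQ : ∀ r : ℝ, 1 ≤ r → ∀ z : ℂ, ‖z‖ ≤ r → ‖Q1.eval z - 1‖ ≤ η * ((d + 1) * r ^ d) := by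
    intro r hr z hz
    have h2 : Q1.eval z - 1 = (Q1 - 1).eval z := by
      rw [Polynomial.eval_sub, Polynomial.eval_one]
    rw [h2]
    refine poly_up ?_ (fun i => ?_) hr hz
    · refine (Polynomial.natDegree_sub_le _ _).trans (max_le (hdeg 1) ?_)
      rw [Polynomial.natDegree_one]
      omega
    · rw [Polynomial.coeff_sub]
      exact h1 i
  -- expansion
  have hexp : ∀ z : ℂ, R ≤ ‖z‖ → R * ‖Q1.eval z‖ < ‖P1.eval z‖ := by
    intro z hz
    have hz1 : 1 ≤ ‖z‖ := hR1.trans hz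
    have h2 := poly_low hnear hc hz1 (hR.R2.trans hz)
    have h3 := hQ ‖z‖ hz1 z le_rfl
    have h4 : ‖Q1.eval z‖ ≤ 1 + ‖Q1.eval z - 1‖ := by
      have := norm_add_le (1 : ℂ) (Q1.eval z - 1)
      rwa [add_sub_cancel, norm_one] at this
    have h5 : R * ‖Q1.eval z‖ ≤ R + R * (η * ((d + 1) * ‖z‖ ^ d)) := by
      have := mul_le_mul_of_nonneg_left (h4.trans (add_le_add_right h3 1)) hR0.le
      linarith
    have h6 : R * (η * ((d + 1) * ‖z‖ ^ d)) ≤ c / 4 * ‖z‖ ^ d := by
      have h7 : 0 ≤ ‖z‖ ^ d := by positivity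
      have h8 : R * η * (d + 1) ≤ c / 4 := by linarith
      have := mul_le_mul_of_nonneg_right h8 h7
      linarith
    have h7 : 2 * R ≤ c / 4 * ‖z‖ ^ d := by
      have h8 := hR.R3.trans hz
      rw [div_le_iff₀ hc] at h8
      have h9 : ‖z‖ ^ 2 ≤ ‖z‖ ^ d := pow_le_pow_right₀ hz1 hd
      have h10 : c / 4 * ‖z‖ ^ 2 ≤ c / 4 * ‖z‖ ^ d := mul_le_mul_of_nonneg_left h9 (by positivity)
      nlinarith
    linarith
  have hQne : ∀ z ∈ ball (0 : ℂ) (3 * R), ‖Q1.eval z - 1‖ ≤ η * E ∧ 1 / 2 ≤ ‖Q1.eval z‖ := by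
    intro z hz
    rw [mem_ball_zero_iff] at hz
    have h2 := hQ (3 * R) (by linarith) z hz.le
    refine ⟨h2, ?_⟩
    have h3 := norm_sub_norm_le (1 : ℂ) (Q1.eval z)
    rw [norm_one, norm_sub_rev] at h3
    have h4 : η * E ≤ 1 / 2 := by linarith
    linarith
  have hQne' : ∀ z ∈ ball (0 : ℂ) (3 * R), Q1.eval z ≠ 0 := fun z hz h2 => by
    have := (hQne z hz).2
    rw [h2, norm_zero] at this
    linarith
  refine ⟨fun z => P1.eval z / Q1.eval z, ?_, ?_, ?_⟩
  · exact P1.differentiable.differentiableOn.div Q1.differentiable.differentiableOn hQne'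
  · intro z hz
    have h2 := hQne z hz
    have h3 := hQne' z hz
    rw [mem_ball_zero_iff] at hz
    have h4 : P1.eval z / Q1.eval z - P.eval z =
        ((P1 - P).eval z - P.eval z * (Q1.eval z - 1)) / Q1.eval z := by
      rw [Polynomial.eval_sub]
      field_simp
      ring
    rw [h4, norm_div, div_le_iff₀ (by linarith)]
    have h5 : ‖(P1 - P).eval z‖ ≤ η * E := by
      refine poly_up ?_ (fun i => ?_) (by linarith) hz.le
      · exact (Polynomial.natDegree_sub_le _ _).trans (max_le (hdeg 0) hP.deg)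
      · rw [Polynomial.coeff_sub]
        exact h0 i
    have h6 : ‖P.eval z‖ ≤ (A + 1) * E :=
      poly_up hP.deg (fun i => (hP.bd i).trans (by linarith)) (by linarith) hz.le
    have h7 : ‖(P1 - P).eval z - P.eval z * (Q1.eval z - 1)‖ ≤ η * E + (A + 1) * E * (η * E) := by
      refine (norm_sub_le _ _).trans (add_le_add h5 ?_)
      rw [norm_mul]
      exact mul_le_mul h6 h2.1 (norm_nonneg _) (by positivity)
    refine h7.trans ?_
    have h8 : η * E + (A + 1) * E * (η * E) = B * η * (1 / 2) := by rw [hB]; ring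
    rw [h8]
    exact mul_le_mul_of_nonneg_left h2.2 (by positivity)
  · have hspz : ∀ z : ℂ, sp x (z : OnePoint ℂ) = pr (P1.eval z, Q1.eval z) := by
      intro z
      show pr (hF x (z, 1)) = _
      rw [hF_one x hd1 hx]
    refine loc_of_weak hR0 (SP d x hd1 hx).1 ?_ ?_ ?_ ?_ hyp
    · exact P1.differentiable.differentiableOn.div Q1.differentiable.differentiableOn hQne'
    · intro z hz
      exact hev z (hQne' z hz)
    · intro y hy z hz
      induction y using OnePoint.rec with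
      | infty =>
        show pr (hF x (1, 0)) ≠ _
        rw [hF_inf]
        refine pr_ne ?_ hz
        simp only
        have h2 : (x (0, Fin.last d)) = P1.coeff d := (hco 0 (Fin.last d)).symm
        have h3 : (x (1, Fin.last d)) = Q1.coeff d := (hco 1 (Fin.last d)).symm
        rw [h2, h3]
        have h4 := hnear.lead
        have h5 := h1 d
        rw [Polynomial.coeff_one, if_neg (by omega), sub_zero] at h5
        have h6 : R * ‖Q1.coeff d‖ ≤ R * η := mul_le_mul_of_nonneg_left h5 hR0.le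
        have h7 : R * η ≤ c := by
          have h8 : (1 : ℝ) ≤ d + 1 := by
            have : (0 : ℝ) ≤ d := Nat.cast_nonneg d
            linarith
          have h9 : 0 ≤ R * η := by positivity
          nlinarith
        linarith
      | coe w =>
        have hw : R ≤ ‖w‖ := by
          by_contra hc'
          exact hy w (not_le.1 hc') rfl
        rw [hspz]
        exact pr_ne (hexp w hw).le hz
    · intro z hz
      have h2 := hexp z hz.ge
      have h3 : z ∈ ball (0 : ℂ) (3 * R) := mem_ball_zero_iff.2 (by linarith)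
      have h4 : 0 < ‖Q1.eval z‖ := norm_pos_iff.2 (hQne' z h3)
      rw [norm_div, lt_div_iff₀ h4]
      exact h2

end

end Pool.Agent.Helper23S
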