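import Pool.Agent.Helper23S.Main
import Pool.Agent.Helper23S.Trap
import Pool.Agent.Helper23S.Hol2

/-!
# The distance of a polynomial to the hyperbolic polynomials
-/

set_option autoImplicit false
set_option linter.unusedSectionVars false

open MeasureTheory Set Filter Topology Metric
open scoped OnePoint

noncomputable section

namespace Pool.Agent.Helper23S

open Pool.Agent.Split938 (dbar)

theorem Near.mono {d : ℕ} {c c' A A' : ℝ} {P : Polynomial ℂ} (h : Near d c A P) (hc : c' ≤ c)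
    (hA : A ≤ A') : Near d c' A' P := ⟨h.deg, hc.trans h.lead, fun i => (h.bd i).trans hA⟩

theorem log_sqrt_bound {x : ℝ} (hx : 0 < x) :
    x * (1 + Real.log (1 / x)) ≤ 3 * Real.sqrt x := by
  have hs : 0 < Real.sqrt x := Real.sqrt_pos.2 hx
  have h2 : Real.sqrt x ^ 2 = x := Real.sq_sqrt hx.le
  have h3 : Real.log (1 / x) = 2 * Real.log (1 / Real.sqrt x) := by
    rw [one_div, one_div, Real.log_inv, Real.log_inv, ← h2, Real.log_pow]
    push_cast
    rw [Real.sqrt_sq hs.le]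
    ring
  have h4 : Real.log (1 / Real.sqrt x) ≤ 1 / Real.sqrt x - 1 :=
    Real.log_le_sub_one_of_pos (by positivity)
  have h5 : x * (1 / Real.sqrt x) = Real.sqrt x := by
    rw [← h2, Real.sqrt_sq hs.le]
    field_simp
  rw [h3]
  have h6 : x * (1 + 2 * Real.log (1 / Real.sqrt x)) ≤ x * (1 + 2 * (1 / Real.sqrt x - 1)) :=
    mul_le_mul_of_nonneg_left (by linarith) hx.le
  have h7 : x * (1 + 2 * (1 / Real.sqrt x - 1)) = 2 * Real.sqrt x - x := by
    have : x * (1 + 2 * (1 / Real.sqrt x - 1)) = 2 * (x * (1 / Real.sqrt x)) - x := by ring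
    rw [this, h5]
  rw [h7] at h6
  linarith

theorem growth_aux {R : ℝ} (hR : 1 ≤ R) {P : Polynomial ℂ} {C' : ℝ} {n : ℕ} (hC'0 : 0 ≤ C')
    (hC' : ∀ z : ℂ, ‖P.eval z‖ ≤ C' * (1 + ‖z‖) ^ n) {Φ : ℂ ≃ₜ ℂ} {G : ℂ → ℂ}
    (hGf : ∀ z, ‖G z - P.eval z‖ ≤ 1) (hgr : ∀ z, ‖Φ z‖ ≤ 5 / 4 * ‖z‖ + 5 * R)
    (hinv : ∀ w, ‖Φ.symm w‖ ≤ 4 / 3 * ‖w‖ + 8 * R + 2) (w : ℂ) :
    ‖Φ (G (Φ.symm w))‖ ≤ (5 / 4 * (C' * (8 * R + 3) ^ n + 1) + 5 * R) * (1 + ‖w‖) ^ n := by
  have h1 := hgr (G (Φ.symm w))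
  have h2 := hGf (Φ.symm w)
  have h3 := norm_sub_norm_le (G (Φ.symm w)) (P.eval (Φ.symm w))
  have h4 := hC' (Φ.symm w)
  have h5 := hinv w
  have h6 : 1 + ‖Φ.symm w‖ ≤ (8 * R + 3) * (1 + ‖w‖) := by
    have := norm_nonneg w
    nlinarith
  have h7 : (1 + ‖Φ.symm w‖) ^ n ≤ (8 * R + 3) ^ n * (1 + ‖w‖) ^ n := by
    rw [← mul_pow]
    exact pow_le_pow_left₀ (by positivity) h6 _
  have h8 : (1 : ℝ) ≤ (1 + ‖w‖) ^ n := one_le_pow₀ (by linarith [norm_nonneg w])
  have h9 : C' * (1 + ‖Φ.symm w‖) ^ n ≤ C' * (8 * R + 3) ^ n * (1 + ‖w‖) ^ n := by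
    rw [mul_assoc]
    exact mul_le_mul_of_nonneg_left h7 hC'0
  set X := C' * (8 * R + 3) ^ n with hX
  set Y := (1 + ‖w‖) ^ n with hY
  have h10 : ‖G (Φ.symm w)‖ ≤ X * Y + 1 := by linarith
  have h11 : (5 / 4 * (X + 1) + 5 * R) * Y = 5 / 4 * (X * Y) + 5 / 4 * Y + 5 * R * Y := by ring
  have h12 : 5 * R * 1 ≤ 5 * R * Y := mul_le_mul_of_nonneg_left h8 (by linarith)
  rw [h11]
  linarith

/-- the quantitative main theorem -/
theorem mainQ {d : ℕ} {c A R : ℝ} (hR : Rad d c A R) (N0 : ℕ) {δ1 : ℝ} (hδ1 : 0 < δ1) :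
    ∃ C δ2 : ℝ, 0 < C ∧ 0 < δ2 ∧ δ2 ≤ 1 ∧ ∀ P : Polynomial ℂ, Near d c A P →
      (∀ g : ℂ → ℂ, DifferentiableOn ℂ g (ball 0 (3 * R)) →
        (∀ z ∈ ball (0 : ℂ) (3 * R), ‖g z - P.eval z‖ ≤ δ1) →
        ∀ S : Finset ℂ, (∀ c ∈ S, ‖c‖ < R ∧ deriv g c = 0) → S.card ≤ N0) →
      ∀ δ : ℝ, 0 < δ → δ ≤ δ2 → ∀ g : ℂ → ℂ, DifferentiableOn ℂ g (ball 0 (3 * R)) →
        (∀ z ∈ ball (0 : ℂ) (3 * R), ‖g z - P.eval z‖ ≤ δ) → LocHyp R g →
          ∃ P' : Polynomial ℂ, P'.natDegree = d ∧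
            (∀ i : ℕ, ‖P'.coeff i - P.coeff i‖ ≤ C * (δ * (1 + Real.log (1 / δ)))) ∧
              HypEnt (fun z => P'.eval z) := by
  have hc := hR.hc
  have hd := hR.hd
  have hA := hR.hA
  have hR1 := hR.R1
  obtain ⟨B, hB, hcut⟩ := cutC N0
  set M2 : ℝ := A * ((d + 1) * 2 ^ d) with hM2
  have hM20 : 0 ≤ M2 := by positivity
  set M : ℝ := 12 * R + M2 + 1 with hM
  have hM0 : 0 ≤ M := by linarith
  obtain ⟨C1, hC1, hph⟩ := ph_close (ρ := 2 * R) (by linarith) hM0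
  set Lp : ℝ := A * d * (((d - 1 : ℕ) + 1) * 2 ^ (d - 1)) with hLp
  have hLp0 : 0 ≤ Lp := by positivity
  set b : ℝ := 2 * (B + 4) with hb
  have hb0 : 0 < b := by positivity
  have hb1 : 1 ≤ b := by linarith
  set C : ℝ := (1 + Lp) * C1 * b + 1 with hC
  have hC0 : 0 < C := by positivity
  -- the smallness of `κ`
  set s0 : ℝ := min 1 c / (2 * (1 + (1 + Lp) * (3 * C1))) with hs0
  have hs00 : 0 < s0 := by
    have : 0 < min 1 c := lt_min one_pos hc
    positivity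
  set δ2 : ℝ := min (min δ1 (1 / (40 * b))) (min (s0 ^ 2 / b) (min (c / 4) 1)) with hδ2
  have hδ20 : 0 < δ2 := by
    have h1 : 0 < 1 / (40 * b) := by positivity
    have h2 : 0 < s0 ^ 2 / b := by positivity
    exact lt_min (lt_min hδ1 h1) (lt_min h2 (lt_min (by positivity) one_pos))
  refine ⟨C, δ2, hC0, hδ20, (min_le_right _ _).trans ((min_le_right _ _).trans (min_le_right _ _)),
    fun P hP hcount δ hδ hδle g hg hgf hloc => ?_⟩
  have e1 : δ ≤ δ1 := hδle.trans ((min_le_left _ _).trans (min_le_left _ _))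
  have e2 : δ ≤ 1 / (40 * b) := hδle.trans ((min_le_left _ _).trans (min_le_right _ _))
  have e3 : δ ≤ s0 ^ 2 / b := hδle.trans ((min_le_right _ _).trans (min_le_left _ _))
  have e4 : δ ≤ c / 4 := hδle.trans ((min_le_right _ _).trans ((min_le_right _ _).trans (min_le_left _ _)))
  have e5 : δ ≤ 1 := hδle.trans ((min_le_right _ _).trans ((min_le_right _ _).trans (min_le_right _ _)))
  set κ : ℝ := b * δ with hκ
  have hκ0 : 0 < κ := by positivity
  have hκ40 : κ ≤ 1 / 40 := by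
    rw [le_div_iff₀ (by positivity)] at e2
    rw [hκ]
    linarith
  have hκs : Real.sqrt κ ≤ s0 := by
    rw [Real.sqrt_le_left hs00.le]
    rw [le_div_iff₀ hb0] at e3
    rw [hκ]
    linarith
  have hf := hP.polyLike hR
  set f : ℂ → ℂ := fun z => P.eval z with hfdef
  obtain ⟨s1, s2, G, hQR, hGg, hGf, hpos⟩ := hcut hf δ1 hcount κ hκ0 hκ40 δ hδ.le e1
    (by rw [hκ, hb]; linarith) g hg hgf
  set ε1 : ℝ := C1 * (κ * (1 + Real.log (1 / κ))) with hε1
  have hlogκ : 0 ≤ Real.log (1 / κ) := Real.log_nonneg (by rw [le_div_iff₀ hκ0]; linarith)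
  have hε10 : 0 ≤ ε1 := by positivity
  have hε1s : ε1 ≤ 3 * C1 * Real.sqrt κ := by
    have h1 := log_sqrt_bound hκ0
    calc ε1 ≤ C1 * (3 * Real.sqrt κ) := mul_le_mul_of_nonneg_left h1 hC1.le
      _ = _ := by ring
  have hsmall : (1 + Lp) * ε1 ≤ min 1 c / 2 := by
    have h1 : (1 + Lp) * ε1 ≤ (1 + Lp) * (3 * C1 * s0) := by
      refine mul_le_mul_of_nonneg_left (hε1s.trans ?_) (by positivity)
      exact mul_le_mul_of_nonneg_left hκs (by positivity)
    refine h1.trans ?_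
    have h2 : s0 * (2 * (1 + (1 + Lp) * (3 * C1))) = min 1 c := by
      rw [hs0]
      field_simp
    nlinarith
  have hε11 : ε1 ≤ 1 := by
    have h1 : min 1 c ≤ 1 := min_le_left _ _
    have h2 : 0 ≤ Lp * ε1 := by positivity
    nlinarith
  obtain ⟨Φ, hent, hid, hgr, hinv⟩ := surgeryG R hR1 hκ0.le (ε := ε1) (M := M)
    (fun L hL1 hL2 μ hμ z hz => hph κ L μ hκ0 hκ40 (by linarith) (by linarith) hμ z hz) s1 s2 G hQR
  set h : ℂ → ℂ := fun w => Φ (G (Φ.symm w)) with hh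
  -- `h` is a polynomial
  obtain ⟨C', hC'0, hC'⟩ := poly_le P
  obtain ⟨P', hdeg', heval⟩ := Pool.Agent.H269.ge_liouville h hent P.natDegree
    (5 / 4 * (C' * (8 * R + 3) ^ P.natDegree + 1) + 5 * R) 0
    (fun w _ => growth_aux hR1 hC'0 hC' (fun z => (hGf z).trans e5) hgr hinv w)
  have hheq : h = fun z => P'.eval z := by
    funext z
    exact (heval z).symm
  have hPdeg : P.natDegree ≤ d := hP.deg
  -- Lipschitz bound
  have hlip : ∀ z w : ℂ, ‖z‖ ≤ 2 → ‖w‖ ≤ 2 → ‖f z - f w‖ ≤ Lp * ‖z - w‖ := by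
    intro z w hz hw
    refine (convex_closedBall (0 : ℂ) 2).norm_image_sub_le_of_norm_deriv_le (f := f) (C := Lp)
      (fun x _ => hf.hol x) (fun x hx => ?_) (mem_closedBall_zero_iff.2 hw)
      (mem_closedBall_zero_iff.2 hz)
    have h1 := hP.der (by omega) hc
    rw [hfdef, Polynomial.deriv]
    exact poly_up h1.deg h1.bd (by norm_num) (mem_closedBall_zero_iff.1 hx)
  -- closeness
  have hcl : ∀ w : ℂ, ‖w‖ = 1 → ‖(P' - P).eval w‖ ≤ (1 + Lp) * ε1 + δ := by
    intro w hw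
    rw [Polynomial.eval_sub, heval]
    set z := Φ.symm w with hz
    have hwz : w = Φ z := (Φ.apply_symm_apply w).symm
    have h1 := hinv w
    rw [hw] at h1
    have h2 : ‖Φ z - z‖ ≤ ε1 := hid z (by
      have : ‖z‖ ≤ 4 / 3 * 1 + 8 * R + 2 := h1
      linarith)
    have hz2 : ‖z‖ ≤ 2 := by
      have h3 := norm_sub_norm_le z (Φ z)
      rw [norm_sub_rev, ← hwz] at h3
      rw [← hwz] at h2
      linarith
    have h3 : ‖f z‖ ≤ M2 := poly_up hP.deg hP.bd (by norm_num) hz2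
    have h4 := hGf z
    have h5 : ‖G z‖ ≤ M := by
      have := norm_sub_norm_le (G z) (f z)
      linarith
    have h6 := hid (G z) h5
    have h7 : ‖f z - f w‖ ≤ Lp * ε1 := by
      refine (hlip z w hz2 (by rw [hw]; norm_num)).trans (mul_le_mul_of_nonneg_left ?_ hLp0)
      rw [hwz, norm_sub_rev]
      exact h2
    have h8 : h w - P.eval w = (Φ (G z) - G z) + (G z - f z) + (f z - f w) := by
      show Φ (G (Φ.symm w)) - f w = _
      ring
    rw [h8]
    refine (norm_add₃_le).trans ?_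
    linarith
  have hcoef : ∀ i, ‖P'.coeff i - P.coeff i‖ ≤ (1 + Lp) * ε1 + δ := by
    intro i
    rw [← Polynomial.coeff_sub]
    exact coeff_le _ hcl i
  have hdeg : P'.natDegree = d := by
    refine le_antisymm (hdeg'.trans hPdeg) (Polynomial.le_natDegree_of_ne_zero ?_)
    intro h0
    have h1 := hcoef d
    rw [h0, zero_sub, norm_neg] at h1
    have h2 := hP.lead
    have h3 : min 1 c ≤ c := min_le_right _ _
    linarith
  refine ⟨P', hdeg, fun i => (hcoef i).trans ?_, ?_⟩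
  · have h1 : Real.log (1 / κ) ≤ Real.log (1 / δ) := by
      refine Real.log_le_log (by positivity) ?_
      refine one_div_le_one_div_of_le hδ ?_
      rw [hκ]
      nlinarith
    have h2 : 0 ≤ Real.log (1 / δ) := hlogκ.trans h1
    have h3 : ε1 ≤ C1 * (b * δ * (1 + Real.log (1 / δ))) := by
      refine mul_le_mul_of_nonneg_left ?_ hC1.le
      exact mul_le_mul_of_nonneg_left (by linarith) hκ0.le
    have h4 : (1 + Lp) * ε1 ≤ (1 + Lp) * (C1 * (b * δ * (1 + Real.log (1 / δ)))) :=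
      mul_le_mul_of_nonneg_left h3 (by positivity)
    have h5 : δ ≤ δ * (1 + Real.log (1 / δ)) := by nlinarith
    have h6 : C * (δ * (1 + Real.log (1 / δ))) =
        (1 + Lp) * (C1 * (b * δ * (1 + Real.log (1 / δ)))) + δ * (1 + Real.log (1 / δ)) := by
      rw [hC]
      ring
    rw [h6]
    linarith
  · rw [← hheq]
    exact hyp_of_local hQR hGg hg hpos hloc Φ hent (C := 8 * R + 2) (fun w => by
      have := hinv w
      linarith)

/-- the polynomials `α z ^ d` are hyperbolic -/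
theorem hyp_monomial {d : ℕ} (hd : 2 ≤ d) {α : ℂ} (hα : α ≠ 0) :
    HypEnt (fun z => (Polynomial.monomial d α).eval z) := by
  intro c hc
  have h1 : ∀ z : ℂ, (Polynomial.monomial d α).eval z = α * z ^ d := fun z => by
    rw [Polynomial.eval_monomial]
  simp only [h1] at hc ⊢
  have hder : ∀ z : ℂ, deriv (fun z : ℂ => α * z ^ d) z = α * (d * z ^ (d - 1)) := by
    intro z
    have := ((hasDerivAt_pow d z).const_mul α).deriv
    exact this
  rw [hder] at hc
  have hc0 : c = 0 := by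
    rcases mul_eq_zero.1 hc with h | h
    · exact absurd h hα
    · rcases mul_eq_zero.1 h with h | h
      · exact absurd (Nat.cast_eq_zero.1 h) (by omega)
      · exact eq_zero_of_pow_eq_zero h
  subst hc0
  have h0 : (fun z : ℂ => α * z ^ d) 0 = 0 := by
    simp only
    rw [zero_pow (by omega), mul_zero]
  refine Or.inr ⟨0, 1, one_pos, ?_, ?_, ?_⟩
  · rw [Function.iterate_one]
    exact h0
  · rw [Function.iterate_one, hder, zero_pow (by omega)]
    simp
  · refine tendsto_const_nhds.congr fun k => ?_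
    exact (Function.iterate_fixed h0 _).symm

end Pool.Agent.Helper23S
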