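import Pool.Agent.Helper23S.Cau

/-!
# Pulling back Beltrami coefficients by a map which is holomorphic off an annulus
-/

set_option autoImplicit false
set_option linter.unusedSectionVars false

open MeasureTheory Set Filter Topology Metric

noncomputable section

namespace Pool.Agent.Helper23S

open Pool.Agent.Split938 (dbar)

/-- smooth maps of the plane which are holomorphic off the annulus `s1 ≤ |z| ≤ s2`, almost
holomorphic there, and expanding near infinity, with critical orbits that avoid the annulus -/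
structure QR (R s1 s2 κ : ℝ) (G : ℂ → ℂ) : Prop where
  smooth : ContDiff ℝ (⊤ : ℕ∞) G
  holo : ∀ z, ¬ (s1 ≤ ‖z‖ ∧ ‖z‖ ≤ s2) → dbar G z = 0
  dil : ∀ z, ‖dbar G z‖ ≤ κ * ‖dd G z‖
  expand : ∀ z, R ≤ ‖z‖ → 2 * ‖z‖ ≤ ‖G z‖
  crit : ∀ c, dd G c = 0 → ∀ j : ℕ, ¬ (s1 ≤ ‖G^[j] c‖ ∧ ‖G^[j] c‖ ≤ s2)
  Rpos : 0 < R
  h1 : R ≤ s1
  h2 : s2 < 2 * R
  hκ : κ ≤ 1 / 40

/-- the pullbacks of zero -/
def pb (G : ℂ → ℂ) : ℕ → ℂ → ℂ
  | 0, _ => 0
  | K + 1, z => (dbar G z + pb G K (G z) * (starRingEnd ℂ) (dd G z)) /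
      (dd G z + pb G K (G z) * (starRingEnd ℂ) (dbar G z))

theorem pb_succ (G : ℂ → ℂ) (K : ℕ) (z : ℂ) : pb G (K + 1) z =
    (dbar G z + pb G K (G z) * (starRingEnd ℂ) (dd G z)) /
      (dd G z + pb G K (G z) * (starRingEnd ℂ) (dbar G z)) := rfl

variable {R s1 s2 κ : ℝ} {G : ℂ → ℂ}

theorem QR.kn (h : QR R s1 s2 κ G) : 0 ≤ κ * ‖dd G 0‖ := (norm_nonneg _).trans (h.dil 0)

theorem pb_out (h : QR R s1 s2 κ G) (K : ℕ) : ∀ z, s2 < ‖z‖ → s1 ≤ s2 → pb G K z = 0 := by
  induction K with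
  | zero => intro z _ _; rfl
  | succ K ih =>
    intro z hz h12
    have hR := h.Rpos
    have hz1 : R ≤ ‖z‖ := by linarith [h.h1]
    have h1 := h.expand z hz1
    have h2 := h.holo z (fun h' => by linarith [h'.2])
    rw [pb_succ, h2, ih (G z) (by linarith) h12]
    simp

theorem pb_mem (h : QR R s1 s2 κ G) (K : ℕ) {z : ℂ} (hz : s1 ≤ ‖z‖ ∧ ‖z‖ ≤ s2) :
    pb G (K + 1) z = dbar G z / dd G z := by
  have h1 := h.expand z (h.h1.trans hz.1)
  have h2 : s2 < ‖G z‖ := by linarith [h.h1, h.h2, hz.1]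
  rw [pb_succ, pb_out h K (G z) h2 (hz.1.trans hz.2)]
  simp

theorem pb_notMem (h : QR R s1 s2 κ G) (K : ℕ) {z : ℂ} (hz : ¬ (s1 ≤ ‖z‖ ∧ ‖z‖ ≤ s2)) :
    pb G (K + 1) z = pb G K (G z) * (starRingEnd ℂ) (dd G z) / dd G z := by
  rw [pb_succ, h.holo z hz]
  simp

theorem norm_conj_div (w : ℂ) : ‖(starRingEnd ℂ) w / w‖ ≤ 1 := by
  rw [norm_div, RCLike.norm_conj]
  exact div_self_le_one _

theorem pb_bdd (h : QR R s1 s2 κ G) (hκ : 0 ≤ κ) (K : ℕ) : ∀ z, ‖pb G K z‖ ≤ κ := by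
  induction K with
  | zero => intro z; show ‖(0 : ℂ)‖ ≤ κ; rwa [norm_zero]
  | succ K ih =>
    intro z
    by_cases hz : s1 ≤ ‖z‖ ∧ ‖z‖ ≤ s2
    · rw [pb_mem h K hz, norm_div]
      by_cases h0 : dd G z = 0
      · rw [h0, norm_zero, div_zero]
        exact hκ
      · rw [div_le_iff₀ (norm_pos_iff.2 h0)]
        exact h.dil z
    · rw [pb_notMem h K hz, mul_div_assoc, norm_mul]
      exact (mul_le_of_le_one_right (norm_nonneg _) (norm_conj_div _)).trans (ih _)

theorem pb_supp (h : QR R s1 s2 κ G) (K : ℕ) (z : ℂ) (hz : 2 * R ≤ ‖z‖) : pb G K z = 0 := by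
  by_cases h12 : s1 ≤ s2
  · exact pb_out h K z (by linarith [h.h2]) h12
  · -- no annulus
    have : ∀ K z, pb G K z = 0 := by
      intro K
      induction K with
      | zero => intro z; rfl
      | succ K ih =>
        intro z
        rw [pb_notMem h K (fun h' => h12 (h'.1.trans h'.2)), ih]
        simp
    exact this K z

/-- `ddG` is smooth -/
theorem dd_smooth (hG : ContDiff ℝ (⊤ : ℕ∞) G) : ContDiff ℝ (⊤ : ℕ∞) (dd G) := by
  have h1 : ContDiff ℝ (⊤ : ℕ∞) (fderiv ℝ G) := hG.fderiv_right (by simp)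
  exact ((h1.clm_apply contDiff_const).sub (contDiff_const.mul (h1.clm_apply contDiff_const))).div_const 2

theorem dbar_smooth (hG : ContDiff ℝ (⊤ : ℕ∞) G) : ContDiff ℝ (⊤ : ℕ∞) (dbar G) := by
  have h1 : ContDiff ℝ (⊤ : ℕ∞) (fderiv ℝ G) := hG.fderiv_right (by simp)
  exact ((h1.clm_apply contDiff_const).add (contDiff_const.mul (h1.clm_apply contDiff_const))).div_const 2

theorem annulus_closed (s1 s2 : ℝ) : IsClosed {z : ℂ | s1 ≤ ‖z‖ ∧ ‖z‖ ≤ s2} :=
  (isClosed_le continuous_const continuous_norm).inter (isClosed_le continuous_norm continuous_const)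

/-- near points with orbits off the annulus the pullbacks vanish -/
theorem pb_near (h : QR R s1 s2 κ G) (K : ℕ) : ∀ z, (∀ j : ℕ, ¬ (s1 ≤ ‖G^[j] z‖ ∧ ‖G^[j] z‖ ≤ s2)) →
    ∀ᶠ w in 𝓝 z, pb G K w = 0 := by
  induction K with
  | zero => intro z _; exact Eventually.of_forall fun _ => rfl
  | succ K ih =>
    intro z hz
    have h0 : z ∉ {z : ℂ | s1 ≤ ‖z‖ ∧ ‖z‖ ≤ s2} := hz 0
    have h1 := (annulus_closed s1 s2).isOpen_compl.mem_nhds h0
    have h2 := ih (G z) (fun j => by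
      have := hz (j + 1)
      rwa [Function.iterate_succ_apply] at this)
    have h3 := h.smooth.continuous.continuousAt.eventually h2
    filter_upwards [h1, h3] with w hw1 hw2
    rw [pb_notMem h K hw1, hw2]
    simp

theorem pb_smooth (h : QR R s1 s2 κ G) (hκ : 0 ≤ κ) (K : ℕ) : ContDiff ℝ (⊤ : ℕ∞) (pb G K) := by
  induction K with
  | zero => exact contDiff_const
  | succ K ih =>
    rw [contDiff_iff_contDiffAt]
    intro z
    by_cases h0 : dd G z = 0
    · refine (contDiffAt_const (c := (0 : ℂ))).congr_of_eventuallyEq ?_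
      filter_upwards [pb_near h (K + 1) z (h.crit z h0)] with w hw
      exact hw
    · have hden : dd G z + pb G K (G z) * (starRingEnd ℂ) (dbar G z) ≠ 0 := by
        intro h1
        have h2 : ‖dd G z‖ = ‖pb G K (G z)‖ * ‖dbar G z‖ := by
          rw [eq_neg_of_add_eq_zero_left h1, norm_neg, norm_mul, RCLike.norm_conj]
        have h3 := pb_bdd h hκ K (G z)
        have h4 := h.dil z
        have h5 := norm_pos_iff.2 h0
        have h6 : ‖pb G K (G z)‖ * ‖dbar G z‖ ≤ κ * (κ * ‖dd G z‖) :=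
          mul_le_mul h3 h4 (norm_nonneg _) hκ
        have h7 := h.hκ
        have h8 : κ * κ ≤ 1 / 1600 := by nlinarith
        have h9 : κ * κ * ‖dd G z‖ ≤ 1 / 1600 * ‖dd G z‖ := mul_le_mul_of_nonneg_right h8 h5.le
        linarith
      have hc : ContDiff ℝ (⊤ : ℕ∞) fun z => pb G K (G z) := ih.comp h.smooth
      have h1 := dd_smooth h.smooth
      have h2 := dbar_smooth h.smooth
      have h3 : ContDiff ℝ (⊤ : ℕ∞) fun z => (starRingEnd ℂ) (dd G z) := Complex.conjCLE.contDiff.comp h1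
      have h4 : ContDiff ℝ (⊤ : ℕ∞) fun z => (starRingEnd ℂ) (dbar G z) := Complex.conjCLE.contDiff.comp h2
      have h5 : ContDiffAt ℝ (⊤ : ℕ∞) (fun z => dbar G z + pb G K (G z) * (starRingEnd ℂ) (dd G z)) z :=
        (h2.add (hc.mul h3)).contDiffAt
      have h6 : ContDiffAt ℝ (⊤ : ℕ∞) (fun z => dd G z + pb G K (G z) * (starRingEnd ℂ) (dbar G z)) z :=
        (h1.add (hc.mul h4)).contDiffAt
      have h7 := h5.mul (h6.inv hden)
      refine h7.congr_of_eventuallyEq (Eventually.of_forall fun w => ?_)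
      rw [pb_succ]
      exact div_eq_mul_inv _ _

theorem pb_adm (h : QR R s1 s2 κ G) (hκ : 0 ≤ κ) (K : ℕ) : Adm (2 * R) κ (pb G K) where
  smooth := pb_smooth h hκ K
  supp := pb_supp h K
  bdd := pb_bdd h hκ K

/-- the pullbacks are eventually constant at each point -/
theorem pb_ev (h : QR R s1 s2 κ G) (z : ℂ) : ∃ N, ∀ K, N ≤ K → pb G K z = pb G N z := by
  by_cases hz : ∃ j : ℕ, s1 ≤ ‖G^[j] z‖ ∧ ‖G^[j] z‖ ≤ s2
  · obtain ⟨j, hj⟩ := hz
    refine ⟨j + 1, ?_⟩
    revert z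
    induction j with
    | zero =>
      intro z hz K hK
      obtain ⟨K, rfl⟩ : ∃ K', K = K' + 1 := ⟨K - 1, by omega⟩
      have hz' : s1 ≤ ‖z‖ ∧ ‖z‖ ≤ s2 := hz
      rw [pb_mem h K hz', pb_mem h 0 hz']
    | succ j ih =>
      intro z hz K hK
      obtain ⟨K, rfl⟩ : ∃ K', K = K' + 1 := ⟨K - 1, by omega⟩
      rw [Function.iterate_succ_apply] at hz
      have h1 := ih (G z) hz K (by omega)
      rw [pb_succ, pb_succ, h1]
  · push Not at hz
    refine ⟨0, fun K _ => ?_⟩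
    have h1 := (pb_near h K z (fun j h' => absurd h'.2 (not_le.2 (hz j h'.1)))).self_of_nhds
    rw [h1]
    rfl

/-- the composition is holomorphic -/
theorem comp_holo (h : QR R s1 s2 κ G) (hκ : 0 ≤ κ) {L : ℝ} (hL : 8 * (2 * R) ≤ L) {K : ℕ}
    {e e' : ℂ ≃ₜ ℂ} (he : ⇑e = ph (2 * R) L (pb G K)) (he' : ⇑e' = ph (2 * R) L (pb G (K + 1)))
    (hes' : ContDiff ℝ (⊤ : ℕ∞) e'.symm) {z : ℂ} (hz : z ∈ Qo L) (hGz : G z ∈ Qo L) :
    DifferentiableAt ℂ (fun w => e (G (e'.symm w))) (e' z) := by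
  have hR := h.Rpos
  have hρ : 0 < 2 * R := by linarith
  have hκ1 : κ < 1 := by linarith [h.hκ]
  have hL4 : 4 * (2 * R) ≤ L := by linarith
  have hL0 : 0 < L := by linarith
  have ha := pb_adm h hκ K
  have ha' := pb_adm h hκ (K + 1)
  have hd := (ph_smooth hρ hL4 ha hκ1).differentiable (by simp)
  have hd' := (ph_smooth hρ hL4 ha' hκ1).differentiable (by simp)
  have hds := hes'.differentiable (by simp)
  have hGd := h.smooth.differentiable (by simp)
  set w := e' z with hw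
  have hwz : e'.symm w = z := e'.symm_apply_apply z
  have hH : HasFDerivAt (fun w => e (G (e'.symm w))) ((fderiv ℝ (ph (2 * R) L (pb G K)) (G z)).comp
      ((fderiv ℝ G z).comp (fderiv ℝ e'.symm w))) w := by
    have h1 : HasFDerivAt e (fderiv ℝ (ph (2 * R) L (pb G K)) (G z)) (G (e'.symm w)) := by
      rw [he, hwz]
      exact (hd _).hasFDerivAt
    have h2 : HasFDerivAt G (fderiv ℝ G z) (e'.symm w) := by
      rw [hwz]
      exact (hGd _).hasFDerivAt
    exact h1.comp w (h2.comp w (hds w).hasFDerivAt)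
  set p := 1 + aL L (pb G K) (G z) with hp
  set p' := 1 + aL L (pb G (K + 1)) z with hp'
  have hp'0 : p' ≠ 0 := one_add_ne hρ hL4 ha' hκ1 z
  set P := dd G z + pb G K (G z) * (starRingEnd ℂ) (dbar G z) with hP
  set ν := pb G (K + 1) z with hν
  have hchain : ∀ v, fderiv ℝ (ph (2 * R) L (pb G K)) (G z) (fderiv ℝ G z v) =
      p * (P * (v + ν * (starRingEnd ℂ) v)) := by
    intro v
    have e1 : mL L (pb G K) (G z) = pb G K (G z) := mt_T hL0 _ hGz
    rw [ph_apply hρ hL4 ha hκ1, fderiv_eq G z v, e1, ← hp]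
    congr 1
    have e2 : P * ν = dbar G z + pb G K (G z) * (starRingEnd ℂ) (dd G z) := by
      by_cases hP0 : P = 0
      · -- critical points
        have h2 : ‖dd G z‖ = ‖pb G K (G z)‖ * ‖dbar G z‖ := by
          rw [eq_neg_of_add_eq_zero_left hP0, norm_neg, norm_mul, RCLike.norm_conj]
        have h3 := pb_bdd h hκ K (G z)
        have h4 := h.dil z
        have h6 : ‖pb G K (G z)‖ * ‖dbar G z‖ ≤ κ * (κ * ‖dd G z‖) :=
          mul_le_mul h3 h4 (norm_nonneg _) hκ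
        have h7 := h.hκ
        have h8' : κ * κ ≤ 1 / 1600 := by nlinarith
        have h9' : κ * κ * ‖dd G z‖ ≤ 1 / 1600 * ‖dd G z‖ :=
          mul_le_mul_of_nonneg_right h8' (norm_nonneg _)
        have h8 : ‖dd G z‖ = 0 := by linarith [norm_nonneg (dd G z)]
        have h9 : dd G z = 0 := norm_eq_zero.1 h8
        have h10 : dbar G z = 0 := by
          rw [h8, mul_zero] at h4
          exact norm_le_zero_iff.1 h4
        rw [hP0, h9, h10]
        simp
      · rw [hν, pb_succ, ← hP, mul_div_cancel₀ _ hP0]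
    simp only [map_add, map_mul, Complex.conj_conj]
    linear_combination (-(starRingEnd ℂ) v) * e2
  have e1' : mL L (pb G (K + 1)) z = ν := mt_T hL0 _ hz
  have hinv : ∀ u, p' * (fderiv ℝ e'.symm w u + ν * (starRingEnd ℂ) (fderiv ℝ e'.symm w u)) = u := by
    intro u
    rw [hp', ← e1', ← ph_apply hρ hL4 ha' hκ1]
    have h5 : HasFDerivAt (fun w => ph (2 * R) L (pb G (K + 1)) (e'.symm w))
        ((fderiv ℝ (ph (2 * R) L (pb G (K + 1))) z).comp (fderiv ℝ e'.symm w)) w := by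
      have h7 : HasFDerivAt (ph (2 * R) L (pb G (K + 1)))
          (fderiv ℝ (ph (2 * R) L (pb G (K + 1))) z) (e'.symm w) := by
        rw [hwz]; exact (hd' z).hasFDerivAt
      exact h7.comp _ (hds _).hasFDerivAt
    have h6 : (fun w => ph (2 * R) L (pb G (K + 1)) (e'.symm w)) = id := by
      funext w
      rw [← he']
      exact e'.apply_symm_apply w
    rw [h6] at h5
    have h7 := h5.unique (hasFDerivAt_id _)
    exact congrArg (fun A : ℂ →L[ℝ] ℂ => A u) h7
  have hfin : HasDerivAt (fun w => e (G (e'.symm w))) (p * P / p') w := by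
    rw [hasDerivAt_iff_hasFDerivAt]
    refine hasFDerivAt_of_restrictScalars ℝ hH ?_
    apply ContinuousLinearMap.ext
    intro u
    have h8 : ((fderiv ℝ (ph (2 * R) L (pb G K)) (G z)).comp
      ((fderiv ℝ G z).comp (fderiv ℝ e'.symm w))) u =
        fderiv ℝ (ph (2 * R) L (pb G K)) (G z) (fderiv ℝ G z (fderiv ℝ e'.symm w u)) := rfl
    rw [h8, hchain]
    have h9 := hinv u
    set v := fderiv ℝ e'.symm w u
    have h10 : v + ν * (starRingEnd ℂ) v = u / p' := by
      rw [eq_div_iff hp'0]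
      linear_combination h9
    rw [h10]
    simp
    field_simp
  exact hfin.differentiableAt

end Pool.Agent.Helper23S
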