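import Pool.Agent.Helper23S.Main

/-!
# Restriction of hyperbolic sphere maps to a disc
-/

set_option autoImplicit false
set_option linter.unusedSectionVars false

open MeasureTheory Set Filter Topology Metric
open scoped OnePoint

noncomputable section

namespace Pool.Agent.Helper23S

/-- the point `c` is attracted by a topologically attracting cycle -/
def WAtt (F : OnePoint ℂ → OnePoint ℂ) (c : OnePoint ℂ) : Prop :=
  ∃ z : OnePoint ℂ, ∃ n : ℕ, 0 < n ∧ F^[n] z = z ∧
    (∃ U ∈ nhds z, ∀ w ∈ U, Tendsto (fun k : ℕ => F^[n * k] w) atTop (nhds z)) ∧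
    Tendsto (fun k : ℕ => F^[n * k] c) atTop (nhds z)

/-- holomorphic functions with bounded orbits which converge to a fixed point -/
theorem mult_lt {h : ℂ → ℂ} {p : ℂ} {r B : ℝ} (hr : 0 < r) (hfix : h p = p)
    (hd : ∀ k : ℕ, DifferentiableOn ℂ h^[k] (ball p r))
    (hb : ∀ k : ℕ, ∀ w ∈ ball p r, ‖h^[k] w‖ ≤ B)
    (hl : ∀ w ∈ ball p r, Tendsto (fun k : ℕ => h^[k] w) atTop (𝓝 p)) : ‖deriv h p‖ < 1 := by
  have hpr : p ∈ ball p r := mem_ball_self hr
  have hhd : DifferentiableAt ℂ h p := by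
    have := hd 1
    rw [Function.iterate_one] at this
    exact this.differentiableAt (isOpen_ball.mem_nhds hpr)
  have hder : ∀ k : ℕ, deriv h^[k] p = (deriv h p) ^ k := fun k =>
    (HasDerivAt.iterate p hhd.hasDerivAt hfix k).deriv
  set 𝒰 : Ultrafilter ℕ := Filter.hyperfilter ℕ with h𝒰
  have hle : (𝒰 : Filter ℕ) ≤ atTop := Nat.hyperfilter_le_atTop
  obtain ⟨Ψ, hΨ, hlim⟩ := Pool.Agent.Helper114.Montel.montel isOpen_ball (fun k => h^[k]) hd B hb 𝒰
  have heq : ∀ w ∈ ball p r, Ψ w = p := fun w hw =>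
    tendsto_nhds_unique (hlim.tendsto_at hw) ((hl w hw).mono_left hle)
  have h1 := (hlim.deriv (Eventually.of_forall hd) isOpen_ball).tendsto_at hpr
  have h2 : deriv Ψ p = 0 := by
    have h3 : Ψ =ᶠ[𝓝 p] fun _ => p := by
      filter_upwards [isOpen_ball.mem_nhds hpr] with w hw using heq w hw
    rw [h3.deriv_eq, deriv_const]
  rw [h2] at h1
  by_contra hc
  push Not at hc
  have h3 : ∀ᶠ k in (𝒰 : Filter ℕ), ‖deriv h^[k] p‖ < 1 := by
    have h4 := h1.norm
    rw [norm_zero] at h4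
    exact h4.eventually (gt_mem_nhds one_pos)
  obtain ⟨k, hk⟩ := h3.exists
  rw [hder, norm_pow] at hk
  exact absurd (one_le_pow₀ hc) (not_le.2 hk)

/-- sphere maps which are hyperbolic in the weak sense, for which the complement of a disc is
invariant, restrict to hyperbolic maps of the disc -/
theorem loc_of_weak {R : ℝ} (hR : 0 < R) {F : OnePoint ℂ → OnePoint ℂ} (hF : Continuous F) {g : ℂ → ℂ}
    (hg : DifferentiableOn ℂ g (ball 0 (3 * R)))
    (hFg : ∀ z ∈ ball (0 : ℂ) (3 * R), F z = (g z : ℂ))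
    (htrap : ∀ x : OnePoint ℂ, (∀ z : ℂ, ‖z‖ < R → x ≠ z) → ∀ z : ℂ, ‖z‖ < R → F x ≠ z)
    (hexp : ∀ z : ℂ, ‖z‖ = R → R < ‖g z‖)
    (hyp : ∀ c : OnePoint ℂ, (¬ ∃ U ∈ nhds c, Set.InjOn F U) → WAtt F c) : LocHyp R g := by
  intro c hcR hcrit
  by_cases hex : ∃ j : ℕ, R ≤ ‖g^[j] c‖
  · exact Or.inl hex
  right
  push Not at hex
  have hsub : ∀ z : ℂ, ‖z‖ < R → z ∈ ball (0 : ℂ) (3 * R) := fun z hz =>
    mem_ball_zero_iff.2 (by linarith)
  -- iterates
  have hit : ∀ (w : ℂ) (k : ℕ), (∀ l < k, ‖g^[l] w‖ < R) → F^[k] (w : OnePoint ℂ) = (g^[k] w : ℂ) := by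
    intro w k
    induction k with
    | zero => intro _; rfl
    | succ k ih =>
      intro hk
      rw [Function.iterate_succ_apply', Function.iterate_succ_apply', ih fun l hl => hk l (by omega)]
      exact hFg _ (hsub _ (hk k (by omega)))
  -- `c` is critical for `F`
  have hcF : ¬ ∃ U ∈ nhds (c : OnePoint ℂ), Set.InjOn F U := by
    rintro ⟨U, hU, hinj⟩
    have h1 : (fun z : ℂ => (z : OnePoint ℂ)) ⁻¹' U ∈ 𝓝 c :=
      OnePoint.continuous_coe.continuousAt.preimage_mem_nhds hU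
    obtain ⟨V, hVs, hV, hcV⟩ := _root_.mem_nhds_iff.1 (inter_mem h1
      (isOpen_ball.mem_nhds (hsub c hcR)))
    refine Helper202.Univ.deriv_ne_zero hV (hg.mono fun z hz => (hVs hz).2) ?_ hcV hcrit
    intro a ha b hb hab
    have h2 : F a = F b := by
      rw [hFg a (hVs ha).2, hFg b (hVs hb).2, hab]
    exact OnePoint.coe_injective (hinj (hVs ha).1 (hVs hb).1 h2)
  obtain ⟨x, n, hn, hfix, ⟨U, hU, hUat⟩, hlim⟩ := hyp c hcF
  -- the cycle lies in the closed disc
  have hK : IsClosed ((fun z : ℂ => (z : OnePoint ℂ)) '' closedBall 0 R) :=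
    ((isCompact_closedBall (0 : ℂ) R).image OnePoint.continuous_coe).isClosed
  have hcyc : ∀ i : ℕ, ∃ q : ℂ, ‖q‖ ≤ R ∧ F^[i] x = q := by
    intro i
    have h1 : Tendsto (fun k : ℕ => F^[i] (F^[n * k] c)) atTop (𝓝 (F^[i] x)) :=
      ((hF.iterate i).tendsto x).comp hlim
    have h2 : F^[i] x ∈ (fun z : ℂ => (z : OnePoint ℂ)) '' closedBall 0 R := by
      refine hK.mem_of_tendsto h1 (Eventually.of_forall fun k => ?_)
      rw [← Function.iterate_add_apply, hit c _ fun l _ => hex l]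
      exact ⟨_, mem_closedBall_zero_iff.2 (hex _).le, rfl⟩
    obtain ⟨q, hq, hq'⟩ := h2
    exact ⟨q, mem_closedBall_zero_iff.1 hq, hq'.symm⟩
  have hcyc' : ∀ i : ℕ, ∃ q : ℂ, ‖q‖ < R ∧ F^[i] x = q := by
    intro i
    obtain ⟨q, hq, hq'⟩ := hcyc i
    obtain ⟨q1, hq1, hq1'⟩ := hcyc (i + 1)
    refine ⟨q, ?_, hq'⟩
    rcases hq.lt_or_eq with h | h
    · exact h
    · have h1 := hexp q h
      rw [Function.iterate_succ_apply', hq', hFg q (mem_ball_zero_iff.2 (by linarith))] at hq1'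
      have h2 := OnePoint.coe_injective hq1'
      rw [h2] at h1
      linarith
  obtain ⟨p, hpR, hp⟩ := hcyc' 0
  have hp' : x = p := hp
  subst hp'
  have hpi : ∀ i : ℕ, ‖g^[i] p‖ < R := by
    intro i
    induction i using Nat.strong_induction_on with
    | _ i ih =>
      obtain ⟨q, hq, hq'⟩ := hcyc' i
      rw [hit p i ih] at hq'
      rw [OnePoint.coe_injective hq']
      exact hq
  have hpfix : g^[n] p = p := by
    have := hfix
    rw [hit p n fun l _ => hpi l] at this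
    exact OnePoint.coe_injective this
  -- points near the cycle have orbits in the disc
  obtain ⟨r, hr, hrU⟩ : ∃ r > 0, ∀ w ∈ ball p r, (w : OnePoint ℂ) ∈ U ∧ ‖w‖ < R := by
    have h1 : (fun z : ℂ => (z : OnePoint ℂ)) ⁻¹' U ∈ 𝓝 p :=
      OnePoint.continuous_coe.continuousAt.preimage_mem_nhds hU
    have h2 : ∀ᶠ w : ℂ in 𝓝 p, ‖w‖ < R := continuous_norm.continuousAt.eventually (gt_mem_nhds hpR)
    obtain ⟨r, hr, h3⟩ := Metric.mem_nhds_iff.1 (inter_mem h1 h2)
    exact ⟨r, hr, fun w hw => h3 hw⟩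
  have htr : ∀ (y : OnePoint ℂ), (∀ z : ℂ, ‖z‖ < R → y ≠ z) → ∀ k : ℕ, ∀ z : ℂ, ‖z‖ < R → F^[k] y ≠ z := by
    intro y hy k
    induction k with
    | zero => exact hy
    | succ k ih =>
      rw [Function.iterate_succ_apply']
      exact htrap _ ih
  have hstay : ∀ w ∈ ball p r, ∀ l : ℕ, ‖g^[l] w‖ < R := by
    intro w hw l
    induction l using Nat.strong_induction_on with
    | _ l ih =>
      by_contra hc
      have h1 := hit w l ih
      have h2 : ∀ z : ℂ, ‖z‖ < R → (F^[l] w : OnePoint ℂ) ≠ z := by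
        intro z hz he
        rw [h1] at he
        rw [OnePoint.coe_injective he] at hc
        exact hc hz
      have h3 := htr _ h2
      -- but the orbit converges to the point `p`
      have h4 := hUat w (hrU w hw).1
      have h5 : (fun z : ℂ => (z : OnePoint ℂ)) '' ball 0 R ∈ 𝓝 (p : OnePoint ℂ) :=
        (OnePoint.isOpenMap_coe _ isOpen_ball).mem_nhds ⟨p, mem_ball_zero_iff.2 hpR, rfl⟩
      obtain ⟨K, hK⟩ := eventually_atTop.1 (h4 h5)
      obtain ⟨z, hz, hz'⟩ := hK (K + l) (by omega)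
      have h6 : n * (K + l) = (n * (K + l) - l) + l := by
        have : l ≤ n * (K + l) := by nlinarith
        omega
      have h7 : F^[n * (K + l)] w = F^[n * (K + l) - l] (F^[l] w) := by
        rw [← Function.iterate_add_apply, ← h6]
      have hz'' : F^[n * (K + l)] (w : OnePoint ℂ) = z := hz'.symm
      rw [h7] at hz''
      exact h3 _ z (mem_ball_zero_iff.1 hz) hz''
  have hgd : ∀ l : ℕ, DifferentiableOn ℂ g^[l] (ball p r) := by
    intro l
    induction l with
    | zero => exact differentiableOn_id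
    | succ l ih =>
      rw [Function.iterate_succ']
      exact (hg.comp ih fun w hw => hsub _ (hstay w hw l))
  refine ⟨p, n, hn, hpi, hpfix, ?_, ?_⟩
  · refine mult_lt (B := R) hr hpfix (fun k => ?_) (fun k w hw => ?_) (fun w hw => ?_)
    · rw [← Function.iterate_mul]
      exact hgd _
    · rw [← Function.iterate_mul]
      exact (hstay w hw _).le
    · have h1 := hUat w (hrU w hw).1
      have h2 : (fun k : ℕ => F^[n * k] (w : OnePoint ℂ)) = fun k : ℕ => (((g^[n])^[k] w : ℂ) : OnePoint ℂ) := by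
        funext k
        rw [hit w _ fun l _ => hstay w hw l, Function.iterate_mul]
      rw [h2] at h1
      exact OnePoint.isOpenEmbedding_coe.isInducing.tendsto_nhds_iff.2 h1
  · have h2 : (fun k : ℕ => F^[n * k] (c : OnePoint ℂ)) = fun k : ℕ => ((g^[n * k] c : ℂ) : OnePoint ℂ) := by
      funext k
      rw [hit c _ fun l _ => hex l]
    rw [h2] at hlim
    exact OnePoint.isOpenEmbedding_coe.isInducing.tendsto_nhds_iff.2 hlim

end Pool.Agent.Helper23S
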