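import Pool.Agent.Helper23S.Dyn
import Pool.Agent.Helper23S.Weak

/-!
# Hyperbolic polynomials on the sphere
-/

set_option autoImplicit false
set_option linter.unusedSectionVars false

open Set Filter Topology Metric
open scoped OnePoint

noncomputable section

namespace Pool.Agent.Helper23S

theorem coco (u : ℕ → ℂ) (h : Tendsto (fun k => ‖u k‖) atTop atTop) :
    Tendsto (fun k => ((u k : ℂ) : OnePoint ℂ)) atTop (𝓝 ∞) := by
  refine OnePoint.tendsto_coe_infty.comp ?_
  rw [coclosedCompact_eq_cocompact, ← Metric.cobounded_eq_cocompact]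
  exact tendsto_norm_atTop_iff_cobounded.1 h

theorem hyp_sphere {P : Polynomial ℂ} (hdeg : 2 ≤ P.natDegree) (h : HypEnt (fun z => P.eval z)) :
    ∃ f : OnePoint ℂ → OnePoint ℂ, Continuous f ∧ (∀ z : ℂ, f z = (P.eval z : ℂ)) ∧
      ∀ c : OnePoint ℂ, (¬ ∃ U ∈ nhds c, Set.InjOn f U) → WAtt f c := by
  set p : ℂ → ℂ := fun z => P.eval z with hp
  have hpd : Differentiable ℂ p := P.differentiable
  have hdeg0 : 0 < P.degree := by
    rw [← Polynomial.natDegree_pos_iff_degree_pos]
    omega
  have hcc : Tendsto p (coclosedCompact ℂ) (coclosedCompact ℂ) := by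
    rw [coclosedCompact_eq_cocompact, ← Metric.cobounded_eq_cocompact,
      ← tendsto_norm_atTop_iff_cobounded]
    exact P.tendsto_norm_atTop hdeg0 tendsto_norm_cobounded_atTop
  set f : OnePoint ℂ → OnePoint ℂ := OnePoint.map p with hf
  have hfc : Continuous f := OnePoint.continuous_map hpd.continuous hcc
  have hfz : ∀ z : ℂ, f z = (p z : ℂ) := fun z => OnePoint.map_some p z
  have hfi : f ∞ = ∞ := OnePoint.map_infty p
  have hit : ∀ (k : ℕ) (z : ℂ), f^[k] z = (p^[k] z : ℂ) := by
    intro k
    induction k with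
    | zero => intro z; rfl
    | succ k ih =>
      intro z
      rw [Function.iterate_succ_apply', Function.iterate_succ_apply', ih, hfz]
  have hiti : ∀ k : ℕ, f^[k] ∞ = ∞ := fun k => Function.iterate_fixed hfi k
  -- expansion near infinity
  obtain ⟨R, hR1, hR⟩ : ∃ R : ℝ, 1 ≤ R ∧ ∀ z : ℂ, R ≤ ‖z‖ → 2 * ‖z‖ ≤ ‖p z‖ := by
    -- write `P = X * Q + C a` with `Q` not constant
    have hQ : 0 < P.divX.degree := by
      rw [← Polynomial.natDegree_pos_iff_degree_pos, Polynomial.natDegree_divX_eq_natDegree_tsub_one]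
      omega
    have h1 := (P.divX.tendsto_norm_atTop hQ (tendsto_norm_cobounded_atTop (E := ℂ)))
    have h2 := h1.eventually (eventually_ge_atTop (3 : ℝ))
    have h3 : ∀ᶠ z : ℂ in Bornology.cobounded ℂ, max 1 ‖P.coeff 0‖ ≤ ‖z‖ :=
      (tendsto_norm_cobounded_atTop (E := ℂ)).eventually (eventually_ge_atTop _)
    obtain ⟨r, -, hr⟩ := (Metric.hasBasis_cobounded_compl_closedBall (0 : ℂ)).eventually_iff.1
      (h2.and h3)
    refine ⟨max 1 (r + 1), le_max_left _ _, fun z hz => ?_⟩
    have hz1 : z ∈ (closedBall (0 : ℂ) r)ᶜ := by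
      rw [mem_compl_iff, mem_closedBall_zero_iff, not_le]
      have := (le_max_right 1 (r + 1)).trans hz
      linarith
    obtain ⟨h4, h5⟩ := hr hz1
    have h6 : p z = P.divX.eval z * z + P.coeff 0 := by
      conv_lhs => rw [hp]
      simp only
      conv_lhs => rw [← Polynomial.divX_mul_X_add P]
      simp
    have h7 := norm_sub_norm_le (P.divX.eval z * z) (-P.coeff 0)
    rw [sub_neg_eq_add, ← h6, norm_mul, norm_neg] at h7
    have h8 := (le_max_right 1 ‖P.coeff 0‖).trans h5
    nlinarith [norm_nonneg z]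
  have hesc : ∀ z : ℂ, R ≤ ‖z‖ → ∀ k : ℕ, 2 ^ k * ‖z‖ ≤ ‖p^[k] z‖ := by
    intro z hz k
    induction k with
    | zero => simp
    | succ k ih =>
      rw [Function.iterate_succ_apply', pow_succ]
      have h1 : 1 ≤ (2 : ℝ) ^ k := one_le_pow₀ (by norm_num)
      have h2 : ‖z‖ ≤ ‖p^[k] z‖ := by
        refine le_trans ?_ ih
        have := norm_nonneg z
        nlinarith
      have h3 := hR _ (hz.trans h2)
      linarith
  have hinf : ∀ z : ℂ, R ≤ ‖z‖ → Tendsto (fun k : ℕ => f^[1 * k] z) atTop (𝓝 ∞) := by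
    intro z hz
    have h1 : Tendsto (fun k : ℕ => ‖p^[k] z‖) atTop atTop := by
      refine tendsto_atTop_mono (hesc z hz) ?_
      have h2 : 0 < ‖z‖ := by linarith
      exact (tendsto_pow_atTop_atTop_of_one_lt (by norm_num : (1 : ℝ) < 2)).atTop_mul_const h2
    have h2 := coco _ h1
    refine h2.congr fun k => ?_
    rw [one_mul, hit]
  have hU : (((fun z : ℂ => (z : OnePoint ℂ)) '' closedBall 0 R)ᶜ : Set (OnePoint ℂ)) ∈
      𝓝 (∞ : OnePoint ℂ) := by
    have h1 : IsClosed ((fun z : ℂ => (z : OnePoint ℂ)) '' closedBall 0 R) :=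
      ((isCompact_closedBall (0 : ℂ) R).image OnePoint.continuous_coe).isClosed
    refine h1.isOpen_compl.mem_nhds ?_
    rintro ⟨z, -, hz⟩
    exact OnePoint.coe_ne_infty z hz
  have hinf2 : ∀ w ∈ (((fun z : ℂ => (z : OnePoint ℂ)) '' closedBall 0 R)ᶜ : Set (OnePoint ℂ)),
      Tendsto (fun k : ℕ => f^[1 * k] w) atTop (𝓝 ∞) := by
    intro w hw
    induction w using OnePoint.rec with
    | infty =>
      refine tendsto_const_nhds.congr fun k => ?_
      rw [hiti]
    | coe z =>
      refine hinf z ?_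
      by_contra hc
      exact hw ⟨z, mem_closedBall_zero_iff.2 (not_le.1 hc).le, rfl⟩
  refine ⟨f, hfc, hfz, fun c hc => ?_⟩
  induction c using OnePoint.rec with
  | infty =>
    refine ⟨∞, 1, one_pos, hiti 1, ⟨_, hU, hinf2⟩, ?_⟩
    exact hinf2 ∞ (mem_of_mem_nhds hU)
  | coe c =>
    have hcr : deriv p c = 0 := by
      by_contra hne
      apply hc
      have hst : HasStrictDerivAt p (deriv p c) c := by
        have := P.hasStrictDerivAt c
        rwa [← Polynomial.deriv] at this
      let ψ := (hst.hasStrictFDerivAt_equiv hne).toOpenPartialHomeomorph p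
      have h1 : IsOpen ((fun z : ℂ => (z : OnePoint ℂ)) '' ψ.source) :=
        OnePoint.isOpenMap_coe _ ψ.open_source
      refine ⟨_, h1.mem_nhds ⟨c, ?_, rfl⟩, ?_⟩
      · exact HasStrictFDerivAt.mem_toOpenPartialHomeomorph_source _
      · rintro _ ⟨a, ha, rfl⟩ _ ⟨b, hb, rfl⟩ hab
        rw [hfz, hfz] at hab
        have h2 := OnePoint.coe_injective hab
        have h3 := ψ.injOn ha hb h2
        rw [h3]
    rcases h c hcr with h1 | ⟨z, n, hn, hfix, hder, hlim⟩
    · refine ⟨∞, 1, one_pos, hiti 1, ⟨_, hU, hinf2⟩, ?_⟩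
      refine (coco _ h1).congr fun k => ?_
      rw [one_mul, hit]
    · refine ⟨z, n, hn, ?_, ?_, ?_⟩
      · rw [hit, hfix]
      · -- topological attraction
        obtain ⟨l, hl1, hl2⟩ := exists_between hder
        have hl0 : 0 ≤ l := (norm_nonneg _).trans hl1.le
        set g := p^[n] with hg
        have hgd : Differentiable ℂ g := hpd.iterate n
        have h1 : ∀ᶠ y in 𝓝 z, ‖g y - z‖ ≤ l * ‖y - z‖ := by
          have h2 := (hgd z).hasDerivAt.isLittleO.def (show 0 < l - ‖deriv g z‖ by linarith)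
          filter_upwards [h2] with y hy1
          have h3 : g y - z = (g y - g z - (y - z) • deriv g z) + (y - z) • deriv g z := by
            rw [hfix]
            ring
          rw [h3]
          refine (norm_add_le _ _).trans ?_
          rw [norm_smul]
          nlinarith [norm_nonneg (y - z)]
        obtain ⟨r, hr, hrb⟩ := Metric.eventually_nhds_iff_ball.1 h1
        refine ⟨(fun w : ℂ => (w : OnePoint ℂ)) '' ball z r,
          (OnePoint.isOpenMap_coe _ isOpen_ball).mem_nhds ⟨z, mem_ball_self hr, rfl⟩, ?_⟩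
        rintro _ ⟨y, hy, rfl⟩
        have h2 : ∀ k : ℕ, ‖g^[k] y - z‖ ≤ l ^ k * ‖y - z‖ := by
          intro k
          induction k with
          | zero => simp
          | succ k ih =>
            rw [Function.iterate_succ_apply', pow_succ]
            rw [mem_ball, dist_eq_norm] at hy
            have h3 : l ^ k ≤ 1 := pow_le_one₀ hl0 hl2.le
            have h4 : ‖g^[k] y - z‖ < r := by
              refine lt_of_le_of_lt ih (lt_of_le_of_lt ?_ hy)
              exact mul_le_of_le_one_left (norm_nonneg _) h3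
            have h5 := hrb (g^[k] y) (mem_ball_iff_norm.2 h4)
            refine h5.trans ?_
            have := mul_le_mul_of_nonneg_left ih hl0
            linarith
        have h3 : Tendsto (fun k : ℕ => g^[k] y) atTop (𝓝 z) := by
          rw [tendsto_iff_norm_sub_tendsto_zero]
          refine squeeze_zero (fun _ => norm_nonneg _) h2 ?_
          have := (tendsto_pow_atTop_nhds_zero_of_lt_one hl0 hl2).mul_const ‖y - z‖
          rwa [zero_mul] at this
        refine ((OnePoint.continuous_coe.tendsto z).comp h3).congr fun k => ?_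
        rw [hit, Function.iterate_mul]
        rfl
      · refine ((OnePoint.continuous_coe.tendsto z).comp hlim).congr fun k => ?_
        rw [hit]
        rfl

end Pool.Agent.Helper23S
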