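import Pool.Agent.Helper597_fou.Psi
import Pool.Agent.Split938.Defs

/-!
# The Beltrami equation on a square torus, pulled back to the plane
-/

set_option autoImplicit false
set_option linter.unusedSectionVars false

open MeasureTheory Set Filter Topology
open scoped ContDiff

noncomputable section

namespace Pool.Agent.Helper23S

open Pool.Agent.Helper597_fou
open Pool.Agent.Split938 (dbar)

/-- `∂h` -/
abbrev dd (h : ℂ → ℂ) (z : ℂ) : ℂ := Pool.Agent.Split938.dz h z

/-! ### Solutions on the torus -/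

theorem zt_eq_zero' {k : K 1} : zt 0 1 k = 0 ↔ k = 0 := by
  rw [zt_eq_zero]
  constructor
  · rintro ⟨h1, h2⟩
    funext i
    fin_cases i
    · exact h1
    · exact h2
  · rintro rfl
    exact ⟨rfl, rfl⟩

theorem m0_const {f : E 1 → ℂ} (hf : SP f) : Mul (m0 0 1) f = fun _ => fc f 0 := by
  refine (tame_m0.sp hf).ext_fc (SP.const _) fun k => ?_
  rw [tame_m0.fc hf, fc_const]
  unfold m0
  by_cases h : k = 0
  · rw [if_pos (zt_eq_zero'.2 h), if_pos h, one_mul, h]
  · rw [if_neg (fun h' => h (zt_eq_zero'.1 h')), if_neg h, zero_mul]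

/-- the mean of the logarithmic solution -/
def g0 (μ : E 1 → ℂ) : ℂ := fc (gB 0 1 μ) 0

/-- the solution `a` of `a = S (μ (1 + a))` -/
def aB (μ : E 1 → ℂ) : E 1 → ℂ := fun x => (g0 μ)⁻¹ * gB 0 1 μ x - 1

/-- `μ (1 + a)` -/
def wB (μ : E 1 → ℂ) : E 1 → ℂ := fun x => μ x * (1 + aB μ x)

section

variable {μ : E 1 → ℂ} (hμ : SP μ) {κ : ℝ} (hκ : ∀ x, ‖μ x‖ ≤ κ) (hκ1 : κ < 1)

include hμ hκ hκ1

theorem g0_ne_zero : g0 μ ≠ 0 := by
  intro h
  have h1 := detB_re_pos (p := 0) (q := 1) hμ hκ hκ1 0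
  unfold detB at h1
  rw [m0_const (sp_gB hμ hκ hκ1), m0_const (sp_WB hμ hκ hκ1)] at h1
  have h2 : fc (gB 0 1 μ) 0 = 0 := h
  simp only [h2, map_zero, mul_zero, zero_sub, Complex.neg_re] at h1
  rw [Complex.mul_conj, Complex.ofReal_re] at h1
  have := Complex.normSq_nonneg (fc (WB 0 1 μ) 0)
  linarith

theorem sp_aB : SP (aB μ) := ((sp_gB hμ hκ hκ1).cmul _).sub (SP.const 1)

theorem sp_wB : SP (wB μ) := hμ.mul ((SP.const 1).add (sp_aB hμ hκ hκ1))

theorem one_add_aB (x : E 1) : 1 + aB μ x = (g0 μ)⁻¹ * gB 0 1 μ x := by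
  unfold aB
  ring

theorem one_add_aB_ne (x : E 1) : 1 + aB μ x ≠ 0 := by
  unfold aB
  rw [add_sub_cancel]
  exact mul_ne_zero (inv_ne_zero (g0_ne_zero hμ hκ hκ1)) (gB_ne_zero x)

theorem aB_eq : Mul (mB 0 1) (wB μ) = aB μ := by
  have h1 := dz_u (p := 0) (q := 1) hμ hκ hκ1
  have hW := sp_WB (p := 0) (q := 1) hμ hκ hκ1
  rw [dz_mI hW, m0_const (sp_gB hμ hκ hκ1)] at h1
  have h2 : wB μ = fun x => (g0 μ)⁻¹ * WB 0 1 μ x := by
    funext x
    unfold wB WB aB
    ring
  rw [h2, mul_cmul, h1]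
  funext x
  unfold aB
  have h3 := g0_ne_zero hμ hκ hκ1
  show (g0 μ)⁻¹ * (gB 0 1 μ x - g0 μ) = _
  field_simp

end

/-- the energy inequality for the difference of two solutions -/
theorem energy {μ μ' : E 1 → ℂ} (hμ : SP μ) (hμ' : SP μ') {κ : ℝ} (hκ : ∀ x, ‖μ x‖ ≤ κ)
    (hκ' : ∀ x, ‖μ' x‖ ≤ κ) (hκ1 : κ < 1) :
    ∫ x in cube 1, ‖aB μ x - aB μ' x‖ ^ 2 ≤ ∫ x in cube 1, ‖wB μ x - wB μ' x‖ ^ 2 := by
  have h1 := sp_aB hμ hκ hκ1
  have h2 := sp_aB hμ' hκ' hκ1
  have h3 := sp_wB hμ hκ hκ1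
  have h4 := sp_wB hμ' hκ' hκ1
  rw [(h1.sub h2).parseval, (h3.sub h4).parseval]
  refine Summable.tsum_le_tsum (fun k => ?_) (h1.sub h2).rd.sq (h3.sub h4).rd.sq
  have e : fc (fun x => aB μ x - aB μ' x) k = mB 0 1 k * fc (fun x => wB μ x - wB μ' x) k := by
    rw [fc_sub h1 h2, fc_sub h3 h4, ← aB_eq hμ hκ hκ1, ← aB_eq hμ' hκ' hκ1,
      tame_mB.fc h3, tame_mB.fc h4]
    ring
  rw [e, norm_mul, mul_pow]
  have h5 := norm_mB (p := 0) (q := 1) k
  have h6 := norm_nonneg (mB (M := 1) 0 1 k)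
  have h7 : ‖mB (M := 1) 0 1 k‖ ^ 2 ≤ 1 := pow_le_one₀ h6 h5
  exact mul_le_of_le_one_left (sq_nonneg _) h7

theorem gB_zero : gB (M := 1) 0 1 (fun _ => 0) = fun _ => 1 := by
  have h0 : dz (M := 1) 0 1 (fun _ => (0 : ℂ)) = fun _ => 0 := by
    funext x
    unfold dz
    rw [pd_const, pd_const]
    simp
  have h1 : tauB (M := 1) 0 1 (fun _ => 0) = fun _ => 0 := by
    funext x
    have h := unique_sol (μ := fun _ : E 1 => (0 : ℂ)) (m := mB 0 1) (b := dz 0 1 (fun _ => (0 : ℂ)))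
      (SP.const 0) (κ := 0) (fun x => by simp) (by norm_num) norm_mB (SP.const 0).dz
      (g := fun _ => 0) (SP.const 0) (fun x => by rw [h0]; simp)
    unfold tauB
    rw [← h]
  unfold gB
  rw [h1, mul_zero']
  funext x
  simp

theorem aB_zero : aB (fun _ => 0) = fun _ => 0 := by
  funext x
  unfold aB g0
  rw [gB_zero, fc_const]
  simp

/-! ### Periodisation -/

/-- the affine chart -/
def T (L : ℝ) (z : ℂ) : E 1 := ![z.re / L + 1 / 2, z.im / L + 1 / 2]

/-- the inverse of the affine chart -/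
def Ti (L : ℝ) (x : E 1) : ℂ := ⟨L * (x 0 - 1 / 2), L * (x 1 - 1 / 2)⟩

theorem Ti_T {L : ℝ} (hL : 0 < L) (z : ℂ) : Ti L (T L z) = z := by
  apply Complex.ext
  · simp only [Ti, T, Matrix.cons_val_zero]
    field_simp
    ring
  · simp only [Ti, T, Matrix.cons_val_one, Matrix.cons_val_fin_one]
    field_simp
    ring

theorem T_Ti {L : ℝ} (hL : 0 < L) (x : E 1) : T L (Ti L x) = x := by
  funext i
  fin_cases i
  · simp [Ti, T, hL.ne']
  · simp [Ti, T, hL.ne']

/-- the periodic extension of a function on the unit cell -/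
def perE (m : E 1 → ℂ) (x : E 1) : ℂ := m (fun i => Int.fract (x i))

theorem perE_per (m : E 1 → ℂ) : Per (perE m) := by
  intro x k
  unfold perE
  congr 1
  funext i
  simp [il, Int.fract_add_intCast]

theorem perE_of_mem (m : E 1 → ℂ) {x : E 1} (h : ∀ i, 0 ≤ x i ∧ x i < 1) : perE m x = m x := by
  unfold perE
  congr 1
  funext i
  exact Int.fract_eq_self.2 (h i)

theorem perE_smooth {m : E 1 → ℂ} (hm : ContDiff ℝ ∞ m) {η : ℝ} (hη : 0 < η)
    (h : ∀ x : E 1, (∃ i, x i < η ∨ 1 - η < x i) → m x = 0) : ContDiff ℝ ∞ (perE m) := by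
  rw [contDiff_iff_contDiffAt]
  intro x
  by_cases hx : ∀ i, Int.fract (x i) ≠ 0
  · -- the floor is locally constant
    have h1 : ∀ᶠ y in 𝓝 x, ∀ i, ⌊y i⌋ = ⌊x i⌋ := by
      rw [eventually_all]
      intro i
      have h2 : (⌊x i⌋ : ℝ) < x i := by
        have h4 := Int.fract_nonneg (x i)
        have h5 : 0 < Int.fract (x i) := lt_of_le_of_ne h4 (Ne.symm (hx i))
        have e := Int.self_sub_fract (x i)
        linarith
      have h3 : x i < ⌊x i⌋ + 1 := Int.lt_floor_add_one _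
      have hc : Continuous fun y : E 1 => y i := continuous_apply i
      filter_upwards [(hc.tendsto x).eventually (lt_mem_nhds h2),
        (hc.tendsto x).eventually (gt_mem_nhds h3)] with y hy1 hy2
      exact Int.floor_eq_iff.2 ⟨hy1.le, hy2⟩
    have h2 : perE m =ᶠ[𝓝 x] fun y => m (fun i => y i - ⌊x i⌋) := by
      filter_upwards [h1] with y hy
      unfold perE
      congr 1
      funext i
      rw [← hy i, Int.self_sub_floor]
    refine ContDiffAt.congr_of_eventuallyEq ?_ h2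
    refine (hm.comp ?_).contDiffAt
    rw [contDiff_pi]
    intro i
    exact (contDiff_apply ℝ ℝ i).sub contDiff_const
  · push Not at hx
    obtain ⟨i, hi⟩ := hx
    have hxi : x i = ⌊x i⌋ := by
      have e := Int.self_sub_fract (x i)
      rw [hi, sub_zero] at e
      exact e
    have h2 : perE m =ᶠ[𝓝 x] fun _ => 0 := by
      have hc : Continuous fun y : E 1 => y i := continuous_apply i
      have h3 : x i - η < x i := by linarith
      have h4 : x i < x i + η := by linarith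
      filter_upwards [(hc.tendsto x).eventually (lt_mem_nhds h3),
        (hc.tendsto x).eventually (gt_mem_nhds h4)] with y hy1 hy2
      unfold perE
      apply h
      refine ⟨i, ?_⟩
      by_cases hc' : x i ≤ y i
      · left
        have h5 : Int.fract (y i) ≤ y i - ⌊x i⌋ := by
          have h6 : (⌊x i⌋ : ℤ) ≤ ⌊y i⌋ := Int.le_floor.2 (by rw [← hxi]; exact hc')
          have h7 : ((⌊x i⌋ : ℤ) : ℝ) ≤ ⌊y i⌋ := by exact_mod_cast h6
          rw [Int.fract]
          linarith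
        rw [← hxi] at h5
        linarith
      · right
        push Not at hc'
        have h6 : ⌊y i⌋ < ⌊x i⌋ := by
          rw [Int.floor_lt]
          rw [← hxi]
          exact hc'
        have h7 : ((⌊y i⌋ : ℤ) : ℝ) + 1 ≤ ⌊x i⌋ := by exact_mod_cast h6
        rw [Int.fract]
        have h8 : (x i : ℝ) - η < y i := hy1
        linarith
    exact contDiffAt_const.congr_of_eventuallyEq h2

end Pool.Agent.Helper23S
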