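import Pool.Agent.Helper23S.Tor

/-!
# The Beltrami equation on a square torus, pulled back to the plane, part two
-/

set_option autoImplicit false
set_option linter.unusedSectionVars false

open MeasureTheory Set Filter Topology
open scoped ContDiff

noncomputable section

namespace Pool.Agent.Helper23S

open Pool.Agent.Helper597_fou
open Pool.Agent.Split938 (dbar)

/-- admissible Beltrami coefficients -/
structure Adm (ρ κ : ℝ) (μ : ℂ → ℂ) : Prop where
  smooth : ContDiff ℝ ∞ μ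
  supp : ∀ z, ρ ≤ ‖z‖ → μ z = 0
  bdd : ∀ z, ‖μ z‖ ≤ κ

/-- the derivative of a real differentiable function -/
theorem fderiv_eq (h : ℂ → ℂ) (z v : ℂ) :
    fderiv ℝ h z v = dd h z * v + dbar h z * (starRingEnd ℂ) v := by
  have h1 : v = v.re • (1 : ℂ) + v.im • Complex.I := by
    rw [Complex.real_smul, Complex.real_smul, mul_one]
    exact (Complex.re_add_im v).symm
  have h2 : (starRingEnd ℂ) v = v.re - v.im * Complex.I := by
    apply Complex.ext <;> simp
  have h3 : v = v.re + v.im * Complex.I := (Complex.re_add_im v).symm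
  have h4 : fderiv ℝ h z v = v.re * fderiv ℝ h z 1 + v.im * fderiv ℝ h z Complex.I := by
    conv_lhs => rw [h1]
    rw [map_add, map_smul, map_smul, Complex.real_smul, Complex.real_smul]
  have h5 : dd h z * v = dd h z * (v.re + v.im * Complex.I) := congrArg _ h3
  rw [h4, h2, h5]
  unfold dd Pool.Agent.Split938.dz dbar
  linear_combination ((v.im : ℂ) * fderiv ℝ h z Complex.I) * Complex.I_sq

/-- the periodised coefficient -/
def mt (L : ℝ) (μ : ℂ → ℂ) : E 1 → ℂ := perE (fun x => μ (Ti L x))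

theorem Ti_smooth (L : ℝ) : ContDiff ℝ ∞ (Ti L) := by
  have h : Ti L = fun x => ((L * (x 0 - 1 / 2) : ℝ) : ℂ) + ((L * (x 1 - 1 / 2) : ℝ) : ℂ) * Complex.I := by
    funext x
    exact (Complex.re_add_im (Ti L x)).symm
  rw [h]
  have h1 : ContDiff ℝ ∞ fun x : E 1 => L * (x 0 - 1 / 2) :=
    contDiff_const.mul ((contDiff_apply ℝ ℝ (0 : Fin 2)).sub contDiff_const)
  have h2 : ContDiff ℝ ∞ fun x : E 1 => L * (x 1 - 1 / 2) :=
    contDiff_const.mul ((contDiff_apply ℝ ℝ (1 : Fin 2)).sub contDiff_const)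
  exact (Complex.ofRealCLM.contDiff.comp h1).add ((Complex.ofRealCLM.contDiff.comp h2).mul
    contDiff_const)

theorem T_smooth (L : ℝ) : ContDiff ℝ ∞ (T L) := by
  rw [contDiff_pi]
  intro i
  fin_cases i
  · exact (Complex.reCLM.contDiff.div_const L).add contDiff_const
  · exact (Complex.imCLM.contDiff.div_const L).add contDiff_const

variable {ρ κ L : ℝ} {μ : ℂ → ℂ}

theorem sp_mt (hρ : 0 < ρ) (hL : 4 * ρ ≤ L) (hμ : Adm ρ κ μ) : SP (mt L μ) where
  smooth := by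
    have hL0 : 0 < L := by linarith
    refine perE_smooth (hμ.smooth.comp (Ti_smooth L)) (η := 1 / 4) (by norm_num) ?_
    rintro x ⟨i, hi⟩
    apply hμ.supp
    have h1 : ρ ≤ |L * (x i - 1 / 2)| := by
      rw [abs_mul, abs_of_pos hL0]
      have h2 : 1 / 4 ≤ |x i - 1 / 2| := by
        rw [le_abs]
        rcases hi with hi | hi
        · right; linarith
        · left; linarith
      nlinarith
    refine h1.trans ?_
    fin_cases i
    · exact Complex.abs_re_le_norm (Ti L x)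
    · exact Complex.abs_im_le_norm (Ti L x)
  per := perE_per _

theorem mt_bdd (hμ : Adm ρ κ μ) (x : E 1) : ‖mt L μ x‖ ≤ κ := hμ.bdd _

/-- the open cell -/
def Qo (L : ℝ) : Set ℂ := {z | |z.re| < L / 2 ∧ |z.im| < L / 2}

/-- the closed cell -/
def Qc (L : ℝ) : Set ℂ := {z | |z.re| ≤ L / 2 ∧ |z.im| ≤ L / 2}

theorem Qo_open (L : ℝ) : IsOpen (Qo L) :=
  (isOpen_lt (continuous_abs.comp Complex.continuous_re) continuous_const).inter
    (isOpen_lt (continuous_abs.comp Complex.continuous_im) continuous_const)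

theorem ball_Qo (L : ℝ) : Metric.ball (0 : ℂ) (L / 2) ⊆ Qo L := by
  intro z hz
  rw [mem_ball_zero_iff] at hz
  exact ⟨(Complex.abs_re_le_norm z).trans_lt hz, (Complex.abs_im_le_norm z).trans_lt hz⟩

theorem Qo_Qc (L : ℝ) : Qo L ⊆ Qc L := fun _ hz => ⟨hz.1.le, hz.2.le⟩

theorem mt_T (hL0 : 0 < L) (μ : ℂ → ℂ) {z : ℂ} (hz : z ∈ Qo L) : mt L μ (T L z) = μ z := by
  unfold mt
  have h1 := abs_lt.1 hz.1
  have h2 := abs_lt.1 hz.2
  rw [perE_of_mem, Ti_T hL0]
  intro i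
  have e : ∀ t : ℝ, -(L / 2) < t → t < L / 2 → 0 ≤ t / L + 1 / 2 ∧ t / L + 1 / 2 < 1 := by
    intro t ht1 ht2
    have h3 : -(1 / 2) < t / L := by rw [lt_div_iff₀ hL0]; linarith
    have h4 : t / L < 1 / 2 := by rw [div_lt_iff₀ hL0]; linarith
    constructor <;> linarith
  fin_cases i
  · exact e z.re h1.1 h1.2
  · exact e z.im h2.1 h2.2

/-- the solution `a`, in the plane -/
def aL (L : ℝ) (μ : ℂ → ℂ) (z : ℂ) : ℂ := aB (mt L μ) (T L z)

/-- the coefficient in the plane -/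
def mL (L : ℝ) (μ : ℂ → ℂ) (z : ℂ) : ℂ := mt L μ (T L z)

/-- the mean -/
def cL (L : ℝ) (μ : ℂ → ℂ) : ℂ := fc (wB (mt L μ)) 0

/-- the unnormalised solution -/
def ph0 (L : ℝ) (μ : ℂ → ℂ) (z : ℂ) : ℂ :=
  z + cL L μ * (starRingEnd ℂ) z + L * Mul (mI 0 1) (wB (mt L μ)) (T L z)

/-- the normalised solution, which fixes the point `2 ρ` -/
def ph (ρ L : ℝ) (μ : ℂ → ℂ) (z : ℂ) : ℂ := ph0 L μ z - ph0 L μ (2 * ρ : ℝ) + (2 * ρ : ℝ)

/-- the linear part of the chart -/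
def TL (L : ℝ) : ℂ →L[ℝ] E 1 :=
  ContinuousLinearMap.pi fun i => if i = 0 then (1 / L) • Complex.reCLM else (1 / L) • Complex.imCLM

theorem TL_apply (L : ℝ) (v : ℂ) : TL L v = ![v.re / L, v.im / L] := by
  funext i
  fin_cases i
  · simp [TL]; ring
  · simp [TL]; ring

theorem hasFDerivAt_T (L : ℝ) (z : ℂ) : HasFDerivAt (T L) (TL L) z := by
  have h : T L = fun z => TL L z + fun _ => 1 / 2 := by
    funext z i
    rw [TL_apply]
    fin_cases i <;> simp [T]
  rw [h]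
  exact (TL L).hasFDerivAt.add_const _

theorem TL_one (L : ℝ) : TL L 1 = (1 / L) • (Pi.single 0 1 : E 1) := by
  rw [TL_apply]
  funext i
  fin_cases i <;> simp

theorem TL_I (L : ℝ) : TL L Complex.I = (1 / L) • (Pi.single 1 1 : E 1) := by
  rw [TL_apply]
  funext i
  fin_cases i <;> simp

theorem fderiv_compT {f : E 1 → ℂ} (hf : Differentiable ℝ f) (z v : ℂ) :
    fderiv ℝ (fun z => f (T L z)) z v = fderiv ℝ f (T L z) (TL L v) := by
  have h := (hf (T L z)).hasFDerivAt.comp z (hasFDerivAt_T L z)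
  have h1 : fderiv ℝ (fun z => f (T L z)) z = _ := h.fderiv
  rw [h1]
  rfl

theorem dd_compT {f : E 1 → ℂ} (hf : Differentiable ℝ f) (z : ℂ) :
    dd (fun z => f (T L z)) z = (L : ℂ)⁻¹ * dz 0 1 f (T L z) := by
  unfold dd Pool.Agent.Split938.dz
  rw [fderiv_compT hf, fderiv_compT hf, TL_one, TL_I, map_smul, map_smul]
  unfold dz pd
  rw [Complex.real_smul, Complex.real_smul]
  push_cast
  ring

theorem dbar_compT {f : E 1 → ℂ} (hf : Differentiable ℝ f) (z : ℂ) :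
    dbar (fun z => f (T L z)) z = (L : ℂ)⁻¹ * dzb 0 1 f (T L z) := by
  unfold dbar
  rw [fderiv_compT hf, fderiv_compT hf, TL_one, TL_I, map_smul, map_smul]
  unfold dzb pd
  rw [Complex.real_smul, Complex.real_smul]
  push_cast
  ring

theorem fderiv_phi {c : ℂ} {u : ℂ → ℂ} (hu : Differentiable ℝ u) (k : ℂ) (z v : ℂ) :
    fderiv ℝ (fun z => z + c * (starRingEnd ℂ) z + k * u z) z v =
      v + c * (starRingEnd ℂ) v + k * fderiv ℝ u z v := by
  have h1 : HasFDerivAt (fun z : ℂ => (starRingEnd ℂ) z) (Complex.conjCLE : ℂ →L[ℝ] ℂ) z :=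
    (Complex.conjCLE : ℂ →L[ℝ] ℂ).hasFDerivAt
  have h2 := ((hasFDerivAt_id (𝕜 := ℝ) z).add (h1.const_mul c)).add
    ((hu z).hasFDerivAt.const_mul k)
  have h3 : fderiv ℝ (fun z => z + c * (starRingEnd ℂ) z + k * u z) z = _ := h2.fderiv
  rw [h3]
  simp

theorem dd_phi {c : ℂ} {u : ℂ → ℂ} (hu : Differentiable ℝ u) (k : ℂ) (z : ℂ) :
    dd (fun z => z + c * (starRingEnd ℂ) z + k * u z) z = 1 + k * dd u z := by
  unfold dd Pool.Agent.Split938.dz
  rw [fderiv_phi hu, fderiv_phi hu]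
  simp only [map_one, Complex.conj_I]
  linear_combination ((-1 / 2 : ℂ) + c / 2) * Complex.I_sq

theorem dbar_phi {c : ℂ} {u : ℂ → ℂ} (hu : Differentiable ℝ u) (k : ℂ) (z : ℂ) :
    dbar (fun z => z + c * (starRingEnd ℂ) z + k * u z) z = c + k * dbar u z := by
  unfold dbar
  rw [fderiv_phi hu, fderiv_phi hu]
  simp only [map_one, Complex.conj_I]
  linear_combination ((1 / 2 : ℂ) - c / 2) * Complex.I_sq

section

variable (hρ : 0 < ρ) (hL : 4 * ρ ≤ L) (hμ : Adm ρ κ μ) (hκ1 : κ < 1)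

include hρ hL hμ hκ1

theorem sp_wmt : SP (wB (mt L μ)) := sp_wB (sp_mt hρ hL hμ) (mt_bdd hμ) hκ1

theorem sp_amt : SP (aB (mt L μ)) := sp_aB (sp_mt hρ hL hμ) (mt_bdd hμ) hκ1

theorem aL_smooth : ContDiff ℝ ∞ (aL L μ) := (sp_amt hρ hL hμ hκ1).smooth.comp (T_smooth L)

theorem ph0_smooth : ContDiff ℝ ∞ (ph0 L μ) := by
  have h1 := ((tame_mI (p := 0) (q := 1)).sp (sp_wmt hρ hL hμ hκ1)).smooth.comp (T_smooth L)
  exact (contDiff_id.add (contDiff_const.mul Complex.conjCLE.contDiff)).add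
    (contDiff_const.mul h1)

theorem ph_smooth : ContDiff ℝ ∞ (ph ρ L μ) :=
  ((ph0_smooth hρ hL hμ hκ1).sub contDiff_const).add contDiff_const

theorem fderiv_ph (z : ℂ) : fderiv ℝ (ph ρ L μ) z = fderiv ℝ (ph0 L μ) z := by
  have h : ph ρ L μ = fun z => ph0 L μ z + (-ph0 L μ (2 * ρ : ℝ) + (2 * ρ : ℝ)) := by
    funext z
    unfold ph
    ring
  rw [h]
  exact fderiv_add_const _

theorem dd_ph (z : ℂ) : dd (ph ρ L μ) z = 1 + aL L μ z := by
  have hL0 : (L : ℂ) ≠ 0 := by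
    have : L ≠ 0 := by linarith
    exact_mod_cast this
  have hW := sp_wmt hρ hL hμ hκ1
  have h1 : dd (ph ρ L μ) z = dd (ph0 L μ) z := by
    unfold dd Pool.Agent.Split938.dz
    rw [fderiv_ph hρ hL hμ hκ1]
  have h2 := ((tame_mI (p := 0) (q := 1)).sp hW).diff
  have h3 : Differentiable ℝ fun z => Mul (mI 0 1) (wB (mt L μ)) (T L z) :=
    h2.comp ((T_smooth L).differentiable (by simp))
  rw [h1]
  unfold ph0
  rw [dd_phi h3, dd_compT h2, dz_mI hW, aB_eq (sp_mt hρ hL hμ) (mt_bdd hμ) hκ1]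
  unfold aL
  field_simp

theorem dbar_ph (z : ℂ) : dbar (ph ρ L μ) z = mL L μ z * (1 + aL L μ z) := by
  have hL0 : (L : ℂ) ≠ 0 := by
    have : L ≠ 0 := by linarith
    exact_mod_cast this
  have hW := sp_wmt hρ hL hμ hκ1
  have h1 : dbar (ph ρ L μ) z = dbar (ph0 L μ) z := by
    unfold dbar
    rw [fderiv_ph hρ hL hμ hκ1]
  have h2 := ((tame_mI (p := 0) (q := 1)).sp hW).diff
  have h3 : Differentiable ℝ fun z => Mul (mI 0 1) (wB (mt L μ)) (T L z) :=
    h2.comp ((T_smooth L).differentiable (by simp))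
  rw [h1]
  unfold ph0
  rw [dbar_phi h3, dbar_compT h2, dzb_mI hW, m0_const hW]
  unfold cL mL aL wB
  field_simp
  ring

theorem ph_apply (z v : ℂ) : fderiv ℝ (ph ρ L μ) z v =
    (1 + aL L μ z) * (v + mL L μ z * (starRingEnd ℂ) v) := by
  rw [fderiv_eq, dd_ph hρ hL hμ hκ1, dbar_ph hρ hL hμ hκ1]
  ring

theorem norm_mL (z : ℂ) : ‖mL L μ z‖ ≤ κ := mt_bdd hμ _

theorem one_add_ne (z : ℂ) : 1 + aL L μ z ≠ 0 :=
  one_add_aB_ne (sp_mt hρ hL hμ) (mt_bdd hμ) hκ1 _

theorem norm_add_conj_ge {m v : ℂ} (hm : ‖m‖ ≤ κ) : (1 - κ) * ‖v‖ ≤ ‖v + m * (starRingEnd ℂ) v‖ := by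
  have h1 : ‖v‖ ≤ ‖v + m * (starRingEnd ℂ) v‖ + ‖m * (starRingEnd ℂ) v‖ := by
    have := norm_sub_le (v + m * (starRingEnd ℂ) v) (m * (starRingEnd ℂ) v)
    rwa [add_sub_cancel_right] at this
  rw [norm_mul, RCLike.norm_conj] at h1
  nlinarith [norm_nonneg v]

theorem norm_add_conj_le {m v : ℂ} (hm : ‖m‖ ≤ κ) : ‖v + m * (starRingEnd ℂ) v‖ ≤ (1 + κ) * ‖v‖ := by
  have h1 := norm_add_le v (m * (starRingEnd ℂ) v)
  rw [norm_mul, RCLike.norm_conj] at h1
  nlinarith [norm_nonneg v]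

theorem ph_lower : ∃ m > 0, ∀ z v, m * ‖v‖ ≤ ‖fderiv ℝ (ph ρ L μ) z v‖ := by
  have h1 : SP (fun x => (1 + aB (mt L μ) x)⁻¹) :=
    ((SP.const 1).add (sp_amt hρ hL hμ hκ1)).inv
      (one_add_aB_ne (sp_mt hρ hL hμ) (mt_bdd hμ) hκ1)
  set C : ℝ := ∑' k, ‖fc (fun x => (1 + aB (mt L μ) x)⁻¹) k‖ + 1 with hC
  have hC1 : 0 < C := by
    have : 0 ≤ ∑' k, ‖fc (fun x => (1 + aB (mt L μ) x)⁻¹) k‖ := tsum_nonneg fun _ => norm_nonneg _
    linarith
  have h2 : ∀ x, ‖(1 + aB (mt L μ) x)⁻¹‖ ≤ C := by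
    intro x
    have := norm_S_le h1.rd.summable x
    rw [h1.S_fc] at this
    linarith
  refine ⟨C⁻¹ * (1 - κ), mul_pos (inv_pos.2 hC1) (by linarith), fun z v => ?_⟩
  rw [ph_apply hρ hL hμ hκ1, norm_mul]
  have h3 := norm_add_conj_ge (κ := κ) (v := v) hρ hL hμ hκ1 (norm_mL (L := L) hρ hL hμ hκ1 z)
  have h4 : C⁻¹ ≤ ‖1 + aL L μ z‖ := by
    have h5 := h2 (T L z)
    rw [norm_inv] at h5
    have h6 : 0 < ‖1 + aL L μ z‖ := norm_pos_iff.2 (one_add_ne hρ hL hμ hκ1 z)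
    have h7 : ‖1 + aL L μ z‖⁻¹ ≤ C := h5
    rw [inv_le_comm₀ hC1 h6]
    exact h7
  rw [mul_assoc]
  exact mul_le_mul h4 h3 (by have := norm_nonneg v; nlinarith) (norm_nonneg _)

end

/-! ### Integrals -/

theorem Qc_eq (hL0 : 0 < L) : Qc L = T L ⁻¹' cube 1 := by
  ext z
  simp only [Qc, cube, mem_ofPred_eq, mem_preimage, mem_Icc, Pi.le_def, Pi.zero_apply, Pi.one_apply]
  have e : ∀ t : ℝ, |t| ≤ L / 2 ↔ 0 ≤ t / L + 1 / 2 ∧ t / L + 1 / 2 ≤ 1 := by
    intro t
    rw [abs_le]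
    have h1 : -(L / 2) ≤ t ↔ 0 ≤ t / L + 1 / 2 := by
      rw [← neg_le_iff_add_nonneg, le_div_iff₀ hL0]
      constructor <;> intro h <;> linarith
    have h2 : t ≤ L / 2 ↔ t / L + 1 / 2 ≤ 1 := by
      rw [← le_sub_iff_add_le, div_le_iff₀ hL0]
      constructor <;> intro h <;> linarith
    rw [h1, h2]
  constructor
  · rintro ⟨h1, h2⟩
    rw [e] at h1 h2
    refine ⟨fun i => ?_, fun i => ?_⟩
    · fin_cases i
      · exact h1.1
      · exact h2.1
    · fin_cases i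
      · exact h1.2
      · exact h2.2
  · rintro ⟨h1, h2⟩
    rw [e, e]
    exact ⟨⟨h1 0, h2 0⟩, ⟨h1 1, h2 1⟩⟩

theorem integral_Qc (hL0 : 0 < L) (F : E 1 → ℝ) :
    ∫ z in Qc L, F (T L z) = L ^ 2 * ∫ x in cube 1, F x := by
  have hcube : MeasurableSet (cube 1) := measurableSet_Icc
  have hQ : MeasurableSet (Qc L) := by
    rw [Qc_eq hL0]
    exact (T_smooth L).continuous.measurable hcube
  rw [← integral_indicator hQ, ← integral_indicator hcube]
  have h1 : (Qc L).indicator (fun z => F (T L z)) = fun z => (cube 1).indicator F (T L z) := by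
    funext z
    by_cases h : z ∈ Qc L
    · have h' : T L z ∈ cube 1 := by rw [Qc_eq hL0] at h; exact h
      rw [indicator_of_mem h, indicator_of_mem h']
    · have h' : T L z ∉ cube 1 := by rw [Qc_eq hL0] at h; exact h
      rw [indicator_of_notMem h, indicator_of_notMem h']
  rw [h1]
  have h2 : ∀ z, T L z = (1 / L) • (Complex.measurableEquivPi z + fun _ => L / 2) := by
    intro z
    funext i
    fin_cases i
    · show z.re / L + 1 / 2 = (1 / L) * (z.re + L / 2)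
      field_simp
    · show z.im / L + 1 / 2 = (1 / L) * (z.im + L / 2)
      field_simp
  simp_rw [h2]
  rw [(Complex.volume_preserving_equiv_pi).integral_comp
    Complex.measurableEquivPi.measurableEmbedding
    (fun y : E 1 => (cube 1).indicator F ((1 / L) • (y + fun _ => L / 2)))]
  rw [integral_add_right_eq_self (fun y : E 1 => (cube 1).indicator F ((1 / L) • y)),
    Measure.integral_comp_smul]
  simp only [Module.finrank_fintype_fun_eq_card, Fintype.card_fin, smul_eq_mul]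
  congr 1
  rw [abs_of_pos (by positivity), show (1 + 1 : ℕ) = 2 from rfl]
  field_simp

theorem Qc_compact (L : ℝ) : IsCompact (Qc L) := by
  have hc : IsClosed (Qc L) :=
    (isClosed_le (continuous_abs.comp Complex.continuous_re) continuous_const).inter
      (isClosed_le (continuous_abs.comp Complex.continuous_im) continuous_const)
  refine Metric.isCompact_of_isClosed_isBounded hc ?_
  refine (Metric.isBounded_closedBall (x := (0 : ℂ)) (r := |L|)).subset fun z hz => ?_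
  rw [mem_closedBall_zero_iff]
  have h1 := Complex.norm_le_abs_re_add_abs_im z
  have h2 := le_abs_self L
  have := hz.1
  have := hz.2
  linarith

/-- the energy inequality in the plane -/
theorem energyL (hρ : 0 < ρ) (hL : 4 * ρ ≤ L) {μ' : ℂ → ℂ} (hμ : Adm ρ κ μ) (hμ' : Adm ρ κ μ')
    (hκ1 : κ < 1) :
    ∫ z in Qc L, ‖aL L μ z - aL L μ' z‖ ^ 2 ≤
      ∫ z in Qc L, ‖mL L μ z * (1 + aL L μ z) - mL L μ' z * (1 + aL L μ' z)‖ ^ 2 := by
  have hL0 : 0 < L := by linarith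
  have h := energy (sp_mt hρ hL hμ) (sp_mt hρ hL hμ') (mt_bdd hμ) (mt_bdd hμ') hκ1
  have h1 := integral_Qc hL0 (fun x => ‖aB (mt L μ) x - aB (mt L μ') x‖ ^ 2)
  have h2 := integral_Qc hL0 (fun x => ‖wB (mt L μ) x - wB (mt L μ') x‖ ^ 2)
  unfold aL mL
  rw [h1]
  refine le_trans (mul_le_mul_of_nonneg_left h (by positivity)) ?_
  rw [← h2]
  exact le_of_eq rfl

end Pool.Agent.Helper23S
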